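import Pool.Agent.H93.UB.Fbv
import Pool.Agent.H35.CF.Fib
import Pool.Agent.H35.CF.Ins

/-!
# [H93 UB CLZ] the combinatorics of level zero

`V` a set of places, `W` the large places, labels `Λ` with classes `cls : Λ → Fin Nc`, `R` the rich classes.
* `p1 v x`: at a large place a label of a rich class is replaced by its class. `p2`: forgets the mark of a class label.
* `e1 h`, `e2 h`: the weights of the labels of the images, `h i v` for the class label `i` at `v`; `e2 h` is `h i v - 1` for a marked class label and `1` for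
  the class label without mark.
* `clz`: `∑_f Ψ(f) ∏ a` is at most `∑_f Ψ(f) ∏ (1 / kn)` plus the sum over `i ∈ R` and the configurations `c` with marks of
  `|∏ e2| |∑_w Ψ (c, w ↦ i) (h i w - 1)|`.
-/

set_option autoImplicit false

open scoped Classical

noncomputable section

namespace H93.UB

open H35.CF

variable {V Λ : Type} [Fintype Λ] {Nc : ℕ}

/-- at a large place a label of a rich class is replaced by its class -/
def p1 (W : V → Prop) (cls : Λ → Fin Nc) (R : Finset (Fin Nc)) (v : V) (x : Λ) : Λ ⊕ Fin Nc :=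
  if cls x ∈ R ∧ W v then Sum.inr (cls x) else Sum.inl x

/-- forgets the mark -/
def p2 : Λ ⊕ (Fin Nc × Bool) → Λ ⊕ Fin Nc := Sum.map id Prod.fst

/-- the weights -/
def e1 (W : V → Prop) (cls : Λ → Fin Nc) (R : Finset (Fin Nc)) (h : Fin Nc → V → ℝ) (v : V) :
    Λ ⊕ Fin Nc → ℝ :=
  Sum.elim (fun x => if cls x ∈ R ∧ W v then 0 else 1) fun i => if i ∈ R ∧ W v then h i v else 0

/-- the weights with marks -/
def e2 (W : V → Prop) (cls : Λ → Fin Nc) (R : Finset (Fin Nc)) (h : Fin Nc → V → ℝ) (v : V) :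
    Λ ⊕ (Fin Nc × Bool) → ℝ :=
  Sum.elim (fun x => if cls x ∈ R ∧ W v then 0 else 1) fun y =>
    if y.1 ∈ R ∧ W v then (if y.2 then h y.1 v - 1 else 1) else 0

/-- the weights of the configurations without marks -/
def e0 (W : V → Prop) (cls : Λ → Fin Nc) (R : Finset (Fin Nc)) (v : V) :
    Λ ⊕ (Fin Nc × Bool) → ℝ :=
  Sum.elim (fun x => if cls x ∈ R ∧ W v then 0 else 1) fun y =>
    if y.1 ∈ R ∧ W v then (if y.2 then 0 else 1) else 0

theorem p1_sum (W : V → Prop) (cls : Λ → Fin Nc) (R : Finset (Fin Nc)) (h : Fin Nc → V → ℝ)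
    (a : V → Λ → ℝ) (v : V)
    (ha : ∀ i ∈ R, W v → ∑ x ∈ Finset.univ.filter (fun x => cls x = i), a v x = h i v)
    (y : Λ ⊕ Fin Nc) :
    ∑ x ∈ Finset.univ.filter (fun x => p1 W cls R v x = y),
      (if cls x ∈ R ∧ W v then a v x else 1) = e1 W cls R h v y := by
  unfold e1
  rcases y with y | i
  · rw [Sum.elim_inl]
    by_cases hy : cls y ∈ R ∧ W v
    · rw [if_pos hy]
      refine Finset.sum_eq_zero fun x hx => ?_
      have h1 := (Finset.mem_filter.1 hx).2
      unfold p1 at h1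
      split_ifs at h1 with h2
      rw [Sum.inl.injEq] at h1
      rw [h1] at h2
      exact absurd hy h2
    · rw [if_neg hy]
      have h1 : Finset.univ.filter (fun x => p1 W cls R v x = Sum.inl y) = {y} := by
        ext x
        rw [Finset.mem_filter, Finset.mem_singleton]
        unfold p1
        constructor
        · rintro ⟨-, h1⟩
          split_ifs at h1 with h2
          exact Sum.inl.inj h1
        · rintro rfl
          exact ⟨Finset.mem_univ _, if_neg hy⟩
      rw [h1, Finset.sum_singleton, if_neg hy]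
  · rw [Sum.elim_inr]
    by_cases hi : i ∈ R ∧ W v
    · rw [if_pos hi, ← ha i hi.1 hi.2]
      have h1 : Finset.univ.filter (fun x => p1 W cls R v x = Sum.inr i) =
          Finset.univ.filter (fun x => cls x = i) := by
        ext x
        simp only [Finset.mem_filter, Finset.mem_univ, true_and]
        unfold p1
        constructor
        · intro h1
          split_ifs at h1 with h2
          exact Sum.inr.inj h1
        · rintro rfl
          rw [if_pos hi]
      rw [h1]
      refine Finset.sum_congr rfl fun x hx => ?_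
      rw [if_pos]
      rw [(Finset.mem_filter.1 hx).2]
      exact hi
    · rw [if_neg hi]
      refine Finset.sum_eq_zero fun x hx => ?_
      have h1 := (Finset.mem_filter.1 hx).2
      unfold p1 at h1
      split_ifs at h1 with h2
      rw [Sum.inr.injEq] at h1
      rw [h1] at h2
      exact absurd h2 hi

theorem p2_sum (F : Λ ⊕ (Fin Nc × Bool) → ℝ) (y : Λ ⊕ Fin Nc) :
    ∑ x ∈ Finset.univ.filter (fun x => p2 x = y), F x =
      Sum.elim (fun x => F (Sum.inl x)) (fun i => F (Sum.inr (i, true)) + F (Sum.inr (i, false)))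
        y := by
  rcases y with y | i
  · have h1 : Finset.univ.filter (fun x : Λ ⊕ (Fin Nc × Bool) => p2 x = Sum.inl y) =
        {Sum.inl y} := by
      ext x
      rw [Finset.mem_filter, Finset.mem_singleton]
      rcases x with x | x
      · simp [p2]
      · simp [p2]
    rw [h1, Finset.sum_singleton, Sum.elim_inl]
  · have h1 : Finset.univ.filter (fun x : Λ ⊕ (Fin Nc × Bool) => p2 x = Sum.inr i) =
        {Sum.inr (i, true), Sum.inr (i, false)} := by
      ext x
      rw [Finset.mem_filter, Finset.mem_insert, Finset.mem_singleton]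
      rcases x with x | ⟨j, β⟩
      · simp [p2]
      · cases β <;> simp [p2]
    rw [h1, Finset.sum_pair (by simp), Sum.elim_inr]

theorem e2_sum (W : V → Prop) (cls : Λ → Fin Nc) (R : Finset (Fin Nc)) (h : Fin Nc → V → ℝ)
    (v : V) (y : Λ ⊕ Fin Nc) :
    ∑ x ∈ Finset.univ.filter (fun x => p2 x = y), e2 W cls R h v x = e1 W cls R h v y := by
  rw [p2_sum]
  unfold e1 e2
  rcases y with y | i
  · rfl
  · by_cases hi : i ∈ R ∧ W v
    · simp [hi]
    · simp [hi]

theorem e0_sum (W : V → Prop) (cls : Λ → Fin Nc) (R : Finset (Fin Nc)) (v : V) (y : Λ ⊕ Fin Nc) :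
    ∑ x ∈ Finset.univ.filter (fun x => p2 x = y), e0 W cls R v x =
      e1 W cls R (fun _ _ => 1) v y := by
  rw [p2_sum]
  unfold e1 e0
  rcases y with y | i
  · rfl
  · by_cases hi : i ∈ R ∧ W v
    · simp [hi]
    · simp [hi]

/-- the number of marks -/
def tm (Z : Finset V) (c : V → Option (Λ ⊕ (Fin Nc × Bool))) : ℕ :=
  ∑ i : Fin Nc, (pl Z c (Sum.inr (i, true))).card

omit [Fintype Λ] in
theorem om_update (Z : Finset V) (a : V → (Λ ⊕ (Fin Nc × Bool)) → ℝ)
    (c : V → Option (Λ ⊕ (Fin Nc × Bool))) (w : V) (hw : w ∈ Z) (hc : c w = none)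
    (x : Λ ⊕ (Fin Nc × Bool)) :
    om Z a (Function.update c w (some x)) = a w x * om Z a c := by
  unfold om
  rw [← Finset.mul_prod_erase Z _ hw, ← Finset.mul_prod_erase Z (fun v => (c v).elim 1 (a v)) hw,
    Function.update_self, hc]
  show a w x * _ = a w x * (1 * _)
  rw [one_mul]
  congr 1
  refine Finset.prod_congr rfl fun v hv => ?_
  rw [Function.update_of_ne (Finset.ne_of_mem_erase hv)]

omit [Fintype Λ] in
theorem tm_update (Z : Finset V) (c : V → Option (Λ ⊕ (Fin Nc × Bool))) (w : V) (hw : w ∈ Z)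
    (hc : c w = none) (i : Fin Nc) :
    tm Z (Function.update c w (some (Sum.inr (i, true)))) = tm Z c + 1 := by
  unfold tm
  have h1 : ∀ j : Fin Nc, (pl Z (Function.update c w (some (Sum.inr (i, true))))
      (Sum.inr (j, true))).card = (pl Z c (Sum.inr (j, true))).card + if j = i then 1 else 0 := by
    intro j
    have hw' : w ∉ pl Z c (Sum.inr (j, true)) := by
      rw [mem_pl, hc]
      simp
    by_cases hj : j = i
    · subst hj
      rw [if_pos rfl, ← Finset.card_insert_of_notMem hw']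
      congr 1
      ext v
      rw [Finset.mem_insert, mem_pl, mem_pl]
      by_cases hv : v = w
      · subst hv
        rw [Function.update_self]
        exact ⟨fun _ => Or.inl rfl, fun _ => ⟨hw, rfl⟩⟩
      · rw [Function.update_of_ne hv]
        simp [hv]
    · rw [if_neg hj, add_zero]
      congr 1
      ext v
      rw [mem_pl, mem_pl]
      by_cases hv : v = w
      · subst hv
        rw [Function.update_self, hc]
        simp [Ne.symm hj]
      · rw [Function.update_of_ne hv]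
  rw [Finset.sum_congr rfl fun j _ => h1 j, Finset.sum_add_distrib, Finset.sum_ite_eq',
    if_pos (Finset.mem_univ _)]

omit [Fintype Λ] in
/-- the weight of a configuration without marks -/
theorem om_e0 (Z : Finset V) (W : V → Prop) (cls : Λ → Fin Nc) (R : Finset (Fin Nc))
    (h : Fin Nc → V → ℝ) (c : V → Option (Λ ⊕ (Fin Nc × Bool))) :
    om Z (e2 W cls R h) c = om Z (e0 W cls R) c +
      (if tm Z c = 0 then 0 else om Z (e2 W cls R h) c) := by
  by_cases ht : tm Z c = 0
  · rw [if_pos ht, add_zero]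
    unfold om
    refine Finset.prod_congr rfl fun v hv => ?_
    unfold tm at ht
    rw [Finset.sum_eq_zero_iff] at ht
    cases hc : c v with
    | none => rfl
    | some x =>
      rcases x with x | ⟨i, β⟩
      · rfl
      · cases β with
        | false => rfl
        | true =>
          have h1 := ht i (Finset.mem_univ _)
          rw [Finset.card_eq_zero] at h1
          have h2 : v ∈ pl Z c (Sum.inr (i, true)) := mem_pl.2 ⟨hv, hc⟩
          rw [h1] at h2
          exact absurd h2 (Finset.notMem_empty v)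
  · rw [if_neg ht]
    have h1 : om Z (e0 W cls R) c = 0 := by
      unfold tm at ht
      obtain ⟨i, -, hi⟩ := Finset.exists_ne_zero_of_sum_ne_zero ht
      obtain ⟨v, hv⟩ := Finset.card_ne_zero.1 hi
      rw [mem_pl] at hv
      unfold om
      refine Finset.prod_eq_zero hv.1 ?_
      rw [hv.2]
      show e0 W cls R v (Sum.inr (i, true)) = 0
      unfold e0
      simp
    rw [h1, zero_add]

/-- the marked configurations: insertion of one marked place -/
theorem mark_sum (Z : Finset V) (W : V → Prop) (cls : Λ → Fin Nc) (R : Finset (Fin Nc))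
    (Ψ : (V → Option (Λ ⊕ Fin Nc)) → ℝ) (H : (V → Option (Λ ⊕ Fin Nc)) → Fin Nc → V → ℝ)
    (hH : ∀ c ∈ Cf Z (Λ ⊕ (Fin Nc × Bool)), ∀ w ∈ Z, c w = none → W w → ∀ i ∈ R,
      H (mp p2 (Function.update c w (some (Sum.inr (i, true))))) = H (mp p2 c)) :
    ∑ c ∈ Cf Z (Λ ⊕ (Fin Nc × Bool)), (if tm Z c = 0 then 0 else
      Ψ (mp p2 c) * om Z (e2 W cls R (H (mp p2 c))) c) =
    ∑ i ∈ R, ∑ c ∈ Cf Z (Λ ⊕ (Fin Nc × Bool)),
      om Z (e2 W cls R (H (mp p2 c))) c / ((tm Z c : ℝ) + 1) *
        ∑ w ∈ Z.filter (fun v => W v ∧ c v = none),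
          Ψ (mp p2 (Function.update c w (some (Sum.inr (i, true))))) * (H (mp p2 c) i w - 1) := by
  obtain ⟨X, hX⟩ : ∃ X : (V → Option (Λ ⊕ (Fin Nc × Bool))) → ℝ,
      X = fun c => Ψ (mp p2 c) * om Z (e2 W cls R (H (mp p2 c))) c := ⟨_, rfl⟩
  -- places with a mark are large and of a rich class
  have hzero : ∀ c (i : Fin Nc) (w : V), w ∈ pl Z c (Sum.inr (i, true)) → ¬ (i ∈ R ∧ W w) →
      X c = 0 := by
    intro c i w hw hn
    rw [mem_pl] at hw
    rw [hX]
    have h1 : om Z (e2 W cls R (H (mp p2 c))) c = 0 := by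
      unfold om
      refine Finset.prod_eq_zero hw.1 ?_
      rw [hw.2]
      show e2 W cls R (H (mp p2 c)) w (Sum.inr (i, true)) = 0
      unfold e2
      rw [Sum.elim_inr, if_neg hn]
    show Ψ (mp p2 c) * _ = 0
    rw [h1, mul_zero]
  have h1 : ∀ c, (if tm Z c = 0 then 0 else X c) =
      ∑ i ∈ R, ∑ w ∈ (pl Z c (Sum.inr (i, true))).filter W, X c / (tm Z c : ℝ) := by
    intro c
    have h2 : ∑ i ∈ R, ∑ w ∈ (pl Z c (Sum.inr (i, true))).filter W, X c / (tm Z c : ℝ) =
        ∑ i : Fin Nc, ∑ w ∈ pl Z c (Sum.inr (i, true)), X c / (tm Z c : ℝ) := by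
      rw [← Finset.sum_subset (Finset.subset_univ R)]
      · refine Finset.sum_congr rfl fun i hi => ?_
        refine Finset.sum_subset (Finset.filter_subset _ _) fun w hw hw' => ?_
        rw [hzero c i w hw, zero_div]
        intro h3
        exact hw' (Finset.mem_filter.2 ⟨hw, h3.2⟩)
      · intro i _ hi
        refine Finset.sum_eq_zero fun w hw => ?_
        rw [hzero c i w hw fun h3 => hi h3.1, zero_div]
    rw [h2]
    have h3 : ∑ i : Fin Nc, ∑ w ∈ pl Z c (Sum.inr (i, true)), X c / (tm Z c : ℝ) =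
        (tm Z c : ℝ) * (X c / (tm Z c : ℝ)) := by
      unfold tm
      push_cast
      rw [Finset.sum_mul]
      refine Finset.sum_congr rfl fun i _ => ?_
      rw [Finset.sum_const, nsmul_eq_mul]
    rw [h3]
    split_ifs with ht
    · rw [ht, Nat.cast_zero, zero_mul]
    · rw [mul_div_cancel₀ _ (Nat.cast_ne_zero.2 ht)]
  have h2 : ∑ c ∈ Cf Z (Λ ⊕ (Fin Nc × Bool)), (if tm Z c = 0 then 0 else
      Ψ (mp p2 c) * om Z (e2 W cls R (H (mp p2 c))) c) =
      ∑ c ∈ Cf Z (Λ ⊕ (Fin Nc × Bool)), (if tm Z c = 0 then 0 else X c) := by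
    rw [hX]
  rw [h2, Finset.sum_congr rfl fun c _ => h1 c, Finset.sum_comm]
  refine Finset.sum_congr rfl fun i hi => ?_
  rw [cf_ins Z W (Sum.inr (i, true)) (fun c _ => X c / (tm Z c : ℝ))]
  refine Finset.sum_congr rfl fun c hc => ?_
  rw [Finset.mul_sum]
  refine Finset.sum_congr rfl fun w hw => ?_
  obtain ⟨hwZ, hwW, hcw⟩ := Finset.mem_filter.1 hw
  rw [tm_update Z c w hwZ hcw i, hX]
  beta_reduce
  rw [hH c hc w hwZ hcw hwW i hi, om_update Z _ c w hwZ hcw]
  have h3 : e2 W cls R (H (mp p2 c)) w (Sum.inr (i, true)) = H (mp p2 c) i w - 1 := by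
    unfold e2
    rw [Sum.elim_inr, if_pos ⟨hi, hwW⟩, if_pos rfl]
  rw [h3]
  push_cast
  ring

/-- THE COMBINATORICS OF LEVEL ZERO -/
theorem clz (Z : Finset V) (W : V → Prop) (cls : Λ → Fin Nc) (R : Finset (Fin Nc))
    (Ψ : (V → Option (Λ ⊕ Fin Nc)) → ℝ) (H : (V → Option (Λ ⊕ Fin Nc)) → Fin Nc → V → ℝ)
    (hH : ∀ c ∈ Cf Z (Λ ⊕ (Fin Nc × Bool)), ∀ w ∈ Z, c w = none → W w → ∀ i ∈ R,
      H (mp p2 (Function.update c w (some (Sum.inr (i, true))))) = H (mp p2 c))
    (a : (V → Option (Λ ⊕ Fin Nc)) → V → Λ → ℝ)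
    (ha : ∀ c v, ∀ i ∈ R, W v →
      ∑ x ∈ Finset.univ.filter (fun x => cls x = i), a c v x = H c i v)
    (hk : ∀ i ∈ R, (Finset.univ.filter (fun x => cls x = i)).card ≠ 0) :
    ∑ f ∈ Cf Z Λ, Ψ (mpv (p1 W cls R) f) * om Z (fun v x => if cls x ∈ R ∧ W v then
      a (mpv (p1 W cls R) f) v x else 1) f ≤
    ∑ f ∈ Cf Z Λ, Ψ (mpv (p1 W cls R) f) * om Z (fun v x => if cls x ∈ R ∧ W v then
      1 / ((Finset.univ.filter (fun y => cls y = cls x)).card : ℝ) else 1) f +
    ∑ i ∈ R, ∑ c ∈ Cf Z (Λ ⊕ (Fin Nc × Bool)), |om Z (e2 W cls R (H (mp p2 c))) c| *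
      |∑ w ∈ Z.filter (fun v => W v ∧ c v = none),
        Ψ (mp p2 (Function.update c w (some (Sum.inr (i, true))))) * (H (mp p2 c) i w - 1)| := by
  have h1 : ∑ f ∈ Cf Z Λ, Ψ (mpv (p1 W cls R) f) * om Z (fun v x => if cls x ∈ R ∧ W v then
      a (mpv (p1 W cls R) f) v x else 1) f =
      ∑ c ∈ Cf Z (Λ ⊕ Fin Nc), Ψ c * om Z (e1 W cls R (H c)) c := by
    refine (cf_fibv Z (p1 W cls R) Ψ (fun c v x => if cls x ∈ R ∧ W v then a c v x else 1)).trans
      (Finset.sum_congr rfl fun c _ => congrArg (fun t => Ψ c * om Z t c)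
        (funext fun v => funext fun y => ?_))
    convert p1_sum W cls R (H c) (a c) v (ha c v) y
  have h2 : ∑ f ∈ Cf Z Λ, Ψ (mpv (p1 W cls R) f) * om Z (fun v x => if cls x ∈ R ∧ W v then
      1 / ((Finset.univ.filter (fun y => cls y = cls x)).card : ℝ) else 1) f =
      ∑ c ∈ Cf Z (Λ ⊕ Fin Nc), Ψ c * om Z (e1 W cls R (fun _ _ => 1)) c := by
    refine (cf_fibv Z (p1 W cls R) Ψ (fun _ v x => if cls x ∈ R ∧ W v then
      1 / ((Finset.univ.filter (fun y => cls y = cls x)).card : ℝ) else 1)).trans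
      (Finset.sum_congr rfl fun c _ => congrArg (fun t => Ψ c * om Z t c)
        (funext fun v => funext fun y => ?_))
    convert p1_sum W cls R (fun _ _ => 1)
      (fun _ x => 1 / ((Finset.univ.filter (fun y => cls y = cls x)).card : ℝ)) v
      (fun i hi _ => by
        have h5 : ∀ x ∈ Finset.univ.filter (fun x => cls x = i),
            1 / ((Finset.univ.filter (fun y => cls y = cls x)).card : ℝ) =
            1 / ((Finset.univ.filter (fun y => cls y = i)).card : ℝ) := by
          intro x hx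
          rw [(Finset.mem_filter.1 hx).2]
        rw [Finset.sum_congr rfl h5, Finset.sum_const, nsmul_eq_mul, mul_one_div,
          div_self (Nat.cast_ne_zero.2 (hk i hi))]) y
  have h3 : ∑ c ∈ Cf Z (Λ ⊕ (Fin Nc × Bool)), Ψ (mp p2 c) * om Z (e2 W cls R (H (mp p2 c))) c =
      ∑ c ∈ Cf Z (Λ ⊕ Fin Nc), Ψ c * om Z (e1 W cls R (H c)) c := by
    refine (cf_fib Z (p2 : Λ ⊕ (Fin Nc × Bool) → Λ ⊕ Fin Nc) Ψ
      (fun c => e2 W cls R (H c))).trans
      (Finset.sum_congr rfl fun c _ => congrArg (fun t => Ψ c * om Z t c)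
        (funext fun v => funext fun y => ?_))
    convert e2_sum W cls R (H c) v y
  have h4 : ∑ c ∈ Cf Z (Λ ⊕ (Fin Nc × Bool)), Ψ (mp p2 c) * om Z (e0 W cls R) c =
      ∑ c ∈ Cf Z (Λ ⊕ Fin Nc), Ψ c * om Z (e1 W cls R (fun _ _ => 1)) c := by
    refine (cf_fib Z (p2 : Λ ⊕ (Fin Nc × Bool) → Λ ⊕ Fin Nc) Ψ
      (fun _ => e0 W cls R)).trans
      (Finset.sum_congr rfl fun c _ => congrArg (fun t => Ψ c * om Z t c)
        (funext fun v => funext fun y => ?_))
    convert e0_sum W cls R v y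
  rw [h1, ← h3, h2, ← h4, ← sub_le_iff_le_add']
  have h5 : ∑ c ∈ Cf Z (Λ ⊕ (Fin Nc × Bool)), Ψ (mp p2 c) * om Z (e2 W cls R (H (mp p2 c))) c -
      ∑ c ∈ Cf Z (Λ ⊕ (Fin Nc × Bool)), Ψ (mp p2 c) * om Z (e0 W cls R) c =
      ∑ c ∈ Cf Z (Λ ⊕ (Fin Nc × Bool)), (if tm Z c = 0 then 0 else
        Ψ (mp p2 c) * om Z (e2 W cls R (H (mp p2 c))) c) := by
    rw [← Finset.sum_sub_distrib]
    refine Finset.sum_congr rfl fun c _ => ?_
    have h6 := om_e0 Z W cls R (H (mp p2 c)) c
    split_ifs with ht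
    · rw [if_pos ht, add_zero] at h6
      rw [h6, sub_self]
    · rw [if_neg ht] at h6
      have h7 : om Z (e0 W cls R) c = 0 := by linarith
      rw [h7, mul_zero, sub_zero]
  rw [h5, mark_sum Z W cls R Ψ H hH]
  refine Finset.sum_le_sum fun i _ => Finset.sum_le_sum fun c _ => ?_
  refine (le_abs_self _).trans ?_
  rw [abs_mul]
  refine mul_le_mul_of_nonneg_right ?_ (abs_nonneg _)
  rw [abs_div]
  have h6 : (1 : ℝ) ≤ |(tm Z c : ℝ) + 1| := by
    rw [abs_of_nonneg (by positivity)]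
    have : (0 : ℝ) ≤ tm Z c := Nat.cast_nonneg _
    linarith
  exact div_le_self (abs_nonneg _) h6

end H93.UB
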