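import Pool.Agent.H93.UB.Lg
import Pool.Agent.H93.UB.Clz
import Pool.Agent.H35.UB.Nkl
import Pool.Agent.H35.CF.Cnt

/-!
# [H93 UB LZH] level zero: the honest reductions and the class functions

* `HB θ`: the homomorphism `θ` of the words to `P ⧸ N` comes from an honest surjective homomorphism `phi θ` (unramified outside `S0`, `E`, `Zw`). `hs_iff`: `Hs` in terms of `HB`.
* `hq g q = Gd N 0 g x` for `x` over `q`, `hcl i q` the sum over the class `i`: a class function with mean one.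
-/

set_option autoImplicit false

open scoped NumberField Classical
open IsDedekindDomain H63.MA H38.BB H38.BG H57.PC H57.BRA H77.WD H77.WE H77.PC3 H57.AN H35.UB H35.CF
  Filter

noncomputable section

namespace H93.UB

section hcl

variable {P : Type} [Group P] [Fintype P] {p Nc : ℕ}

/-- the weight as a function on the quotient -/
def hq (N : Subgroup P) (g : P) (q : P ⧸ N) : ℝ := Gd N 0 g q.out

omit [Fintype P] in
theorem hq_mk [Finite P] (N : Subgroup P) [N.Normal] (g x : P) :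
    hq N g (x : P ⧸ N) = Gd N 0 g x := by
  unfold hq
  have h1 : ((x : P ⧸ N).out : P ⧸ N) = x := Quotient.out_eq' _
  have h2 : x⁻¹ * (x : P ⧸ N).out ∈ N := QuotientGroup.eq.1 h1.symm
  have h3 : (x : P ⧸ N).out = x * (x⁻¹ * (x : P ⧸ N).out) := by group
  rw [h3]
  exact gd_inv N 0 g x _ h2

/-- the sum over the class -/
def hcl (c : CL p Nc P) (N : Subgroup P) (i : Fin Nc) (q : P ⧸ N) : ℝ :=
  ∑ x ∈ Finset.univ.filter (fun x : Px c => cid x = i), hq N x.1 q

theorem hcl_nonneg (c : CL p Nc P) (N : Subgroup P) (i : Fin Nc) (q : P ⧸ N) :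
    0 ≤ hcl c N i q := Finset.sum_nonneg fun _ _ => gd_nonneg N 0 _ _

theorem hcl_le (c : CL p Nc P) (N : Subgroup P) (i : Fin Nc) (q : P ⧸ N) :
    hcl c N i q ≤ Fintype.card P := by
  unfold hcl
  refine (Finset.sum_le_sum fun x _ => gd_le_one N 0 _ _).trans ?_
  rw [Finset.sum_const, nsmul_eq_mul, mul_one]
  refine Nat.cast_le.2 (le_trans (Finset.card_le_univ _) ?_)
  exact Fintype.card_le_of_injective _ Subtype.val_injective

theorem hcl_cl (c : CL p Nc P) (N : Subgroup P) [N.Normal] (i : Fin Nc) (y z : P ⧸ N) :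
    hcl c N i (z * y * z⁻¹) = hcl c N i y := by
  obtain ⟨y, rfl⟩ := QuotientGroup.mk_surjective y
  obtain ⟨z, rfl⟩ := QuotientGroup.mk_surjective z
  unfold hcl
  have h1 : ∀ x : Px c, (∃ i, IsConj (z⁻¹ * x.1 * z) (c.g i)) := by
    intro x
    obtain ⟨i, hi⟩ := x.2
    refine ⟨i, IsConj.trans ?_ hi⟩
    rw [isConj_iff]
    exact ⟨z, by group⟩
  have h2 : ∀ x : Px c, (∃ i, IsConj (z * x.1 * z⁻¹) (c.g i)) := by
    intro x
    obtain ⟨i, hi⟩ := x.2
    refine ⟨i, IsConj.trans ?_ hi⟩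
    rw [isConj_iff]
    exact ⟨z⁻¹, by group⟩
  refine Finset.sum_nbij' (fun x : Px c => (⟨z⁻¹ * x.1 * z, h1 x⟩ : Px c))
    (fun x : Px c => (⟨z * x.1 * z⁻¹, h2 x⟩ : Px c)) ?_ ?_ ?_ ?_ ?_
  · intro x hx
    rw [Finset.mem_filter] at hx ⊢
    refine ⟨Finset.mem_univ _, ?_⟩
    rw [cid_iff]
    have h3 := (cid_iff x i).1 hx.2
    refine IsConj.trans ?_ h3
    rw [isConj_iff]
    exact ⟨z, by group⟩
  · intro x hx
    rw [Finset.mem_filter] at hx ⊢
    refine ⟨Finset.mem_univ _, ?_⟩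
    rw [cid_iff]
    have h3 := (cid_iff x i).1 hx.2
    refine IsConj.trans ?_ h3
    rw [isConj_iff]
    exact ⟨z⁻¹, by group⟩
  · intro x _
    apply Subtype.ext
    show z * (z⁻¹ * x.1 * z) * z⁻¹ = x.1
    group
  · intro x _
    apply Subtype.ext
    show z⁻¹ * (z * x.1 * z⁻¹) * z = x.1
    group
  · intro x _
    show hq N x.1 ((z : P ⧸ N) * (y : P ⧸ N) * (z : P ⧸ N)⁻¹) = hq N (z⁻¹ * x.1 * z) (y : P ⧸ N)
    have h3 : ((z : P ⧸ N) * (y : P ⧸ N) * (z : P ⧸ N)⁻¹) = ((z * y * z⁻¹ : P) : P ⧸ N) := rfl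
    rw [h3, hq_mk, hq_mk, ← gd_conj N 0 z (z⁻¹ * x.1 * z) y]
    congr 1
    group

theorem hcl_mean (c : CL p Nc P) (N : Subgroup P) [N.Normal] (i : Fin Nc) :
    (Fintype.card (P ⧸ N) : ℝ)⁻¹ * ∑ q : P ⧸ N, hcl c N i q = 1 := by
  have h1 : ∑ x : P, hcl c N i (x : P ⧸ N) = (Nat.card P : ℝ) := by
    rw [← gd_mean (c := c) N i]
    refine Finset.sum_congr rfl fun x _ => ?_
    unfold hcl
    exact Finset.sum_congr rfl fun g _ => hq_mk N g.1 x
  have h2 : ∑ x : P, hcl c N i (x : P ⧸ N) =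
      (Nat.card N : ℝ) * ∑ q : P ⧸ N, hcl c N i q := by
    rw [← Finset.sum_fiberwise_of_maps_to (s := (Finset.univ : Finset P))
      (t := (Finset.univ : Finset (P ⧸ N))) (g := fun x => (x : P ⧸ N))
      (fun _ _ => Finset.mem_univ _), Finset.mul_sum]
    refine Finset.sum_congr rfl fun q _ => ?_
    have h3 : ∑ x ∈ Finset.univ.filter (fun x : P => (x : P ⧸ N) = q), hcl c N i (x : P ⧸ N) =
        ((Finset.univ.filter (fun x : P => (x : P ⧸ N) = q)).card : ℝ) * hcl c N i q := by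
      rw [← nsmul_eq_mul, ← Finset.sum_const]
      refine Finset.sum_congr rfl fun x hx => ?_
      rw [(Finset.mem_filter.1 hx).2]
    rw [h3]
    congr 2
    obtain ⟨y, rfl⟩ := QuotientGroup.mk_surjective q
    rw [Nat.card_eq_fintype_card, ← Finset.card_univ]
    refine Finset.card_nbij' (fun x => if h : y⁻¹ * x ∈ N then (⟨y⁻¹ * x, h⟩ : N) else 1)
      (fun n : N => y * n) ?_ ?_ ?_ ?_
    · intro x _
      exact Finset.mem_coe.2 (Finset.mem_univ _)
    · intro n _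
      simp only [Finset.coe_filter, Finset.mem_univ, true_and, Set.mem_ofPred_eq]
      rw [QuotientGroup.mk_mul, (QuotientGroup.eq_one_iff (n : P)).2 n.2, mul_one]
    · intro x hx
      simp only [Finset.coe_filter, Finset.mem_univ, true_and, Set.mem_ofPred_eq] at hx
      have h4 : y⁻¹ * x ∈ N := QuotientGroup.eq.1 hx.symm
      simp only [dif_pos h4]
      group
    · intro n _
      have h4 : y⁻¹ * (y * (n : P)) ∈ N := by
        rw [inv_mul_cancel_left]
        exact n.2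
      apply Subtype.ext
      simp only [dif_pos h4]
      group
  rw [h2] at h1
  have h3 : (Nat.card N : ℝ) * (Fintype.card (P ⧸ N) : ℝ) = Nat.card P := by
    rw [← Nat.card_eq_fintype_card]
    have := Subgroup.card_eq_card_quotient_mul_card_subgroup N
    rw [this]
    push_cast
    ring
  have h4 : (0 : ℝ) < Nat.card N := by exact_mod_cast Nat.card_pos
  have h5 : (0 : ℝ) < Fintype.card (P ⧸ N) := by exact_mod_cast Fintype.card_pos
  have h6 : ∑ q : P ⧸ N, hcl c N i q = Fintype.card (P ⧸ N) := by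
    have h7 : (Nat.card N : ℝ) * ∑ q : P ⧸ N, hcl c N i q =
        (Nat.card N : ℝ) * (Fintype.card (P ⧸ N) : ℝ) := by rw [h1, h3]
    exact mul_left_cancel₀ h4.ne' h7
  rw [h6, inv_mul_cancel₀ h5.ne']

end hcl

section red

variable {K : Type} [Field K] [NumberField K] {Ω : Type} [Field Ω] [Algebra K Ω]
  {p : ℕ} {ζ : K} {D : RD0 K p ζ} {P : Type} [Group P] {Λ Λ' : Type}

/-- the evaluation modulo `N` -/
def tb (A : GS D Ω) (N : Subgroup P) [N.Normal] (E : Finset (Pl K)) (e : Pl K → P) (val : Λ → P)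
    (f : Pl K → Option Λ) (α : Fin A.g → P) : FW A →* P ⧸ N :=
  (QuotientGroup.mk' N).comp (ev A (lab E e val f) α)

theorem tb_inl (A : GS D Ω) (N : Subgroup P) [N.Normal] (E : Finset (Pl K)) (e : Pl K → P)
    (val : Λ → P) (f : Pl K → Option Λ) (α : Fin A.g → P) (v : Pl K) :
    tb A N E e val f α (FreeGroup.of (Sum.inl v)) = ((lab E e val f v : P) : P ⧸ N) := by
  unfold tb ev
  rw [MonoidHom.comp_apply, FreeGroup.lift_apply_of]
  rfl

theorem tb_congr (A : GS D Ω) (N : Subgroup P) [N.Normal] (E : Finset (Pl K)) (e : Pl K → P)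
    (val : Λ → P) (val' : Λ' → P) (f : Pl K → Option Λ) (f' : Pl K → Option Λ')
    (α : Fin A.g → P) (h : ∀ v, v ∉ E →
      (((f v).elim 1 val : P) : P ⧸ N) = (((f' v).elim 1 val' : P) : P ⧸ N)) :
    tb A N E e val f α = tb A N E e val' f' α := by
  refine FreeGroup.ext_hom _ _ fun x => ?_
  rcases x with v | i
  · rw [tb_inl, tb_inl]
    unfold lab
    split_ifs with hv
    · rfl
    · exact h v hv
  · unfold tb ev
    rw [MonoidHom.comp_apply, MonoidHom.comp_apply, FreeGroup.lift_apply_of,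
      FreeGroup.lift_apply_of]
    rfl

/-- the homomorphism of the words comes from an honest surjective homomorphism -/
def HB (L : LDs D Ω) (A : GS D Ω) (N : Subgroup P) [N.Normal] (E Zw : Finset (Pl K))
    (θ : FW A →* P ⧸ N) : Prop :=
  ∃ φ : Gal(Ω/K) →* P ⧸ N, HonE L E Zw φ ∧ Function.Surjective φ ∧ hat L A φ = θ

/-- the honest homomorphism -/
def phi (L : LDs D Ω) (A : GS D Ω) (N : Subgroup P) [N.Normal] (E Zw : Finset (Pl K))
    (θ : FW A →* P ⧸ N) : Gal(Ω/K) →* P ⧸ N := if h : HB L A N E Zw θ then h.choose else 1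

theorem phi_spec {L : LDs D Ω} {A : GS D Ω} {N : Subgroup P} [N.Normal] {E Zw : Finset (Pl K)}
    {θ : FW A →* P ⧸ N} (h : HB L A N E Zw θ) : HonE L E Zw (phi L A N E Zw θ) ∧
      Function.Surjective (phi L A N E Zw θ) ∧ hat L A (phi L A N E Zw θ) = θ := by
  unfold phi
  rw [dif_pos h]
  exact h.choose_spec

theorem zg_sub (D : RD0 K p ζ) (Zw E : Finset (Pl K)) : Zg D Zw E ⊆ Zw := by
  intro v hv
  unfold Zg at hv
  exact (Finset.mem_sdiff.1 (Finset.mem_filter.1 hv).1).1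

variable [Fintype Λ]

theorem hon_sp {L : LDs D Ω} {A : GS D Ω} {N : Subgroup P} [N.Normal] {E Zw : Finset (Pl K)}
    (e : Pl K → P) (val : Λ → P) {f : Pl K → Option Λ} (hf : f ∈ Cf (Zg D Zw E) Λ)
    (α : Fin A.g → P) {φ : Gal(Ω/K) →* P ⧸ N} (h : HonE L E Zw φ)
    (hh : hat L A φ = tb A N E e val f α) : HonE L E (sp (Zg D Zw E) f) φ := by
  refine ⟨h.1, fun v hv hE => ⟨(h.2 v hv hE).1, fun hz => ?_⟩⟩
  have h1 : φ (L.t v) = tb A N E e val f α (FreeGroup.of (Sum.inl v)) := by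
    rw [← hh, hat_inl]
  rw [h1, tb_inl]
  unfold lab
  rw [if_neg hE]
  have h2 : f v = none := by
    by_contra h3
    by_cases hvZ : v ∈ Zg D Zw E
    · exact hz (mem_sp.2 ⟨hvZ, h3⟩)
    · exact h3 (mem_cf.1 hf v hvZ)
  rw [h2]
  rfl

theorem hs_iff {L : LDs D Ω} {A : GS D Ω} {N : Subgroup P} [N.Normal] {E Zw : Finset (Pl K)}
    (e : Pl K → P) (val : Λ → P) {f : Pl K → Option Λ} (hf : f ∈ Cf (Zg D Zw E) Λ)
    (α : Fin A.g → P) : Hs L A E N (sp (Zg D Zw E) f) (ev A (lab E e val f) α) ↔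
      HB L A N E Zw (tb A N E e val f α) := by
  constructor
  · rintro ⟨φ, h1, h2, h3⟩
    refine ⟨φ, h1.mono (Finset.Subset.refl _) ?_, h2, h3⟩
    exact (Finset.filter_subset _ _).trans (zg_sub D Zw E)
  · rintro ⟨φ, h1, h2, h3⟩
    exact ⟨φ, hon_sp e val hf α h1 h3, h2, h3⟩

end red

end H93.UB
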