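import Mathlib

/-!
# All classes, upper bound: the iterated commutators of the labels span the layers

`N` is generated by the conjugation stable set `S`, `F 1 = N`, `F (i + 1) = ⁅N, F i⁆`. `brl [s_1, .., s_d] = ⁅s_1, ⁅s_2, .. s_d⁆⁆`. `spn`: `F d` is
generated by `F (d + 1)` and the `brl l`, `l` a list of `d` elements of `S`. `spn_hom`: a homomorphism `F d → A` which kills `F (d + 1)` and all `brl l` is trivial.
-/

set_option autoImplicit false

open scoped commutatorElement

noncomputable section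

namespace H93.UB

variable {P : Type} [Group P]

/-- right normed iterated commutators -/
def brl : List P → P
  | [] => 1
  | [s] => s
  | s :: t :: l => ⁅s, brl (t :: l)⁆

theorem brl_cons {s : P} {l : List P} (hl : l ≠ []) : brl (s :: l) = ⁅s, brl l⁆ := by
  cases l with
  | nil => exact absurd rfl hl
  | cons t l => rfl

theorem brl_conj (u : P) (l : List P) : brl (l.map fun s => u * s * u⁻¹) = u * brl l * u⁻¹ := by
  induction l with
  | nil => simp [brl]
  | cons s l ih =>
    cases l with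
    | nil => simp [brl]
    | cons t l =>
      have h1 : brl (s :: t :: l) = ⁅s, brl (t :: l)⁆ := rfl
      rw [List.map_cons, brl_cons (by rw [List.map_cons]; exact List.cons_ne_nil _ _), ih, h1]
      simp only [commutatorElement_def]
      group

section

variable {N : Subgroup P} {S : Set P} {F : ℕ → Subgroup P}

theorem flt_norm (hN : N.Normal) (h1 : F 1 = N) (hF : ∀ i, 1 ≤ i → F (i + 1) = ⁅N, F i⁆) (i : ℕ)
    (hi : 1 ≤ i) : (F i).Normal := by
  induction i, hi using Nat.le_induction with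
  | base => rw [h1]; exact hN
  | succ i hi ih =>
    rw [hF i hi]
    exact Subgroup.commutator_normal N (F i)

theorem flt_le (hN : N.Normal) (h1 : F 1 = N) (hF : ∀ i, 1 ≤ i → F (i + 1) = ⁅N, F i⁆) (i : ℕ)
    (hi : 1 ≤ i) : F (i + 1) ≤ F i := by
  have := flt_norm hN h1 hF i hi
  rw [hF i hi]
  exact Subgroup.commutator_le_right N (F i)

theorem brl_mem (hSN : ∀ s ∈ S, s ∈ N) (h1 : F 1 = N)
    (hF : ∀ i, 1 ≤ i → F (i + 1) = ⁅N, F i⁆) (l : List P) (hl : l ≠ []) (hS : ∀ s ∈ l, s ∈ S) :
    brl l ∈ F l.length := by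
  induction l with
  | nil => exact absurd rfl hl
  | cons s l ih =>
    cases l with
    | nil =>
      show s ∈ F 1
      rw [h1]
      exact hSN s (hS s (by simp))
    | cons t l =>
      rw [brl_cons (by simp), List.length_cons, hF _ (by simp)]
      exact Subgroup.commutator_mem_commutator (hSN s (hS s (by simp)))
        (ih (by simp) fun s' hs' => hS s' (List.mem_cons_of_mem _ hs'))

/-- the iterated commutators of `S` generate the layers -/
theorem spn (hN : N.Normal) (hS : Subgroup.closure S = N) (h1 : F 1 = N)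
    (hF : ∀ i, 1 ≤ i → F (i + 1) = ⁅N, F i⁆) (d : ℕ) (hd : 1 ≤ d) :
    F d ≤ Subgroup.closure {x | ∃ l : List P, l.length = d ∧ (∀ s ∈ l, s ∈ S) ∧ x = brl l} ⊔
      F (d + 1) := by
  have hSN : ∀ s ∈ S, s ∈ N := fun s hs => by
    rw [← hS]
    exact Subgroup.subset_closure hs
  induction d, hd using Nat.le_induction with
  | base =>
    rw [h1, ← hS, Subgroup.closure_le]
    intro s hs
    refine Subgroup.mem_sup_left (Subgroup.subset_closure ⟨[s], rfl, ?_, rfl⟩)
    intro t ht
    rw [List.mem_singleton] at ht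
    rw [ht]
    exact hs
  | succ d hd ih =>
    obtain ⟨H, hH⟩ : ∃ H : Subgroup P, H = Subgroup.closure {x | ∃ l : List P,
      l.length = d + 1 ∧ (∀ s ∈ l, s ∈ S) ∧ x = brl l} ⊔ F (d + 1 + 1) := ⟨_, rfl⟩
    rw [← hH]
    have hle : F (d + 1 + 1) ≤ H := by
      rw [hH]
      exact le_sup_right
    have hn1 : (F (d + 1)).Normal := flt_norm hN h1 hF _ (by omega)
    have hn0 : (F d).Normal := flt_norm hN h1 hF _ hd
    have hn2 : (F (d + 1 + 1)).Normal := flt_norm hN h1 hF _ (by omega)
    have hc : ∀ x ∈ N, ∀ y ∈ F (d + 1), ⁅x, y⁆ ∈ H := fun x hx y hy => hle (by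
      rw [hF (d + 1) (by omega)]
      exact Subgroup.commutator_mem_commutator hx hy)
    have hdN : ∀ y ∈ F d, y ∈ N := by
      intro y hy
      have h5 : ∀ i, 1 ≤ i → F i ≤ N := by
        intro i hi
        induction i, hi using Nat.le_induction with
        | base => exact h1.le
        | succ i hi ih' => exact (flt_le hN h1 hF i hi).trans ih'
      exact h5 d hd hy
    have hcm : ∀ x ∈ N, ∀ y ∈ F d, ⁅x, y⁆ ∈ F (d + 1) := fun x hx y hy => by
      rw [hF d hd]
      exact Subgroup.commutator_mem_commutator hx hy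
    -- for fixed `s ∈ N` the `y ∈ F d` with `⁅s, y⁆ ∈ H` are a subgroup
    have key1 : ∀ s ∈ S, ∀ y ∈ F d, ⁅s, y⁆ ∈ H := by
      intro s hs y hy
      have hsN := hSN s hs
      have h3 := ih hy
      rw [Subgroup.mem_sup_of_normal_right] at h3
      obtain ⟨a, ha, b, hb, rfl⟩ := h3
      have hb' : b ∈ F d := flt_le hN h1 hF d hd hb
      have ha' : a ∈ F d ∧ ⁅s, a⁆ ∈ H := by
        clear hy
        induction ha using Subgroup.closure_induction with
        | mem x hx =>
          obtain ⟨l, hl, hlS, rfl⟩ := hx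
          have hne : l ≠ [] := by
            rintro rfl
            rw [List.length_nil] at hl
            omega
          have h4 := brl_mem hSN h1 hF l hne hlS
          rw [hl] at h4
          refine ⟨h4, ?_⟩
          rw [← brl_cons hne, hH]
          refine Subgroup.mem_sup_left (Subgroup.subset_closure ⟨s :: l, ?_, ?_, rfl⟩)
          · rw [List.length_cons, hl]
          · intro t ht
            rcases List.mem_cons.1 ht with rfl | ht
            · exact hs
            · exact hlS t ht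
        | one => exact ⟨one_mem _, by rw [commutatorElement_one_right]; exact one_mem _⟩
        | mul x z _ _ h4 h5 =>
          refine ⟨mul_mem h4.1 h5.1, ?_⟩
          have e : ⁅s, x * z⁆ = ⁅s, x⁆ * (⁅x, ⁅s, z⁆⁆ * ⁅s, z⁆) := by
            simp only [commutatorElement_def]
            group
          rw [e]
          exact mul_mem h4.2 (mul_mem (hc x (hdN x h4.1) _ (hcm s hsN z h5.1)) h5.2)
        | inv x _ h4 =>
          refine ⟨inv_mem h4.1, ?_⟩
          have e : ⁅s, x⁻¹⁆ = ⁅x⁻¹, ⁅s, x⁆⁻¹⁆ * ⁅s, x⁆⁻¹ := by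
            simp only [commutatorElement_def]
            group
          rw [e]
          exact mul_mem (hc _ (inv_mem (hdN x h4.1)) _ (inv_mem (hcm s hsN x h4.1)))
            (inv_mem h4.2)
      have e : ⁅s, a * b⁆ = ⁅s, a⁆ * (⁅a, ⁅s, b⁆⁆ * ⁅s, b⁆) := by
        simp only [commutatorElement_def]
        group
      rw [e]
      exact mul_mem ha'.2 (mul_mem (hc a (hdN a ha'.1) _ (hcm s hsN b hb')) (hc s hsN b hb))
    rw [hF d hd, Subgroup.commutator_le]
    intro x hx y hy
    rw [← hS] at hx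
    have h6 : x ∈ N ∧ ⁅x, y⁆ ∈ H := by
      induction hx using Subgroup.closure_induction with
      | mem x hx => exact ⟨hSN x hx, key1 x hx y hy⟩
      | one => exact ⟨one_mem _, by rw [commutatorElement_one_left]; exact one_mem _⟩
      | mul x z _ _ h4 h5 =>
        refine ⟨mul_mem h4.1 h5.1, ?_⟩
        have e : ⁅x * z, y⁆ = ⁅x, ⁅z, y⁆⁆ * ⁅z, y⁆ * ⁅x, y⁆ := by
          simp only [commutatorElement_def]
          group
        rw [e]
        exact mul_mem (mul_mem (hc x h4.1 _ (hcm z h5.1 y hy)) h5.2) h4.2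
      | inv x _ h4 =>
        refine ⟨inv_mem h4.1, ?_⟩
        have e : ⁅x⁻¹, y⁆ = ⁅x⁻¹, ⁅x, y⁆⁻¹⁆ * ⁅x, y⁆⁻¹ := by
          simp only [commutatorElement_def]
          group
        rw [e]
        exact mul_mem (hc _ (inv_mem h4.1) _ (inv_mem (hcm x h4.1 y hy))) (inv_mem h4.2)
    exact h6.2

/-- a homomorphism on a layer which kills the iterated commutators of `S` is trivial -/
theorem spn_hom (hN : N.Normal) (hS : Subgroup.closure S = N) (h1 : F 1 = N)
    (hF : ∀ i, 1 ≤ i → F (i + 1) = ⁅N, F i⁆) (d : ℕ) (hd : 1 ≤ d) {A : Type} [Group A]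
    (χ : F d →* A) (h0 : ∀ x : F d, (x : P) ∈ F (d + 1) → χ x = 1)
    (h : ∀ l : List P, ∀ hl : brl l ∈ F d, l.length = d → (∀ s ∈ l, s ∈ S) →
      χ ⟨brl l, hl⟩ = 1) : χ = 1 := by
  have hSN : ∀ s ∈ S, s ∈ N := fun s hs => by
    rw [← hS]
    exact Subgroup.subset_closure hs
  have hn1 : (F (d + 1)).Normal := flt_norm hN h1 hF _ (by omega)
  ext ⟨x, hx⟩
  have h3 := spn hN hS h1 hF d hd hx
  rw [Subgroup.mem_sup_of_normal_right] at h3
  obtain ⟨a, ha, b, hb, rfl⟩ := h3
  have hb' : b ∈ F d := flt_le hN h1 hF d hd hb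
  have ha' : a ∈ F d := by
    have h4 := mul_mem hx (inv_mem hb')
    rwa [mul_inv_cancel_right] at h4
  have key : ∀ a', a' ∈ Subgroup.closure {x | ∃ l : List P, l.length = d ∧ (∀ s ∈ l, s ∈ S) ∧
      x = brl l} → ∃ ha'' : a' ∈ F d, χ ⟨a', ha''⟩ = 1 := by
    intro a' h4
    induction h4 using Subgroup.closure_induction with
    | mem x hx =>
      obtain ⟨l, hl, hlS, rfl⟩ := hx
      have hne : l ≠ [] := by
        rintro rfl
        rw [List.length_nil] at hl
        omega
      have h4 := brl_mem hSN h1 hF l hne hlS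
      rw [hl] at h4
      exact ⟨h4, h l h4 hl hlS⟩
    | one => exact ⟨one_mem _, map_one χ⟩
    | mul x z _ _ h4 h5 =>
      obtain ⟨h6, h7⟩ := h4
      obtain ⟨h8, h9⟩ := h5
      refine ⟨mul_mem h6 h8, ?_⟩
      have e : χ ⟨x * z, mul_mem h6 h8⟩ = χ ⟨x, h6⟩ * χ ⟨z, h8⟩ := by
        rw [← map_mul]
        rfl
      rw [e, h7, h9, one_mul]
    | inv x _ h4 =>
      obtain ⟨h6, h7⟩ := h4
      refine ⟨inv_mem h6, ?_⟩
      have e : χ ⟨x⁻¹, inv_mem h6⟩ = (χ ⟨x, h6⟩)⁻¹ := by
        rw [← map_inv]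
        rfl
      rw [e, h7, inv_one]
  obtain ⟨_, h5⟩ := key a ha
  have e : χ ⟨a * b, hx⟩ = χ ⟨a, ha'⟩ * χ ⟨b, hb'⟩ := by
    rw [← map_mul]
    rfl
  show χ ⟨a * b, hx⟩ = 1
  rw [e, h5, h0 ⟨b, hb'⟩ hb, one_mul]

end

end H93.UB
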