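import Mathlib

/-!
# All classes, upper bound: the number of the assignments with unique full types

`κ` a finite set (the primes), `b v` the known part of the type of `v`, `χ v` the character. `Fl k b χ t x`: at least `k` of the `v` have `b v = t`, `χ v = x`.
`Un k b χ`: for every `t` at most one `x` is full. `cnt_un`: the number of these `χ` is at most `(|X| + 1) ^ |β| * (|κ| |X| + 1) ^ (k |β| |X|)`.
-/

set_option autoImplicit false

open scoped Classical

noncomputable section

namespace H93.UB

/-- the type `(t, x)` is full -/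
def Fl {κ β X : Type} [Fintype κ] (k : ℕ) (b : κ → β) (χ : κ → X) (t : β) (x : X) : Prop :=
  k ≤ (Finset.univ.filter fun v => b v = t ∧ χ v = x).card

/-- at most one full type for every `t` -/
def Un {κ β X : Type} [Fintype κ] (k : ℕ) (b : κ → β) (χ : κ → X) : Prop :=
  ∀ t x x', Fl k b χ t x → Fl k b χ t x' → x = x'

variable {κ β X : Type} [Fintype κ]

/-- the full character -/
private def fc (k : ℕ) (b : κ → β) (χ : κ → X) (t : β) : Option X :=
  if h : ∃ x, Fl k b χ t x then some h.choose else none

private theorem fc_full {k : ℕ} {b : κ → β} {χ : κ → X} (hu : Un k b χ) {t : β} {x : X}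
    (h : Fl k b χ t x) : fc k b χ t = some x := by
  have h1 : ∃ x, Fl k b χ t x := ⟨x, h⟩
  unfold fc
  rw [dif_pos h1]
  exact congrArg some (hu t _ _ h1.choose_spec h)

/-- the exceptions -/
private def ex (k : ℕ) (b : κ → β) (χ : κ → X) : Finset κ :=
  Finset.univ.filter fun v => fc k b χ (b v) ≠ some (χ v)

private theorem ex_card [Fintype β] [Fintype X] {k : ℕ} {b : κ → β} {χ : κ → X}
    (hu : Un k b χ) : (ex k b χ).card ≤ k * (Fintype.card β * Fintype.card X) := by
  have h1 : ex k b χ ⊆ (Finset.univ.filter fun t : β × X => ¬ Fl k b χ t.1 t.2).biUnion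
      fun t => Finset.univ.filter fun v => b v = t.1 ∧ χ v = t.2 := by
    intro v hv
    rw [ex, Finset.mem_filter] at hv
    rw [Finset.mem_biUnion]
    refine ⟨(b v, χ v), ?_, ?_⟩
    · rw [Finset.mem_filter]
      refine ⟨Finset.mem_univ _, fun h => hv.2 (fc_full hu h)⟩
    · rw [Finset.mem_filter]
      exact ⟨Finset.mem_univ _, rfl, rfl⟩
  refine (Finset.card_le_card h1).trans ((Finset.card_biUnion_le).trans ?_)
  have h2 : ∀ t ∈ Finset.univ.filter fun t : β × X => ¬ Fl k b χ t.1 t.2,
      (Finset.univ.filter fun v => b v = t.1 ∧ χ v = t.2).card ≤ k := by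
    intro t ht
    have h3 := (Finset.mem_filter.1 ht).2
    unfold Fl at h3
    omega
  refine (Finset.sum_le_card_nsmul _ _ k h2).trans ?_
  rw [smul_eq_mul, mul_comm, ← Fintype.card_prod]
  exact Nat.mul_le_mul_left _ (Finset.card_le_univ _)

/-- the code of a function -/
private def enc (k M : ℕ) (b : κ → β) (χ : κ → X) :
    (β → Option X) × (Fin M → Option (κ × X)) :=
  (fc k b χ, fun i => ((ex k b χ).toList[(i : ℕ)]?).map fun v => (v, χ v))

private theorem enc_mem {k M : ℕ} {b : κ → β} {χ : κ → X} (hM : (ex k b χ).card ≤ M) {v : κ}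
    (hv : v ∈ ex k b χ) : ∃ i : Fin M, (enc k M b χ).2 i = some (v, χ v) := by
  obtain ⟨n, hn, he⟩ := List.mem_iff_getElem.1 (Finset.mem_toList.2 hv)
  have hn' : n < M := by
    rw [Finset.length_toList] at hn
    omega
  refine ⟨⟨n, hn'⟩, ?_⟩
  show ((ex k b χ).toList[n]?).map (fun v => (v, χ v)) = some (v, χ v)
  rw [List.getElem?_eq_getElem hn, he]
  rfl

private theorem enc_val {k M : ℕ} {b : κ → β} {χ : κ → X} {i : Fin M} {v : κ} {x : X}
    (h : (enc k M b χ).2 i = some (v, x)) : χ v = x := by
  have h1 : ((ex k b χ).toList[(i : ℕ)]?).map (fun v => (v, χ v)) = some (v, x) := h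
  rw [Option.map_eq_some_iff] at h1
  obtain ⟨w, _, hw⟩ := h1
  have h2 : w = v := congrArg Prod.fst hw
  have h3 : χ w = x := congrArg Prod.snd hw
  rw [← h2]
  exact h3

theorem cnt_un [Fintype β] [Fintype X] (k : ℕ) (b : κ → β) :
    (Finset.univ.filter fun χ : κ → X => Un k b χ).card ≤
      (Fintype.card X + 1) ^ Fintype.card β *
        (Fintype.card κ * Fintype.card X + 1) ^ (k * (Fintype.card β * Fintype.card X)) := by
  obtain ⟨M, hM⟩ : ∃ M, M = k * (Fintype.card β * Fintype.card X) := ⟨_, rfl⟩
  have hcard : Fintype.card ((β → Option X) × (Fin M → Option (κ × X))) =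
      (Fintype.card X + 1) ^ Fintype.card β *
        (Fintype.card κ * Fintype.card X + 1) ^ (k * (Fintype.card β * Fintype.card X)) := by
    rw [Fintype.card_prod, Fintype.card_fun, Fintype.card_fun, Fintype.card_option,
      Fintype.card_option, Fintype.card_prod, Fintype.card_fin, hM]
  rw [← hcard, ← Finset.card_univ]
  refine Finset.card_le_card_of_injOn (enc k M b) (fun _ _ => Finset.mem_univ _) ?_
  intro χ hχ χ' hχ' h
  have hu : Un k b χ := (Finset.mem_filter.1 hχ).2
  have hu' : Un k b χ' := (Finset.mem_filter.1 hχ').2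
  have hc : (ex k b χ).card ≤ M := by
    rw [hM]
    exact ex_card hu
  have hc' : (ex k b χ').card ≤ M := by
    rw [hM]
    exact ex_card hu'
  have hf : fc k b χ = fc k b χ' := congrArg Prod.fst h
  funext v
  by_cases hv : v ∈ ex k b χ
  · obtain ⟨i, hi⟩ := enc_mem hc hv
    rw [h] at hi
    exact (enc_val hi).symm
  · by_cases hv' : v ∈ ex k b χ'
    · obtain ⟨i, hi⟩ := enc_mem hc' hv'
      rw [← h] at hi
      exact enc_val hi
    · have h1 : fc k b χ (b v) = some (χ v) := by
        by_contra hne
        exact hv (Finset.mem_filter.2 ⟨Finset.mem_univ _, hne⟩)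
      have h2 : fc k b χ' (b v) = some (χ' v) := by
        by_contra hne
        exact hv' (Finset.mem_filter.2 ⟨Finset.mem_univ _, hne⟩)
      rw [hf, h2] at h1
      exact (Option.some.inj h1).symm

end H93.UB
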