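import Pool.Agent.H35.CF.Defs

/-!
# [H93 UB FBV] the fibre lemma for changes of labels which depend on the place

`mpv π c v = (c v).map (π v)`. `cf_fibv`: sum over the configurations `c` grouped by `mpv π c` (as `cf_fib` in `H35/CF/Fib`).
-/

set_option autoImplicit false

open scoped Classical

noncomputable section

namespace H93.UB

open H35.CF

variable {V Λ Λ' : Type} [Fintype Λ] [Fintype Λ']

/-- change of labels, depending on the place -/
def mpv {V Λ Λ' : Type} (π : V → Λ → Λ') (c : V → Option Λ) : V → Option Λ' :=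
  fun v => (c v).map (π v)

private theorem cf_sum {R : Type} [CommSemiring R] (Z : Finset V) (T : V → Finset (Option Λ))
    (g : V → Option Λ → R) :
    ∑ c ∈ (Cf Z Λ).filter (fun c => ∀ v ∈ Z, c v ∈ T v), ∏ v ∈ Z, g v (c v) =
      ∏ v ∈ Z, ∑ o ∈ T v, g v o := by
  rw [← Finset.prod_coe_sort Z (fun v => ∑ o ∈ T v, g v o), Finset.prod_univ_sum]
  refine Finset.sum_nbij' (fun c => fun v : Z => c v)
    (fun f v => if h : v ∈ Z then f ⟨v, h⟩ else none) ?_ ?_ ?_ ?_ ?_
  · intro c hc
    rw [Finset.mem_filter] at hc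
    rw [Fintype.mem_piFinset]
    exact fun v => hc.2 v v.2
  · intro f hf
    rw [Fintype.mem_piFinset] at hf
    rw [Finset.mem_filter, mem_cf]
    refine ⟨fun v hv => dif_neg hv, fun v hv => ?_⟩
    beta_reduce
    rw [dif_pos hv]
    exact hf ⟨v, hv⟩
  · intro c hc
    rw [Finset.mem_filter, mem_cf] at hc
    funext v
    by_cases hv : v ∈ Z
    · simp only [dif_pos hv]
    · simp only [dif_neg hv]
      exact (hc.1 v hv).symm
  · intro f hf
    funext v
    simp only [Finset.coe_mem, dif_pos]
  · intro c hc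
    exact (Finset.prod_coe_sort Z (fun v => g v (c v))).symm

omit [Fintype Λ'] in
private theorem loc_sum {R : Type} [CommSemiring R] (π : Λ → Λ') (b : Λ → R) (o' : Option Λ') :
    ∑ o ∈ (Finset.univ : Finset (Option Λ)).filter (fun o => o.map π = o'), o.elim 1 b =
      o'.elim 1 (fun y => ∑ x ∈ Finset.univ.filter (fun x => π x = y), b x) := by
  rw [Finset.sum_filter, Fintype.sum_option]
  cases o' with
  | none => simp
  | some y => simp [Finset.sum_filter]

private theorem fib_one {R : Type} [CommSemiring R] (Z : Finset V) (π : V → Λ → Λ')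
    (b : V → Λ → R) (c' : V → Option Λ') (hc' : c' ∈ Cf Z Λ') :
    ∑ c ∈ (Cf Z Λ).filter (fun c => mpv π c = c'), om Z b c =
      om Z (fun v y => ∑ x ∈ Finset.univ.filter (fun x => π v x = y), b v x) c' := by
  have h1 : (Cf Z Λ).filter (fun c => mpv π c = c') = (Cf Z Λ).filter (fun c => ∀ v ∈ Z,
      c v ∈ (Finset.univ : Finset (Option Λ)).filter (fun o => o.map (π v) = c' v)) := by
    refine Finset.filter_congr fun c hc => ?_
    rw [mem_cf] at hc hc'
    constructor
    · rintro h v hv
      rw [Finset.mem_filter]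
      exact ⟨Finset.mem_univ _, congrFun h v⟩
    · intro h
      funext v
      by_cases hv : v ∈ Z
      · exact (Finset.mem_filter.1 (h v hv)).2
      · show (c v).map (π v) = c' v
        rw [hc v hv, hc' v hv]
        rfl
  rw [h1]
  refine (cf_sum Z _ (fun v o => o.elim 1 (b v))).trans ?_
  exact Finset.prod_congr rfl fun v _ => loc_sum (π v) (b v) (c' v)

theorem cf_fibv {R : Type} [CommSemiring R] (Z : Finset V) (π : V → Λ → Λ')
    (F : (V → Option Λ') → R) (a : (V → Option Λ') → V → Λ → R) :
    ∑ c ∈ Cf Z Λ, F (mpv π c) * om Z (a (mpv π c)) c =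
      ∑ c ∈ Cf Z Λ', F c * om Z
        (fun v y => ∑ x ∈ Finset.univ.filter (fun x => π v x = y), a c v x) c := by
  have hmap : ∀ c ∈ Cf Z Λ, mpv π c ∈ Cf Z Λ' := by
    intro c hc
    rw [mem_cf] at hc ⊢
    intro v hv
    show (c v).map (π v) = none
    rw [hc v hv]
    rfl
  rw [← Finset.sum_fiberwise_of_maps_to hmap]
  refine Finset.sum_congr rfl fun c' hc' => ?_
  rw [← fib_one Z π (a c') c' hc', Finset.mul_sum]
  refine Finset.sum_congr rfl fun c hc => ?_
  rw [(Finset.mem_filter.1 hc).2]

end H93.UB
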