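import Mathlib

/-!
# All classes, upper bound: the local weight at the last level

`P` a finite group, `N` normal, `c : ConjClasses P`. `wt N c x = |N|⁻¹ #{(g, n) : g ∈ c, n ∈ N, g (x n) = (x n) g}` (the number of the `N`-orbits on `c` which are fixed by
`x`). It is invariant under right translation by `N` and conjugation, between `0` and `|P|`, and its mean over `P` is `1`.
-/

set_option autoImplicit false

open scoped Classical

noncomputable section

namespace H93.UB

variable {P : Type} [Group P] [Fintype P] (N : Subgroup P) (c : ConjClasses P)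

/-- the local weight -/
def wt (x : P) : ℝ :=
  (∑ n : N, ((Finset.univ.filter fun g : P => g ∈ c.carrier ∧ Commute g (x * n)).card : ℝ)) /
    Fintype.card N

theorem wt_nonneg (x : P) : 0 ≤ wt N c x := by
  unfold wt
  positivity

theorem wt_le (x : P) : wt N c x ≤ Fintype.card P := by
  unfold wt
  have h0 : (0 : ℝ) < Fintype.card N := by exact_mod_cast Fintype.card_pos
  rw [div_le_iff₀ h0]
  have h1 : ∀ n ∈ (Finset.univ : Finset N),
      ((Finset.univ.filter fun g : P => g ∈ c.carrier ∧ Commute g (x * n)).card : ℝ) ≤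
        Fintype.card P := by
    intro n _
    exact_mod_cast Finset.card_le_univ _
  refine (Finset.sum_le_card_nsmul _ _ _ h1).trans ?_
  rw [nsmul_eq_mul, Finset.card_univ, mul_comm]

theorem wt_mul (x : P) (n : P) (hn : n ∈ N) : wt N c (x * n) = wt N c x := by
  unfold wt
  congr 1
  refine Fintype.sum_equiv (Equiv.mulLeft (⟨n, hn⟩ : N)) _ _ fun m => ?_
  rw [Equiv.coe_mulLeft, Subgroup.coe_mul, mul_assoc]

theorem wt_conj [hN : N.Normal] (u x : P) : wt N c (u * x * u⁻¹) = wt N c x := by
  unfold wt
  congr 1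
  obtain ⟨e, he⟩ : ∃ e : N ≃ N, ∀ n, ((e n : N) : P) = u⁻¹ * n * u := by
    refine ⟨(MulAut.conjNormal u⁻¹ : MulAut N).toEquiv, fun n => ?_⟩
    show ((MulAut.conjNormal u⁻¹ n : N) : P) = _
    rw [MulAut.conjNormal_apply, inv_inv]
  refine Fintype.sum_equiv e _ _ fun n => ?_
  congr 1
  refine Finset.card_bij (fun g _ => u⁻¹ * g * u) ?_ ?_ ?_
  · intro g hg
    rw [Finset.mem_filter] at hg ⊢
    refine ⟨Finset.mem_univ _, ?_, ?_⟩
    · rw [ConjClasses.mem_carrier_iff_mk_eq] at hg ⊢
      rw [← hg.2.1, ConjClasses.mk_eq_mk_iff_isConj]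
      refine isConj_iff.2 ⟨u, ?_⟩
      group
    · have h1 : g * (u * x * u⁻¹ * n) = u * x * u⁻¹ * n * g := hg.2.2
      rw [he]
      show u⁻¹ * g * u * (x * (u⁻¹ * n * u)) = x * (u⁻¹ * n * u) * (u⁻¹ * g * u)
      have h2 : u⁻¹ * g * u * (x * (u⁻¹ * n * u)) = u⁻¹ * (g * (u * x * u⁻¹ * n)) * u := by
        group
      rw [h2, h1]
      group
  · intro g _ g' _ h
    have h1 : u⁻¹ * g * u = u⁻¹ * g' * u := h
    exact mul_left_cancel (mul_right_cancel h1)
  · intro g hg
    rw [Finset.mem_filter] at hg
    refine ⟨u * g * u⁻¹, ?_, by group⟩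
    rw [Finset.mem_filter]
    refine ⟨Finset.mem_univ _, ?_, ?_⟩
    · have h0 := hg.2.1
      rw [ConjClasses.mem_carrier_iff_mk_eq] at h0 ⊢
      rw [← h0, ConjClasses.mk_eq_mk_iff_isConj]
      refine isConj_iff.2 ⟨u⁻¹, ?_⟩
      group
    · have h1 : g * (x * (e n : N)) = x * (e n : N) * g := hg.2.2
      rw [he] at h1
      show u * g * u⁻¹ * (u * x * u⁻¹ * n) = u * x * u⁻¹ * n * (u * g * u⁻¹)
      have h2 : u * g * u⁻¹ * (u * x * u⁻¹ * n) = u * (g * (x * (u⁻¹ * n * u))) * u⁻¹ := by
        group
      rw [h2, h1]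
      group

/-- orbit and stabiliser -/
theorem cls_cent (g : P) : (Finset.univ.filter fun h : P => IsConj g h).card *
    (Finset.univ.filter fun y : P => Commute g y).card = Fintype.card P := by
  have h1 := MulAction.card_orbit_mul_card_stabilizer_eq_card_group (ConjAct P) g
  have h2 : Fintype.card (MulAction.orbit (ConjAct P) g) =
      (Finset.univ.filter fun h : P => IsConj g h).card := by
    rw [← Set.toFinset_card]
    congr 1
    ext h
    rw [Set.mem_toFinset, Finset.mem_filter, ConjAct.mem_orbit_conjAct]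
    exact ⟨fun h3 => ⟨Finset.mem_univ _, h3.symm⟩, fun h3 => h3.2.symm⟩
  have h3 : Fintype.card (MulAction.stabilizer (ConjAct P) g) =
      (Finset.univ.filter fun y : P => Commute g y).card := by
    rw [Fintype.card_subtype]
    refine Finset.card_bij (fun y _ => ConjAct.ofConjAct y) ?_ ?_ ?_
    · intro y hy
      rw [Finset.mem_filter] at hy ⊢
      refine ⟨Finset.mem_univ _, ?_⟩
      have h4 : y • g = g := hy.2
      rw [ConjAct.smul_def] at h4
      show g * ConjAct.ofConjAct y = ConjAct.ofConjAct y * g
      nth_rewrite 1 [← h4]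
      group
    · intro y _ y' _ h
      exact ConjAct.ofConjAct.injective h
    · intro y hy
      rw [Finset.mem_filter] at hy
      refine ⟨ConjAct.toConjAct y, ?_, rfl⟩
      rw [Finset.mem_filter]
      refine ⟨Finset.mem_univ _, ?_⟩
      show ConjAct.toConjAct y • g = g
      rw [ConjAct.toConjAct_smul]
      have h4 : g * y = y * g := hy.2
      rw [← h4]
      group
  rw [h2, h3, ConjAct.card] at h1
  exact h1

/-- the sum of the weights: the mean over `P` is one -/
theorem wt_sum : ∑ x : P, wt N c x = Fintype.card P := by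
  have h0 : (0 : ℝ) < Fintype.card N := by exact_mod_cast Fintype.card_pos
  have h1 : ∀ n : N, ∑ x : P,
      ((Finset.univ.filter fun g : P => g ∈ c.carrier ∧ Commute g (x * n)).card : ℝ) =
        Fintype.card P := by
    intro n
    have h2 : ∑ x : P, ((Finset.univ.filter fun g : P =>
        g ∈ c.carrier ∧ Commute g (x * n)).card : ℝ) =
        ∑ x : P, ((Finset.univ.filter fun g : P => g ∈ c.carrier ∧ Commute g x).card : ℝ) :=
      Fintype.sum_equiv (Equiv.mulRight (n : P)) _ _ fun x => rfl
    rw [h2]
    have h3 : ∀ x : P, ((Finset.univ.filter fun g : P =>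
        g ∈ c.carrier ∧ Commute g x).card : ℝ) =
        ∑ g : P, if g ∈ c.carrier ∧ Commute g x then (1 : ℝ) else 0 := by
      intro x
      rw [Finset.sum_boole]
    simp only [h3]
    rw [Finset.sum_comm]
    have h4 : ∀ g : P, (∑ x : P, if g ∈ c.carrier ∧ Commute g x then (1 : ℝ) else 0) =
        if g ∈ c.carrier then ((Finset.univ.filter fun y : P => Commute g y).card : ℝ)
          else 0 := by
      intro g
      by_cases hg : g ∈ c.carrier
      · simp only [hg, true_and, if_true]
        rw [Finset.sum_boole]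
      · simp only [hg, false_and, if_false, Finset.sum_const_zero]
    simp only [h4]
    obtain ⟨g0, hg0⟩ := ConjClasses.exists_rep c
    have hmem : ∀ g : P, g ∈ c.carrier ↔ IsConj g0 g := by
      intro g
      rw [ConjClasses.mem_carrier_iff_mk_eq, ← hg0, ConjClasses.mk_eq_mk_iff_isConj]
      exact ⟨IsConj.symm, IsConj.symm⟩
    rw [← Finset.sum_filter]
    have hk : ∀ g ∈ Finset.univ.filter fun g : P => g ∈ c.carrier,
        ((Finset.univ.filter fun y : P => Commute g y).card : ℝ) *
          ((Finset.univ.filter fun h : P => IsConj g0 h).card : ℝ) = Fintype.card P := by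
      intro g hg
      have h5 := (hmem g).1 (Finset.mem_filter.1 hg).2
      have h6 := cls_cent g
      have h7 : (Finset.univ.filter fun h : P => IsConj g h) =
          Finset.univ.filter fun h : P => IsConj g0 h := by
        ext h
        rw [Finset.mem_filter, Finset.mem_filter]
        exact ⟨fun h8 => ⟨Finset.mem_univ _, h5.trans h8.2⟩,
          fun h8 => ⟨Finset.mem_univ _, h5.symm.trans h8.2⟩⟩
      rw [h7] at h6
      rw [mul_comm]
      exact_mod_cast h6
    have hpos : (0 : ℝ) < ((Finset.univ.filter fun h : P => IsConj g0 h).card : ℝ) := by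
      have : 0 < (Finset.univ.filter fun h : P => IsConj g0 h).card :=
        Finset.card_pos.2 ⟨g0, Finset.mem_filter.2 ⟨Finset.mem_univ _, IsConj.refl g0⟩⟩
      exact_mod_cast this
    have hsum : (∑ g ∈ Finset.univ.filter fun g : P => g ∈ c.carrier,
        ((Finset.univ.filter fun y : P => Commute g y).card : ℝ)) *
          ((Finset.univ.filter fun h : P => IsConj g0 h).card : ℝ) =
        Fintype.card P * ((Finset.univ.filter fun h : P => IsConj g0 h).card : ℝ) := by
      rw [Finset.sum_mul, Finset.sum_congr rfl hk, Finset.sum_const, nsmul_eq_mul, mul_comm]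
      congr 2
      congr 1
      ext g
      rw [Finset.mem_filter, Finset.mem_filter, hmem]
    exact mul_right_cancel₀ hpos.ne' hsum
  unfold wt
  rw [← Finset.sum_div, Finset.sum_comm, Finset.sum_congr rfl fun n _ => h1 n, Finset.sum_const,
    nsmul_eq_mul, Finset.card_univ, mul_comm, mul_div_assoc, div_self h0.ne', mul_one]

end H93.UB
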