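import Pool.Agent.H93.UB.Lz
import Pool.Agent.H77.WD.Fra

/-!
# [H93 UB HN] honest homomorphisms and the conditions of `gp`

* `ur_of_hon`: an honest homomorphism to a finite `p`-group is unramified outside `S0` and `Z`.
* `ft_of_hon`: it is of finite type.
* `lzm_of_hon`: the data of level zero.
-/

set_option autoImplicit false

open scoped NumberField Pointwise Classical
open IsDedekindDomain H63.MA H38.BB NumberField H36.QA H38.ML H57.SL H57.AN H38.BG H57.GP H77.WD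

noncomputable section

namespace H93.UB

variable {K : IntermediateField ℚ QBar} [NumberField K] {ζ : K} {p : ℕ}

omit [NumberField K] in
theorem ft_of_ft {H : Type} [Group H] {φ : Gal(QBar/K) →* H} (h : H38.ML.FT φ) : Ft φ := by
  obtain ⟨E, hE, hk⟩ := h
  exact ⟨E, hE, fun σ hσ => MonoidHom.mem_ker.1 (hk hσ)⟩

omit [NumberField K] in
private theorem hn_smul (σ : Gal(QBar/K)) (a : 𝓞 K) :
    σ • algebraMap (𝓞 K) (𝓞 QBar) a = algebraMap (𝓞 K) (𝓞 QBar) a := by
  apply NumberField.RingOfIntegers.ext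
  exact σ.commutes (a : K)

theorem ur_of_hon (hp : p.Prime) (hζ : IsPrimitiveRoot ζ p) {D : RD0 K p ζ} (L : LDs D QBar)
    {Z : Finset (Pl K)} {H : Type} [Group H] [Finite H] {φ : Gal(QBar/K) →* H} (h : Hon L Z φ)
    (hP : IsPGroup p φ.range) (l : Pl K) (hl : l ∉ D.S0) (hZ : l ∉ Z) : Ur φ l := by
  intro P hP' hPl τ hτ
  have h1 := hon_inr hp hζ L Z φ h hP hl
  obtain ⟨P₀, hP₀⟩ : ∃ P₀ : Ideal (𝓞 QBar), P₀ = (L.ld l hl).P := ⟨_, rfl⟩
  have hin : inr L l = P₀.inertia Gal(QBar/K) := by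
    unfold inr
    rw [dif_pos hl, hP₀]
  have h2 : P₀.IsPrime := by
    rw [hP₀]
    exact (L.ld l hl).prime
  have h3 : P₀.under (𝓞 K) = l.asIdeal := by
    rw [hP₀]
    exact (L.ld l hl).under
  have : IsAlgClosure K QBar := inferInstance
  obtain ⟨g, hg⟩ := dic_tr P₀ P h2 hP' (h3.trans hPl.symm)
  have h4 : g⁻¹ * τ * g ∈ P₀.inertia Gal(QBar/K) := by
    intro y
    show (g⁻¹ * τ * g) • y - y ∈ P₀
    have h5 := hτ (g • y)
    have h6 : g • ((g⁻¹ * τ * g) • y - y) = τ • (g • y) - g • y := by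
      rw [smul_sub, ← mul_smul, ← mul_smul]
      congr 2
      group
    have h7 : g • ((g⁻¹ * τ * g) • y - y) ∈ g • P₀ := by
      rw [h6, ← hg]
      exact h5
    rwa [Ideal.smul_mem_pointwise_smul_iff] at h7
  rw [← hin] at h4
  have h5 := (h1 _ h4).2 hZ
  rw [map_mul, map_mul, map_inv] at h5
  have h6 : φ τ = φ g * ((φ g)⁻¹ * φ τ * φ g) * (φ g)⁻¹ := by group
  rw [h6, h5, mul_one, mul_inv_cancel]

theorem lzm_of_hon (hp : p.Prime) (hζ : IsPrimitiveRoot ζ p) {D : RD0 K p ζ} (L : LDs D QBar)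
    {Z : Finset (Pl K)} {G : Type} [Group G] [Fintype G] {φ : Gal(QBar/K) →* G} (h : Hon L Z φ)
    (hs : Function.Surjective φ) (he : ∀ g : G, g ^ p = 1) {b : ℕ} (hc : p * Fintype.card G ≤ b)
    {f : G → ℝ} (hf : ∀ g, |f g| ≤ b) (hcl : ∀ g y, f (g⁻¹ * y * g) = f y) : Lzm D b Z φ f where
  sur := hs
  exp := he
  card := hc
  bd := hf
  cl := hcl
  ft := ft_of_ft h.1
  ur := fun l hl hZ => ur_of_hon hp hζ L h
    (fun g => ⟨1, by rw [pow_one]; exact Subtype.ext (he g)⟩) l hl hZ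

end H93.UB
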