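import Pool.Agent.H93.UB.Lza
import Pool.Agent.H35.UB.Gpu

/-!
# [H93 UB LG] the error terms of level zero from `GPU` (general form)

`I`: a finite family of data: `n i` a set of good primes disjoint from the fixed set `E` (`nr E ≤ (log Y) ^ A₁`), `nr (n i) T ≤ 2 Y` with `T = exp ((log Y) ^ ε)`, weights
`W i ≤ K₀ ^ (card (n i) + 1)`, at most `K₀ ^ (card m + 1)` indices with `n i = m`; `φ i : Gal(Ω/K) → G i` onto, `HonE L E (n i ∪ E) (φ i)`, `h i` a class function on `G i`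
(of exponent dividing `p ^ κ`).
`lg`: `∑ i, W i |∑_{w good, T < nm w ≤ 2 Y / nr (n i), w ∉ n i ∪ E} (h i (φ i (F w)) - mean of h i)| ≤ Y (log Y) ^ (-A)`.
-/

set_option autoImplicit false

open scoped NumberField Classical
open IsDedekindDomain H63.MA H38.BB H38.BG H57.PC H57.BRA H77.WD H77.WE H57.AN H35.UB Filter

noncomputable section

namespace H93.UB

variable {K : Type} [Field K] [NumberField K] {Ω : Type} [Field Ω] [Algebra K Ω]
  {p : ℕ} {ζ : K}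

/-- one member of the family -/
structure Lgm {D : RD0 K p ζ} (κ b : ℕ) (L : LDs D Ω) (E m : Finset (Pl K)) {G : Type} [Group G]
    [Fintype G] (φ : Gal(Ω/K) →* G) (h : G → ℝ) : Prop where
  sur : Function.Surjective φ
  exp : ∀ g : G, g ^ (p ^ κ) = 1
  card : Fintype.card G ≤ b
  bd : ∀ g, |h g| ≤ b
  cl : ∀ y z, h (z * y * z⁻¹) = h y
  hon : HonE L E m φ

/-- the centred values -/
def cvg {D : RD0 K p ζ} {L : LDs D Ω} (Fr : FR L) {G : Type} [Group G] [Fintype G]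
    (φ : Gal(Ω/K) →* G) (h : G → ℝ) (w : Pl K) : ℝ :=
  h (φ (Fr.F w)) - (Fintype.card G : ℝ)⁻¹ * ∑ g : G, h g

/-- the inner sum -/
def ing (D : RD0 K p ζ) (T x : ℝ) (m : Finset (Pl K)) (F : Pl K → ℝ) : ℝ :=
  ∑ w ∈ (gdY D x).filter (fun w => T < (nm w : ℝ) ∧ w ∉ m), F w

/-- the sum over all good primes -/
def sgg (D : RD0 K p ζ) (x : ℝ) (m : Finset (Pl K)) (F : Pl K → ℝ) : ℝ :=
  ∑ w ∈ (PB K x).filter (fun w => D.Gd w ∧ w ∉ m), F w

section one

variable {D : RD0 K p ζ} {κ b : ℕ} {L : LDs D Ω} {E m : Finset (Pl K)} {G : Type} [Group G]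
  [Fintype G] {φ : Gal(Ω/K) →* G} {h : G → ℝ}

theorem Lgm.cv_bd (H : Lgm κ b L E m φ h) (Fr : FR L) (w : Pl K) : |cvg Fr φ h w| ≤ 2 * b := by
  unfold cvg
  have h0 : (0 : ℝ) < Fintype.card G := by
    exact_mod_cast Fintype.card_pos
  have h1 : |(Fintype.card G : ℝ)⁻¹ * ∑ g : G, h g| ≤ b := by
    rw [abs_mul, abs_of_pos (inv_pos.2 h0), inv_mul_le_iff₀ h0]
    refine (Finset.abs_sum_le_sum_abs _ _).trans ((Finset.sum_le_sum fun g _ => H.bd g).trans ?_)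
    rw [Finset.sum_const, Finset.card_univ, nsmul_eq_mul]
  have h2 := H.bd (φ (Fr.F w))
  have h3 := abs_sub (h (φ (Fr.F w))) ((Fintype.card G : ℝ)⁻¹ * ∑ g : G, h g)
  linarith

theorem Lgm.rng (H : Lgm κ b L E m φ h) : (Finset.univ.filter fun y : G => y ∈ φ.range) =
    Finset.univ := by
  rw [Finset.filter_eq_self]
  intro y _
  obtain ⟨σ, hσ⟩ := H.sur y
  exact ⟨σ, hσ⟩

theorem Lgm.cv_gp (H : Lgm κ b L E m φ h) (Fr : FR L) (w : Pl K) :
    (h (φ (Fr.F w)) : ℂ) - mrg φ (fun g => (h g : ℂ)) = ((cvg Fr φ h w : ℝ) : ℂ) := by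
  unfold mrg cvg
  rw [H.rng, Finset.card_univ]
  push_cast
  ring

theorem sgg_real (D : RD0 K p ζ) (x : ℝ) (T : Finset (Pl K)) (F : Pl K → ℝ) :
    ‖∑ w ∈ (PB K x).filter (fun w => D.Gd w ∧ w ∉ T), (F w : ℂ)‖ = |sgg D x T F| := by
  unfold sgg
  rw [← Complex.ofReal_sum, Complex.norm_real, Real.norm_eq_abs]

theorem ing_bd (D : RD0 K p ζ) (T x : ℝ) (m : Finset (Pl K)) (F : Pl K → ℝ) (B : ℝ) (hB : 0 ≤ B)
    (hF : ∀ w, |F w| ≤ B) : |ing D T x m F| ≤ B * (PB K x).card := by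
  unfold ing
  have h1 : ((gdY D x).filter (fun w => T < (nm w : ℝ) ∧ w ∉ m)) ⊆ PB K x := by
    intro w hw
    rw [mem_PB]
    exact (chr_mem.1 (Finset.mem_filter.1 hw).1).1
  refine (Finset.abs_sum_le_sum_abs _ _).trans ((Finset.sum_le_sum fun w _ => hF w).trans ?_)
  rw [Finset.sum_const, nsmul_eq_mul, mul_comm]
  exact mul_le_mul_of_nonneg_left (by exact_mod_cast Finset.card_le_card h1) hB

/-- the inner sum is the difference of two sums -/
theorem ing_sg (D : RD0 K p ζ) (T x : ℝ) (m : Finset (Pl K)) (F : Pl K → ℝ) (hTx : T ≤ x) :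
    |ing D T x m F| ≤ |sgg D x m F| + |sgg D T m F| := by
  have h1 : sgg D x m F = sgg D T m F + ing D T x m F := by
    unfold sgg ing
    rw [← Finset.sum_filter_add_sum_filter_not ((PB K x).filter (fun w => D.Gd w ∧ w ∉ m))
      (fun w => (nm w : ℝ) ≤ T)]
    congr 1
    · refine Finset.sum_congr ?_ fun _ _ => rfl
      ext w
      simp only [Finset.mem_filter, mem_PB]
      constructor
      · rintro ⟨⟨_, h2⟩, h3⟩
        exact ⟨h3, h2⟩
      · rintro ⟨h3, h2⟩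
        exact ⟨⟨h3.trans hTx, h2⟩, h3⟩
    · refine Finset.sum_congr ?_ fun _ _ => rfl
      ext w
      simp only [Finset.mem_filter, mem_PB, chr_mem, not_le]
      tauto
  have h2 : ing D T x m F = sgg D x m F - sgg D T m F := by
    rw [h1]
    ring
  rw [h2]
  exact abs_sub _ _

end one

theorem nr_gdg {D : RD0 K p ζ} {m : Finset (Pl K)} {X : ℝ} (h : ∀ v ∈ m, D.Gd v) (hX : nr m ≤ X) :
    m ∈ (gdY D X).powerset := by
  rw [Finset.mem_powerset]
  intro v hv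
  rw [chr_mem]
  refine ⟨?_, h v hv⟩
  have h1 := nr_mono (Finset.singleton_subset_iff.2 hv)
  have h2 : nr {v} = (nm v : ℝ) := by
    unfold nr
    rw [Finset.prod_singleton]
  rw [h2] at h1
  exact h1.trans hX

theorem nr_disjg {m E : Finset (Pl K)} (h : Disjoint m E) : nr (m ∪ E) = nr m * nr E := by
  unfold nr
  rw [Finset.prod_union h]

theorem two_pow_cardg (m : Finset (Pl K)) : (2 : ℝ) ^ m.card ≤ nr m := by
  unfold nr
  rw [← Finset.prod_const]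
  refine Finset.prod_le_prod (fun _ _ => by norm_num) fun v _ => ?_
  have := one_lt_nm v
  exact_mod_cast (by omega : 2 ≤ nm v)

/-- THE ERROR TERMS OF LEVEL ZERO -/
theorem lg (D : RD0 K p ζ) (κ : ℕ) (hG : GPU D Ω κ)
    (b K₀ A₁ A : ℕ) (hK : 1 ≤ K₀) (ε : ℝ) (hε : 0 < ε) (hε1 : ε ≤ 1) : ∃ Y₀ : ℝ, ∀ Y : ℝ, Y₀ ≤ Y →
      ∀ (L : LDs D Ω) (Fr : FR L) (E : Finset (Pl K)), nr E ≤ Real.log Y ^ A₁ →
      ∀ (ι : Type) (I : Finset ι) (n : ι → Finset (Pl K)) (W : ι → ℝ),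
      (∀ i ∈ I, (∀ v ∈ n i, D.Gd v) ∧ Disjoint (n i) E ∧
        nr (n i) * Real.exp (Real.log Y ^ ε) ≤ 2 * Y) →
      (∀ i ∈ I, 0 ≤ W i ∧ W i ≤ (K₀ : ℝ) ^ ((n i).card + 1)) →
      (∀ m, ((I.filter fun i => n i = m).card : ℝ) ≤ (K₀ : ℝ) ^ (m.card + 1)) →
      ∀ (G : ι → Type) [∀ i, Group (G i)] [∀ i, Fintype (G i)] (φ : ∀ i, Gal(Ω/K) →* G i)
        (h : ∀ i, G i → ℝ), (∀ i ∈ I, Lgm κ b L E (n i ∪ E) (φ i) (h i)) →
      ∑ i ∈ I, W i * |ing D (Real.exp (Real.log Y ^ ε)) (2 * Y / nr (n i)) (n i ∪ E)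
        (cvg Fr (φ i) (h i))| ≤ Y * Real.log Y ^ (-(A : ℝ)) := by
  obtain ⟨c₁, hc₁, hpb⟩ := card_pb K
  obtain ⟨k, hk⟩ : ∃ k : ℕ, k = 2 * K₀ ^ 2 := ⟨_, rfl⟩
  obtain ⟨C₁, hC₁, hr⟩ := rkn K k
  obtain ⟨N, hN⟩ : ∃ N : ℕ, N = 2 * (A + k + 2) := ⟨_, rfl⟩
  obtain ⟨C', hC'⟩ : ∃ C' : ℕ, C' = N + 2 * A₁ + (N * K₀ + 1) + 2 := ⟨_, rfl⟩
  obtain ⟨A', hA'⟩ : ∃ A' : ℕ, A' = A + N * K₀ + A₁ + 3 := ⟨_, rfl⟩
  obtain ⟨Y₁, hY₁⟩ := hG b C' A' ε hε
  have e1 := ev_log (12 * b * c₁ * K₀ ^ 2 * C₁ * 2 ^ k) ((k : ℝ) - N / 2) (-(A : ℝ)) (by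
    rw [hN]
    push_cast
    linarith)
  have e2 := ev_log 12 (((N * K₀ + 1 : ℕ) : ℝ) + (A₁ : ℝ) + -(A' : ℝ)) (-(A : ℝ)) (by
    rw [hA']
    push_cast
    linarith)
  have e4 := ev_exp 1 A₁ ε 1 hε one_pos
  have e5 := ev_log K₀ (N * K₀ : ℕ) (N * K₀ + 1 : ℕ) (by exact_mod_cast Nat.lt_succ_self _)
  obtain ⟨Y₀, hY₀⟩ := eventually_atTop.1
    ((((e1.and e2).and e4).and e5).and ((eventually_ge_atTop Y₁).and (eventually_ge_atTop 3)))
  refine ⟨Y₀, fun Y hY L' Fr E hE ι I n W hn hW hI G _ _ φ h H => ?_⟩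
  obtain ⟨⟨⟨⟨f1, f2⟩, f4⟩, f5⟩, hYY₁, hY3⟩ := hY₀ Y hY
  obtain ⟨L, hL⟩ : ∃ L : ℝ, L = Real.log Y := ⟨_, rfl⟩
  obtain ⟨T, hT⟩ : ∃ T : ℝ, T = Real.exp (L ^ ε) := ⟨_, rfl⟩
  rw [← hL] at f1 f2 f4 f5 hE hn ⊢
  rw [← hT] at hn ⊢
  have hY0 : 0 < Y := by linarith
  have hL1 : 1 ≤ L := by
    rw [hL, Real.le_log_iff_exp_le hY0]
    linarith [Real.exp_one_lt_d9]
  have hL0 : 0 < L := by linarith
  have hT1 : 1 ≤ T := by
    rw [hT]
    exact Real.one_le_exp (Real.rpow_nonneg hL0.le _)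
  have hT0 : 0 < T := by linarith
  have hTY : T ≤ Y := by
    rw [hT, ← Real.exp_log hY0, ← hL]
    refine Real.exp_le_exp.2 ?_
    calc L ^ ε ≤ L ^ (1 : ℝ) := Real.rpow_le_rpow_of_exponent_le hL1 hε1
      _ = L := Real.rpow_one L
  have hLT : L ^ A₁ ≤ T := by
    rw [one_mul, Real.rpow_natCast, one_mul, ← hT] at f4
    exact f4
  have hK1 : (1 : ℝ) ≤ K₀ := by exact_mod_cast hK
  have hℓ : 0 ≤ Real.log L := Real.log_nonneg hL1
  have hnr0 : ∀ m : Finset (Pl K), 0 < nr m := fun m => lt_of_lt_of_le one_pos (one_le_nr m)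
  -- the sum over all sets of primes
  obtain ⟨U, hU⟩ : ∃ U : Finset (Finset (Pl K)), U = (gdY D (2 * Y)).powerset := ⟨_, rfl⟩
  have hnU : ∀ i ∈ I, n i ∈ U := by
    intro i hi
    rw [hU]
    refine nr_gdg (hn i hi).1 ?_
    have h1 := (hn i hi).2.2
    have h2 := mul_le_mul_of_nonneg_left hT1 (hnr0 (n i)).le
    linarith
  obtain ⟨S, hS⟩ : ∃ S : ℝ, S = ∑ m ∈ U, (k : ℝ) ^ m.card / nr m := ⟨_, rfl⟩
  have hS1 : S ≤ C₁ * 2 ^ k * L ^ (k : ℝ) := by
    have h1 := hr p ζ D (2 * Y) (by linarith)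
    rw [← hU, ← hS] at h1
    refine h1.trans ?_
    have h2 : Real.log (2 * Y) ≤ 2 * L := by
      rw [Real.log_mul (by norm_num) hY0.ne', ← hL]
      have := Real.log_two_lt_d9
      linarith
    have h3 : 0 ≤ Real.log (2 * Y) := Real.log_nonneg (by linarith)
    rw [Real.rpow_natCast, mul_assoc, ← mul_pow]
    exact mul_le_mul_of_nonneg_left (pow_le_pow_left₀ h3 h2 _) hC₁.le
  have hS0 : 0 ≤ S := by
    rw [hS]
    exact Finset.sum_nonneg fun m _ => div_nonneg (by positivity) (hnr0 m).le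
  -- multiplicities
  have hKk : ∀ m : Finset (Pl K), (K₀ : ℝ) ^ (m.card + 1) * (K₀ : ℝ) ^ (m.card + 1) * 2 ^ m.card =
      K₀ ^ 2 * (k : ℝ) ^ m.card := by
    intro m
    rw [hk]
    push_cast
    rw [mul_pow, ← pow_mul]
    ring
  have hKk' : ∀ m : Finset (Pl K), (K₀ : ℝ) ^ (m.card + 1) * (K₀ : ℝ) ^ (m.card + 1) ≤
      K₀ ^ 2 * (k : ℝ) ^ m.card := by
    intro m
    rw [← hKk]
    refine le_mul_of_one_le_right (by positivity) (one_le_pow₀ (by norm_num))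
  -- the points
  have hx : ∀ i ∈ I, T ≤ 2 * Y / nr (n i) ∧ 2 * Y / nr (n i) ≤ 2 * Y := by
    intro i hi
    constructor
    · rw [le_div_iff₀ (hnr0 _), mul_comm]
      exact (hn i hi).2.2
    · exact div_le_self (by linarith) (one_le_nr _)
  -- the trivial bound
  have htriv : ∀ i ∈ I, W i * |ing D T (2 * Y / nr (n i)) (n i ∪ E) (cvg Fr (φ i) (h i))| ≤
      (K₀ : ℝ) ^ ((n i).card + 1) * (4 * b * c₁ * Y / nr (n i)) := by
    intro i hi
    have h1 := ing_bd D T (2 * Y / nr (n i)) (n i ∪ E) (cvg Fr (φ i) (h i)) (2 * b)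
      (by positivity) ((H i hi).cv_bd Fr)
    have h2 := hpb (2 * Y / nr (n i)) (hT1.trans (hx i hi).1)
    have h3 : |ing D T (2 * Y / nr (n i)) (n i ∪ E) (cvg Fr (φ i) (h i))| ≤
        4 * b * c₁ * Y / nr (n i) := by
      refine h1.trans ((mul_le_mul_of_nonneg_left h2 (by positivity)).trans (le_of_eq ?_))
      ring
    exact mul_le_mul (hW i hi).2 h3 (abs_nonneg _) (by positivity)
  -- the indices with many primes
  obtain ⟨I₁, hI₁⟩ : ∃ I₁ : Finset ι, I₁ = I.filter fun i => N * Real.log L < (n i).card := ⟨_, rfl⟩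
  obtain ⟨I₂, hI₂⟩ : ∃ I₂ : Finset ι, I₂ = I.filter fun i => ¬ N * Real.log L < (n i).card := ⟨_, rfl⟩
  have hI₁s : ∀ i ∈ I₁, i ∈ I ∧ N * Real.log L < (n i).card := by
    intro i hi
    rw [hI₁] at hi
    exact Finset.mem_filter.1 hi
  have hI₂s : ∀ i ∈ I₂, i ∈ I ∧ ((n i).card : ℝ) ≤ N * Real.log L := by
    intro i hi
    rw [hI₂] at hi
    exact ⟨(Finset.mem_filter.1 hi).1, not_lt.1 (Finset.mem_filter.1 hi).2⟩
  have hpart1 : ∑ i ∈ I₁, W i * |ing D T (2 * Y / nr (n i)) (n i ∪ E) (cvg Fr (φ i) (h i))| ≤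
      1 / 3 * (Y * L ^ (-(A : ℝ))) := by
    have h1 : ∑ i ∈ I₁, W i * |ing D T (2 * Y / nr (n i)) (n i ∪ E) (cvg Fr (φ i) (h i))| ≤
        ∑ i ∈ I₁, (K₀ : ℝ) ^ ((n i).card + 1) * (4 * b * c₁ * Y / nr (n i)) :=
      Finset.sum_le_sum fun i hi => htriv i (hI₁s i hi).1
    have h2 := mult I₁ n U (fun i hi => hnU i (hI₁s i hi).1)
      (fun m => if N * Real.log L < m.card then (K₀ : ℝ) ^ (m.card + 1) else 0) (by
        intro m
        split_ifs with hm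
        · refine le_trans (Nat.cast_le.2 (Finset.card_le_card ?_)) (hI m)
          intro i hi
          rw [Finset.mem_filter] at hi ⊢
          exact ⟨(hI₁s i hi.1).1, hi.2⟩
        · have h5 : (I₁.filter fun i => n i = m) = ∅ := by
            rw [Finset.filter_eq_empty_iff]
            rintro i hi rfl
            exact hm (hI₁s i hi).2
          rw [h5, Finset.card_empty, Nat.cast_zero])
      (fun m => (K₀ : ℝ) ^ (m.card + 1) * (4 * b * c₁ * Y / nr m))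
      (fun m _ => mul_nonneg (by positivity) (div_nonneg (by positivity) (hnr0 m).le))
    have h3 : ∑ m ∈ U, (if N * Real.log L < m.card then (K₀ : ℝ) ^ (m.card + 1) else 0) *
        ((K₀ : ℝ) ^ (m.card + 1) * (4 * b * c₁ * Y / nr m)) ≤
        ∑ m ∈ U, 4 * b * c₁ * Y * K₀ ^ 2 * L ^ (-(N / 2 : ℝ)) * ((k : ℝ) ^ m.card / nr m) := by
      refine Finset.sum_le_sum fun m _ => ?_
      have hm0 := hnr0 m
      split_ifs with hm
      · have h4 : L ^ (N / 2 : ℝ) ≤ 2 ^ m.card := by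
          rw [Real.rpow_def_of_pos hL0, ← Real.exp_log (show (0 : ℝ) < 2 ^ m.card by positivity),
            Real.log_pow]
          refine Real.exp_le_exp.2 ?_
          have h5 := Real.log_two_gt_d9
          have h6 : (m.card : ℝ) * (1 / 2) ≤ m.card * Real.log 2 :=
            mul_le_mul_of_nonneg_left (by linarith) (Nat.cast_nonneg _)
          linarith
        have h5 : (K₀ : ℝ) ^ (m.card + 1) * (K₀ : ℝ) ^ (m.card + 1) ≤
            K₀ ^ 2 * (k : ℝ) ^ m.card * L ^ (-(N / 2 : ℝ)) := by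
          rw [Real.rpow_neg hL0.le, ← div_eq_mul_inv, le_div_iff₀ (Real.rpow_pos_of_pos hL0 _),
            ← hKk]
          exact mul_le_mul_of_nonneg_left h4 (by positivity)
        calc (K₀ : ℝ) ^ (m.card + 1) * ((K₀ : ℝ) ^ (m.card + 1) * (4 * b * c₁ * Y / nr m))
            = (K₀ : ℝ) ^ (m.card + 1) * (K₀ : ℝ) ^ (m.card + 1) * (4 * b * c₁ * Y / nr m) := by ring
          _ ≤ K₀ ^ 2 * (k : ℝ) ^ m.card * L ^ (-(N / 2 : ℝ)) * (4 * b * c₁ * Y / nr m) :=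
              mul_le_mul_of_nonneg_right h5 (by positivity)
          _ = _ := by ring
      · rw [zero_mul]
        have := Real.rpow_nonneg hL0.le (-(N / 2 : ℝ))
        positivity
    rw [← Finset.mul_sum, ← hS] at h3
    have h4 : 4 * b * c₁ * Y * K₀ ^ 2 * L ^ (-(N / 2 : ℝ)) * S ≤
        4 * b * c₁ * Y * K₀ ^ 2 * L ^ (-(N / 2 : ℝ)) * (C₁ * 2 ^ k * L ^ (k : ℝ)) := by
      have := Real.rpow_nonneg hL0.le (-(N / 2 : ℝ))
      exact mul_le_mul_of_nonneg_left hS1 (by positivity)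
    have h5 : L ^ (-(N / 2 : ℝ)) * L ^ (k : ℝ) = L ^ ((k : ℝ) - N / 2) := by
      rw [← Real.rpow_add hL0]
      congr 1
      ring
    calc _ ≤ _ := h1
      _ ≤ _ := h2
      _ ≤ _ := h3
      _ ≤ _ := h4
      _ = 1 / 3 * (Y * (12 * b * c₁ * K₀ ^ 2 * C₁ * 2 ^ k * (L ^ (-(N / 2 : ℝ)) * L ^ (k : ℝ)))) := by
          ring
      _ ≤ 1 / 3 * (Y * L ^ (-(A : ℝ))) := by
          rw [h5]
          exact mul_le_mul_of_nonneg_left (mul_le_mul_of_nonneg_left f1 hY0.le) (by norm_num)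
  have hmul2 : ∀ m, ((I₂.filter fun i => n i = m).card : ℝ) ≤ (K₀ : ℝ) ^ (m.card + 1) := by
    intro m
    refine le_trans ?_ (hI m)
    refine Nat.cast_le.2 (Finset.card_le_card ?_)
    intro i hi
    rw [Finset.mem_filter] at hi ⊢
    exact ⟨(hI₂s i hi.1).1, hi.2⟩
  have hpart3 : ∑ i ∈ I₂, W i * (|sgg D (2 * Y / nr (n i)) (n i ∪ E) (cvg Fr (φ i) (h i))| +
      |sgg D T (n i ∪ E) (cvg Fr (φ i) (h i))|) ≤ 1 / 3 * (Y * L ^ (-(A : ℝ))) := by
    -- cardinalities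
    have hcE : (E.card : ℝ) ≤ 2 * A₁ * Real.log L := by
      have h1 := (two_pow_cardg E).trans hE
      have h2 := Real.log_le_log (by positivity) h1
      rw [Real.log_pow, Real.log_pow] at h2
      have h3 := Real.log_two_gt_d9
      have h4 : (E.card : ℝ) * (1 / 2) ≤ E.card * Real.log 2 :=
        mul_le_mul_of_nonneg_left (by linarith) (Nat.cast_nonneg _)
      linarith
    have hpow : ∀ m : ℕ, (m : ℝ) ≤ N * Real.log L →
        (K₀ : ℝ) ^ (m + 1) ≤ L ^ ((N * K₀ + 1 : ℕ) : ℝ) := by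
      intro m hm
      have h1 : (K₀ : ℝ) ^ m ≤ L ^ ((N * K₀ : ℕ) : ℝ) := by
        rw [Real.rpow_def_of_pos hL0, ← Real.exp_log (show (0 : ℝ) < (K₀ : ℝ) ^ m by positivity),
          Real.log_pow]
        refine Real.exp_le_exp.2 ?_
        have h2 : Real.log K₀ ≤ K₀ := by
          have := Real.log_le_sub_one_of_pos (show (0 : ℝ) < K₀ by linarith)
          linarith
        have h3 : 0 ≤ Real.log (K₀ : ℝ) := Real.log_nonneg hK1
        push_cast
        calc (m : ℝ) * Real.log K₀ ≤ N * Real.log L * K₀ :=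
              mul_le_mul hm h2 h3 (by positivity)
          _ = _ := by ring
      rw [pow_succ, mul_comm]
      exact (mul_le_mul_of_nonneg_left h1 (by positivity)).trans f5
    have hC'0 : (0 : ℝ) ≤ (C' : ℝ) := Nat.cast_nonneg _
    -- the hypotheses of `gp`
    have g1 : ∀ i ∈ I₂, E ⊆ n i ∪ E ∧ nr (n i ∪ E) ≤ Y ^ C' ∧
        (((n i ∪ E).card : ℕ) : ℝ) ≤ C' * Real.log (Real.log Y) := by
      intro i hi
      have hi' := (hI₂s i hi).1
      refine ⟨Finset.subset_union_right, ?_, ?_⟩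
      · rw [nr_disjg (hn i hi').2.1]
        have h1 : nr (n i) * nr E ≤ 2 * Y := by
          refine le_trans ?_ (hn i hi').2.2
          exact mul_le_mul_of_nonneg_left (hE.trans hLT) (hnr0 _).le
        refine h1.trans ?_
        calc 2 * Y ≤ Y * Y := mul_le_mul_of_nonneg_right (by linarith) hY0.le
          _ = Y ^ 2 := by ring
          _ ≤ Y ^ C' := pow_le_pow_right₀ (by linarith) (by omega)
      · rw [← hL, hC']
        have h1 : ((n i ∪ E).card : ℝ) ≤ (n i).card + E.card := by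
          exact_mod_cast Finset.card_union_le _ _
        have h2 := (hI₂s i hi).2
        push_cast
        have h3 : (0 : ℝ) ≤ (N * K₀ + 1 + 2) * Real.log L := by positivity
        nlinarith
    have g2 : ∀ i ∈ I₂, Real.exp (Real.log Y ^ ε) ≤ 2 * Y / nr (n i) ∧
        2 * Y / nr (n i) ≤ Y ^ C' := by
      intro i hi
      have hi' := (hI₂s i hi).1
      rw [← hL, ← hT]
      refine ⟨(hx i hi').1, (hx i hi').2.trans ?_⟩
      calc 2 * Y ≤ Y * Y := mul_le_mul_of_nonneg_right (by linarith) hY0.le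
        _ = Y ^ 2 := by ring
        _ ≤ Y ^ C' := pow_le_pow_right₀ (by linarith) (by omega)
    have g2' : ∀ i ∈ I₂, Real.exp (Real.log Y ^ ε) ≤ T ∧ T ≤ Y ^ C' := by
      intro i _
      rw [← hL, ← hT]
      refine ⟨le_rfl, hTY.trans ?_⟩
      calc Y = Y ^ 1 := by ring
        _ ≤ Y ^ C' := pow_le_pow_right₀ (by linarith) (by omega)
    have g3 : ∀ m, ((I₂.filter fun i => n i ∪ E = m).card : ℝ) ≤ Real.log Y ^ C' := by
      intro m
      rw [← hL]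
      by_cases hne : (I₂.filter fun i => n i ∪ E = m).Nonempty
      · obtain ⟨j, hj⟩ := hne
        rw [Finset.mem_filter] at hj
        have h1 : (I₂.filter fun i => n i ∪ E = m) ⊆ I₂.filter fun i => n i = n j := by
          intro i hi
          rw [Finset.mem_filter] at hi ⊢
          refine ⟨hi.1, ?_⟩
          have h2 := (hn i (hI₂s i hi.1).1).2.1
          have h3 := (hn j (hI₂s j hj.1).1).2.1
          have h4 : n i ∪ E = n j ∪ E := hi.2.trans hj.2.symm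
          ext v
          have h5 : v ∈ n i ∪ E ↔ v ∈ n j ∪ E := by rw [h4]
          rw [Finset.mem_union, Finset.mem_union] at h5
          constructor
          · intro hv
            exact (h5.1 (Or.inl hv)).resolve_right (Finset.disjoint_left.1 h2 hv)
          · intro hv
            exact (h5.2 (Or.inl hv)).resolve_right (Finset.disjoint_left.1 h3 hv)
        refine le_trans (Nat.cast_le.2 (Finset.card_le_card h1)) ((hmul2 (n j)).trans ?_)
        refine (hpow _ (hI₂s j hj.1).2).trans ?_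
        rw [Real.rpow_natCast]
        exact pow_le_pow_right₀ hL1 (by omega)
      · rw [Finset.not_nonempty_iff_eq_empty.1 hne, Finset.card_empty, Nat.cast_zero]
        positivity
    have g4 : ∀ i ∈ I₂, (Finset.univ.filter fun y : G i => y ∈ (φ i).range).card ≤ b ∧
        (∀ y ∈ (φ i).range, y ^ (p ^ κ) = 1) ∧
        (∀ y ∈ (φ i).range, ∀ z ∈ (φ i).range, ((h i (z * y * z⁻¹) : ℝ) : ℂ) = (h i y : ℂ)) ∧
        (∀ y ∈ (φ i).range, ‖((h i y : ℝ) : ℂ)‖ ≤ b) ∧ HonE L' E (n i ∪ E) (φ i) := by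
      intro i hi
      have H' := H i (hI₂s i hi).1
      refine ⟨?_, fun y _ => H'.exp y, fun y _ z _ => by rw [H'.cl], fun y _ => ?_, H'.hon⟩
      · rw [H'.rng, Finset.card_univ]
        exact H'.card
      · rw [Complex.norm_real]
        exact H'.bd y
    have G1 := hY₁ Y hYY₁ L' Fr E ι I₂ (fun i => n i ∪ E) (fun i => 2 * Y / nr (n i)) g1 g2 g3 G φ
      (fun i g => (h i g : ℂ)) g4
    have G2 := hY₁ Y hYY₁ L' Fr E ι I₂ (fun i => n i ∪ E) (fun _ => T) g1 g2' g3 G φ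
      (fun i g => (h i g : ℂ)) g4
    have hcv : ∀ i ∈ I₂, ∀ x : ℝ, ‖∑ w ∈ (PB K x).filter (fun w => D.Gd w ∧ w ∉ n i ∪ E),
        ((h i (φ i (Fr.F w)) : ℂ) - mrg (φ i) (fun g => (h i g : ℂ)))‖ =
        |sgg D x (n i ∪ E) (cvg Fr (φ i) (h i))| := by
      intro i hi x
      rw [← sgg_real]
      congr 1
      exact Finset.sum_congr rfl fun w _ => (H i (hI₂s i hi).1).cv_gp Fr w
    rw [← hL] at G1 G2
    obtain ⟨M, hM⟩ : ∃ M : ℝ, M = L ^ ((N * K₀ + 1 : ℕ) : ℝ) * (L ^ A₁ * (2 * Y)) := ⟨_, rfl⟩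
    have hM0 : 0 ≤ M := by
      rw [hM]
      have := Real.rpow_nonneg hL0.le ((N * K₀ + 1 : ℕ) : ℝ)
      positivity
    -- one summand
    have hone : ∀ i ∈ I₂, ∀ x : ℝ, T ≤ x → nr (n i) * x ≤ 2 * Y →
        W i * |sgg D x (n i ∪ E) (cvg Fr (φ i) (h i))| ≤
        M * ((nr (n i ∪ E))⁻¹ * x⁻¹ * ‖∑ w ∈ (PB K x).filter (fun w => D.Gd w ∧ w ∉ n i ∪ E),
          ((h i (φ i (Fr.F w)) : ℂ) - mrg (φ i) (fun g => (h i g : ℂ)))‖) := by
      intro i hi x hTx hnx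
      have hi' := (hI₂s i hi).1
      rw [hcv i hi, nr_disjg (hn i hi').2.1]
      obtain ⟨s, hs⟩ : ∃ s : ℝ, s = |sgg D x (n i ∪ E) (cvg Fr (φ i) (h i))| := ⟨_, rfl⟩
      have hs0 : 0 ≤ s := by
        rw [hs]
        exact abs_nonneg _
      rw [← hs]
      have hx0 : 0 < x := lt_of_lt_of_le hT0 hTx
      have hn0 := hnr0 (n i)
      have hE0 := hnr0 E
      have h1 : 1 ≤ L ^ A₁ * (2 * Y) * ((nr (n i) * nr E)⁻¹ * x⁻¹) := by
        rw [← mul_inv, ← div_eq_mul_inv, one_le_div (by positivity)]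
        calc nr (n i) * nr E * x = nr E * (nr (n i) * x) := by ring
          _ ≤ L ^ A₁ * (2 * Y) := mul_le_mul hE hnx (by positivity) (by positivity)
      have h2 : W i ≤ L ^ ((N * K₀ + 1 : ℕ) : ℝ) := (hW i hi').2.trans (hpow _ (hI₂s i hi).2)
      have h3 : 0 ≤ L ^ ((N * K₀ + 1 : ℕ) : ℝ) := Real.rpow_nonneg hL0.le _
      calc W i * s ≤ L ^ ((N * K₀ + 1 : ℕ) : ℝ) * s := mul_le_mul_of_nonneg_right h2 hs0
        _ = L ^ ((N * K₀ + 1 : ℕ) : ℝ) * s * 1 := (mul_one _).symm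
        _ ≤ L ^ ((N * K₀ + 1 : ℕ) : ℝ) * s *
            (L ^ A₁ * (2 * Y) * ((nr (n i) * nr E)⁻¹ * x⁻¹)) :=
              mul_le_mul_of_nonneg_left h1 (by positivity)
        _ = _ := by
            rw [hM]
            ring
    have hsum : ∑ i ∈ I₂, W i * (|sgg D (2 * Y / nr (n i)) (n i ∪ E) (cvg Fr (φ i) (h i))| +
        |sgg D T (n i ∪ E) (cvg Fr (φ i) (h i))|) ≤ M * L ^ (-(A' : ℝ)) + M * L ^ (-(A' : ℝ)) := by
      have h1 : ∀ i, W i * (|sgg D (2 * Y / nr (n i)) (n i ∪ E) (cvg Fr (φ i) (h i))| +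
          |sgg D T (n i ∪ E) (cvg Fr (φ i) (h i))|) =
          W i * |sgg D (2 * Y / nr (n i)) (n i ∪ E) (cvg Fr (φ i) (h i))| +
          W i * |sgg D T (n i ∪ E) (cvg Fr (φ i) (h i))| := fun i => mul_add _ _ _
      rw [Finset.sum_congr rfl fun i _ => h1 i, Finset.sum_add_distrib]
      refine add_le_add ?_ ?_
      · refine le_trans (Finset.sum_le_sum fun i hi => hone i hi (2 * Y / nr (n i))
          (hx i (hI₂s i hi).1).1 ?_) ?_
        · rw [mul_div_cancel₀ _ (hnr0 (n i)).ne']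
        · rw [← Finset.mul_sum]
          exact mul_le_mul_of_nonneg_left G1 hM0
      · refine le_trans (Finset.sum_le_sum fun i hi => hone i hi T le_rfl
          (hn i (hI₂s i hi).1).2.2) ?_
        rw [← Finset.mul_sum]
        exact mul_le_mul_of_nonneg_left G2 hM0
    refine hsum.trans ?_
    have h1 : M * L ^ (-(A' : ℝ)) + M * L ^ (-(A' : ℝ)) =
        4 * Y * (L ^ ((N * K₀ + 1 : ℕ) : ℝ) * L ^ (A₁ : ℝ) * L ^ (-(A' : ℝ))) := by
      rw [hM, ← Real.rpow_natCast L A₁]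
      ring
    rw [h1, ← Real.rpow_add hL0, ← Real.rpow_add hL0]
    calc 4 * Y * L ^ (((N * K₀ + 1 : ℕ) : ℝ) + (A₁ : ℝ) + -(A' : ℝ))
        = 1 / 3 * (Y * (12 * L ^ (((N * K₀ + 1 : ℕ) : ℝ) + (A₁ : ℝ) + -(A' : ℝ)))) := by ring
      _ ≤ 1 / 3 * (Y * L ^ (-(A : ℝ))) :=
          mul_le_mul_of_nonneg_left (mul_le_mul_of_nonneg_left f2 hY0.le) (by norm_num)
  have hsplit : ∑ i ∈ I, W i * |ing D T (2 * Y / nr (n i)) (n i ∪ E) (cvg Fr (φ i) (h i))| =
      ∑ i ∈ I₁, W i * |ing D T (2 * Y / nr (n i)) (n i ∪ E) (cvg Fr (φ i) (h i))| +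
      ∑ i ∈ I₂, W i * |ing D T (2 * Y / nr (n i)) (n i ∪ E) (cvg Fr (φ i) (h i))| := by
    rw [hI₁, hI₂]
    exact (Finset.sum_filter_add_sum_filter_not _ _ _).symm
  rw [hsplit]
  have hpart4 : ∑ i ∈ I₂, W i * |ing D T (2 * Y / nr (n i)) (n i ∪ E) (cvg Fr (φ i) (h i))| ≤
      ∑ i ∈ I₂, W i * (|sgg D (2 * Y / nr (n i)) (n i ∪ E) (cvg Fr (φ i) (h i))| +
      |sgg D T (n i ∪ E) (cvg Fr (φ i) (h i))|) := by
    refine Finset.sum_le_sum fun i hi => ?_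
    have hi' := (hI₂s i hi).1
    exact mul_le_mul_of_nonneg_left (ing_sg D T (2 * Y / nr (n i)) (n i ∪ E) _ (hx i hi').1)
      (hW i hi').1
  have hfin : 0 ≤ Y * L ^ (-(A : ℝ)) := mul_nonneg hY0.le (Real.rpow_nonneg hL0.le _)
  linarith

end H93.UB
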