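import Pool.Agent.H93.UB.Lza

/-!
# [H93 UB LZ] the error terms of level zero: one application of `gp`

`I`: a finite family of data: `n i` a set of good primes disjoint from the fixed set `E` (`nr E ≤ (log Y) ^ A₁`), `nr (n i) T ≤ 2 Y` with `T = exp ((log Y) ^ ε)`, weights
`W i ≤ K₀ ^ (card (n i) + 1)`, at most `K₀ ^ (card m + 1)` indices with `n i = m`; `φ i : Gal(QBar/K) → G i` onto, unramified outside `S0`, `n i`, `E`, `h i` a class function on `G i` (of exponent `p`).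
`lz`: `∑ i, W i |∑_{w good, T < nm w ≤ 2 Y / nr (n i), w ∉ n i ∪ E} (h i (φ i (fr w)) - mean of h i)| ≤ Y (log Y) ^ (-A)`.
-/

set_option autoImplicit false

open scoped NumberField Classical
open IsDedekindDomain H63.MA H38.BB NumberField H36.QA H57.LI H57.LC H67.SX H38.ML H57.SL H57.AN
open H57.GP Filter

noncomputable section

namespace H93.UB

variable {K : IntermediateField ℚ QBar} [NumberField K] {ζ : K} {p : ℕ}

/-- one member of the family -/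
structure Lzm (D : RD0 K p ζ) (b : ℕ) (m : Finset (Pl K)) {G : Type} [Group G] [Fintype G]
    (φ : Gal(QBar/K) →* G) (h : G → ℝ) : Prop where
  sur : Function.Surjective φ
  exp : ∀ g : G, g ^ p = 1
  card : p * Fintype.card G ≤ b
  bd : ∀ g, |h g| ≤ b
  cl : ∀ g y, h (g⁻¹ * y * g) = h y
  ft : Ft φ
  ur : ∀ l, l ∉ D.S0 → l ∉ m → Ur φ l

/-- the centred values -/
def cv {G : Type} [Group G] [Fintype G] (φ : Gal(QBar/K) →* G) (h : G → ℝ) (Q : DP K QBar)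
    (w : Pl K) : ℝ := h (φ (fr Q w)) - (Fintype.card G : ℝ)⁻¹ * ∑ g : G, h g

/-- the inner sum -/
def inn (D : RD0 K p ζ) (T x : ℝ) (m : Finset (Pl K)) (F : Pl K → ℝ) : ℝ :=
  ∑ w ∈ (gdY D x).filter (fun w => T < (nm w : ℝ) ∧ w ∉ m), F w

section one

variable {D : RD0 K p ζ} {b : ℕ} {m : Finset (Pl K)} {G : Type} [Group G] [Fintype G]
  {φ : Gal(QBar/K) →* G} {h : G → ℝ}

theorem Lzm.fm (hp : p.Prime) (H : Lzm D b m φ h) : Fm p b D.S0 m φ (fun g => (h g : ℂ)) where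
  card := le_trans (Nat.le_mul_of_pos_left _ hp.pos) H.card
  pg := fun g => ⟨1, by rw [pow_one]; exact H.exp g⟩
  ft := H.ft
  ur := H.ur
  raw := raw_of hp H.exp _ b (fun g => by rw [Complex.norm_real]; exact H.bd g) H.card

theorem Lzm.cv_bd (H : Lzm D b m φ h) (Q : DP K QBar) (w : Pl K) : |cv φ h Q w| ≤ 2 * b := by
  unfold cv
  have h0 : (0 : ℝ) < Fintype.card G := by
    exact_mod_cast Fintype.card_pos
  have h1 : |(Fintype.card G : ℝ)⁻¹ * ∑ g : G, h g| ≤ b := by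
    rw [abs_mul, abs_of_pos (inv_pos.2 h0), inv_mul_le_iff₀ h0]
    refine (Finset.abs_sum_le_sum_abs _ _).trans ((Finset.sum_le_sum fun g _ => H.bd g).trans ?_)
    rw [Finset.sum_const, Finset.card_univ, nsmul_eq_mul]
  have h2 := H.bd (φ (fr Q w))
  have h3 := abs_sub (h (φ (fr Q w))) ((Fintype.card G : ℝ)⁻¹ * ∑ g : G, h g)
  linarith

theorem Lzm.cv_gp (H : Lzm D b m φ h) (Q : DP K QBar) (w : Pl K) :
    ((cv φ h Q w : ℝ) : ℂ) = avg (fun g => (h g : ℂ)) (φ (fr Q w)) - mn φ (fun g => (h g : ℂ)) := by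
  have h1 : ∀ g y : G, ((h (g⁻¹ * y * g) : ℝ) : ℂ) = (h y : ℂ) := fun g y => by rw [H.cl]
  rw [av_cl _ h1, mn_cl φ H.sur _ h1]
  unfold cv
  push_cast
  ring

theorem sg_real (x : ℝ) (T : Finset (Pl K)) (F : Pl K → ℝ) :
    ‖sg x T (fun w => (F w : ℂ))‖ = |∑ w ∈ (PB K x).filter (fun w => w ∉ T), F w| := by
  unfold sg
  rw [← Complex.ofReal_sum, Complex.norm_real, Real.norm_eq_abs]

theorem inn_bd (D : RD0 K p ζ) (T x : ℝ) (m : Finset (Pl K)) (F : Pl K → ℝ) (B : ℝ)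
    (hF : ∀ w, |F w| ≤ B) : |inn D T x m F| ≤ B * (PB K x).card := by
  unfold inn
  have hB : 0 ≤ B ∨ (gdY D x).filter (fun w => T < (nm w : ℝ) ∧ w ∉ m) = ∅ := by
    by_cases h : ((gdY D x).filter (fun w => T < (nm w : ℝ) ∧ w ∉ m)).Nonempty
    · obtain ⟨w, -⟩ := h
      exact Or.inl ((abs_nonneg _).trans (hF w))
    · exact Or.inr (Finset.not_nonempty_iff_eq_empty.1 h)
  have h1 : ((gdY D x).filter (fun w => T < (nm w : ℝ) ∧ w ∉ m)) ⊆ PB K x := by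
    intro w hw
    rw [mem_PB]
    exact (chr_mem.1 (Finset.mem_filter.1 hw).1).1
  refine (Finset.abs_sum_le_sum_abs _ _).trans ((Finset.sum_le_sum fun w _ => hF w).trans ?_)
  rw [Finset.sum_const, nsmul_eq_mul, mul_comm]
  rcases hB with hB | hB
  · exact mul_le_mul_of_nonneg_left (by exact_mod_cast Finset.card_le_card h1) hB
  · rw [hB]
    by_cases h : (PB K x).Nonempty
    · obtain ⟨w, -⟩ := h
      have := (abs_nonneg _).trans (hF w)
      rw [Finset.card_empty, Nat.cast_zero, mul_zero]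
      positivity
    · rw [Finset.not_nonempty_iff_eq_empty.1 h, Finset.card_empty]

/-- the inner sum is the difference of two sums over all primes, up to the primes of non prime norm -/
theorem inn_sg (D : RD0 K p ζ) (T x : ℝ) (m : Finset (Pl K)) (F : Pl K → ℝ) (B : ℝ) (hB : 0 ≤ B)
    (hF : ∀ w, |F w| ≤ B) (hTx : T ≤ x) : |inn D T x m F| ≤
      ‖sg x (D.S0 ∪ m) (fun w => (F w : ℂ))‖ + ‖sg T (D.S0 ∪ m) (fun w => (F w : ℂ))‖ +
        B * ((PB K x).filter fun w => ¬ (nm w).Prime).card := by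
  rw [sg_real, sg_real]
  have h1 : ∑ w ∈ (PB K x).filter (fun w => w ∉ D.S0 ∪ m), F w =
      ∑ w ∈ (PB K T).filter (fun w => w ∉ D.S0 ∪ m), F w + (inn D T x m F +
      ∑ w ∈ ((PB K x).filter (fun w => w ∉ D.S0 ∪ m)).filter (fun w => T < (nm w : ℝ) ∧ ¬ (nm w).Prime), F w) := by
    rw [← Finset.sum_filter_add_sum_filter_not ((PB K x).filter (fun w => w ∉ D.S0 ∪ m))
      (fun w => (nm w : ℝ) ≤ T)]
    congr 1
    · refine Finset.sum_congr ?_ fun _ _ => rfl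
      ext w
      simp only [Finset.mem_filter, mem_PB]
      constructor
      · rintro ⟨⟨_, h2⟩, h3⟩
        exact ⟨h3, h2⟩
      · rintro ⟨h3, h2⟩
        exact ⟨⟨h3.trans hTx, h2⟩, h3⟩
    · rw [← Finset.sum_filter_add_sum_filter_not
        (((PB K x).filter (fun w => w ∉ D.S0 ∪ m)).filter (fun w => ¬ (nm w : ℝ) ≤ T))
        (fun w => (nm w).Prime)]
      congr 1
      · unfold inn
        refine Finset.sum_congr ?_ fun _ _ => rfl
        ext w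
        simp only [Finset.mem_filter, mem_PB, chr_mem, Finset.mem_union, not_or, not_le]
        unfold RD0.Gd
        tauto
      · refine Finset.sum_congr ?_ fun _ _ => rfl
        ext w
        simp only [Finset.mem_filter, mem_PB, not_le]
        tauto
  have h2 : |∑ w ∈ ((PB K x).filter (fun w => w ∉ D.S0 ∪ m)).filter
      (fun w => T < (nm w : ℝ) ∧ ¬ (nm w).Prime), F w| ≤
      B * ((PB K x).filter fun w => ¬ (nm w).Prime).card := by
    refine (Finset.abs_sum_le_sum_abs _ _).trans ((Finset.sum_le_sum fun w _ => hF w).trans ?_)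
    rw [Finset.sum_const, nsmul_eq_mul, mul_comm]
    refine mul_le_mul_of_nonneg_left ?_ hB
    refine Nat.cast_le.2 (Finset.card_le_card ?_)
    intro w
    simp only [Finset.mem_filter, mem_PB]
    tauto
  have h3 : inn D T x m F = ∑ w ∈ (PB K x).filter (fun w => w ∉ D.S0 ∪ m), F w -
      ∑ w ∈ (PB K T).filter (fun w => w ∉ D.S0 ∪ m), F w -
      ∑ w ∈ ((PB K x).filter (fun w => w ∉ D.S0 ∪ m)).filter (fun w => T < (nm w : ℝ) ∧ ¬ (nm w).Prime), F w := by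
    rw [h1]
    ring
  rw [h3]
  refine (abs_sub _ _).trans (add_le_add (abs_sub _ _) h2)

end one

theorem nr_gd {D : RD0 K p ζ} {m : Finset (Pl K)} {X : ℝ} (h : ∀ v ∈ m, D.Gd v) (hX : nr m ≤ X) :
    m ∈ (gdY D X).powerset := by
  rw [Finset.mem_powerset]
  intro v hv
  rw [chr_mem]
  refine ⟨?_, h v hv⟩
  have h1 := nr_mono (Finset.singleton_subset_iff.2 hv)
  have h2 : nr {v} = (nm v : ℝ) := by
    unfold nr
    rw [Finset.prod_singleton]
  rw [h2] at h1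
  exact h1.trans hX

theorem nr_disj {m E : Finset (Pl K)} (h : Disjoint m E) : nr (m ∪ E) = nr m * nr E := by
  unfold nr
  rw [Finset.prod_union h]

theorem two_pow_card (m : Finset (Pl K)) : (2 : ℝ) ^ m.card ≤ nr m := by
  unfold nr
  rw [← Finset.prod_const]
  refine Finset.prod_le_prod (fun _ _ => by norm_num) fun v _ => ?_
  have := one_lt_nm v
  exact_mod_cast (by omega : 2 ≤ nm v)

/-- THE ERROR TERMS OF LEVEL ZERO -/
theorem lz (hsw : SWS) (hp : p.Prime) (hp2 : p ≠ 2) (hζ : IsPrimitiveRoot ζ p) (D : RD0 K p ζ)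
    (b K₀ A₁ A : ℕ) (hK : 1 ≤ K₀) (ε : ℝ) (hε : 0 < ε) (hε1 : ε ≤ 1) : ∃ Y₀ : ℝ, ∀ Y : ℝ, Y₀ ≤ Y →
      ∀ E : Finset (Pl K), nr E ≤ Real.log Y ^ A₁ →
      ∀ (ι : Type) (I : Finset ι) (n : ι → Finset (Pl K)) (W : ι → ℝ),
      (∀ i ∈ I, (∀ v ∈ n i, D.Gd v) ∧ Disjoint (n i) E ∧
        nr (n i) * Real.exp (Real.log Y ^ ε) ≤ 2 * Y) →
      (∀ i ∈ I, 0 ≤ W i ∧ W i ≤ (K₀ : ℝ) ^ ((n i).card + 1)) →
      (∀ m, ((I.filter fun i => n i = m).card : ℝ) ≤ (K₀ : ℝ) ^ (m.card + 1)) →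
      ∀ (G : ι → Type) [∀ i, Group (G i)] [∀ i, Fintype (G i)] (φ : ∀ i, Gal(QBar/K) →* G i)
        (h : ∀ i, G i → ℝ), (∀ i ∈ I, Lzm D b (n i ∪ E) (φ i) (h i)) → ∀ Q : DP K QBar,
      ∑ i ∈ I, W i * |inn D (Real.exp (Real.log Y ^ ε)) (2 * Y / nr (n i)) (n i ∪ E)
        (cv (φ i) (h i) Q)| ≤ Y * Real.log Y ^ (-(A : ℝ)) := by
  obtain ⟨c₁, hc₁, hpb⟩ := card_pb K
  obtain ⟨c₂, hc₂, hnp⟩ := card_np K
  obtain ⟨k, hk⟩ : ∃ k : ℕ, k = 2 * K₀ ^ 2 := ⟨_, rfl⟩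
  obtain ⟨C₁, hC₁, hr⟩ := rkn K k
  obtain ⟨N, hN⟩ : ∃ N : ℕ, N = 2 * (A + k + 2) := ⟨_, rfl⟩
  obtain ⟨C', hC'⟩ : ∃ C' : ℕ, C' = N + 2 * A₁ + (N * K₀ + 1) + 2 := ⟨_, rfl⟩
  obtain ⟨A', hA'⟩ : ∃ A' : ℕ, A' = A + N * K₀ + A₁ + 3 := ⟨_, rfl⟩
  obtain ⟨Y₁, hY₁⟩ := gp hsw hp hp2 hζ D.S0 D.above b C' A' ε hε
  have e1 := ev_log (12 * b * c₁ * K₀ ^ 2 * C₁ * 2 ^ k) ((k : ℝ) - N / 2) (-(A : ℝ)) (by
    rw [hN]
    push_cast
    linarith)
  have e2 := ev_log 12 (((N * K₀ + 1 : ℕ) : ℝ) + (A₁ : ℝ) + -(A' : ℝ)) (-(A : ℝ)) (by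
    rw [hA']
    push_cast
    linarith)
  have e3 := ev_exp (12 * b * c₂ * K₀ ^ 2 * C₁ * 2 ^ k) (k + A) ε (1 / 4) hε (by norm_num)
  have e4 := ev_exp 1 A₁ ε 1 hε one_pos
  have e5 := ev_log K₀ (N * K₀ : ℕ) (N * K₀ + 1 : ℕ) (by exact_mod_cast Nat.lt_succ_self _)
  obtain ⟨Y₀, hY₀⟩ := eventually_atTop.1
    (((((e1.and e2).and e3).and e4).and e5).and ((eventually_ge_atTop Y₁).and (eventually_ge_atTop 3)))
  refine ⟨Y₀, fun Y hY E hE ι I n W hn hW hI G _ _ φ h H Q => ?_⟩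
  obtain ⟨⟨⟨⟨⟨f1, f2⟩, f3⟩, f4⟩, f5⟩, hYY₁, hY3⟩ := hY₀ Y hY
  obtain ⟨L, hL⟩ : ∃ L : ℝ, L = Real.log Y := ⟨_, rfl⟩
  obtain ⟨T, hT⟩ : ∃ T : ℝ, T = Real.exp (L ^ ε) := ⟨_, rfl⟩
  rw [← hL] at f1 f2 f3 f4 f5 hE hn ⊢
  rw [← hT] at hn ⊢
  have hY0 : 0 < Y := by linarith
  have hL1 : 1 ≤ L := by
    rw [hL, Real.le_log_iff_exp_le hY0]
    linarith [Real.exp_one_lt_d9]
  have hL0 : 0 < L := by linarith
  have hT1 : 1 ≤ T := by
    rw [hT]
    exact Real.one_le_exp (Real.rpow_nonneg hL0.le _)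
  have hT0 : 0 < T := by linarith
  have hTY : T ≤ Y := by
    rw [hT, ← Real.exp_log hY0, ← hL]
    refine Real.exp_le_exp.2 ?_
    calc L ^ ε ≤ L ^ (1 : ℝ) := Real.rpow_le_rpow_of_exponent_le hL1 hε1
      _ = L := Real.rpow_one L
  have hLT : L ^ A₁ ≤ T := by
    rw [one_mul, Real.rpow_natCast, one_mul, ← hT] at f4
    exact f4
  have hK1 : (1 : ℝ) ≤ K₀ := by exact_mod_cast hK
  have hℓ : 0 ≤ Real.log L := Real.log_nonneg hL1
  have hnr0 : ∀ m : Finset (Pl K), 0 < nr m := fun m => lt_of_lt_of_le one_pos (one_le_nr m)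
  -- the sum over all sets of primes
  obtain ⟨U, hU⟩ : ∃ U : Finset (Finset (Pl K)), U = (gdY D (2 * Y)).powerset := ⟨_, rfl⟩
  have hnU : ∀ i ∈ I, n i ∈ U := by
    intro i hi
    rw [hU]
    refine nr_gd (hn i hi).1 ?_
    have h1 := (hn i hi).2.2
    have h2 := mul_le_mul_of_nonneg_left hT1 (hnr0 (n i)).le
    linarith
  obtain ⟨S, hS⟩ : ∃ S : ℝ, S = ∑ m ∈ U, (k : ℝ) ^ m.card / nr m := ⟨_, rfl⟩
  have hS1 : S ≤ C₁ * 2 ^ k * L ^ (k : ℝ) := by
    have h1 := hr p ζ D (2 * Y) (by linarith)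
    rw [← hU, ← hS] at h1
    refine h1.trans ?_
    have h2 : Real.log (2 * Y) ≤ 2 * L := by
      rw [Real.log_mul (by norm_num) hY0.ne', ← hL]
      have := Real.log_two_lt_d9
      linarith
    have h3 : 0 ≤ Real.log (2 * Y) := Real.log_nonneg (by linarith)
    rw [Real.rpow_natCast, mul_assoc, ← mul_pow]
    exact mul_le_mul_of_nonneg_left (pow_le_pow_left₀ h3 h2 _) hC₁.le
  have hS0 : 0 ≤ S := by
    rw [hS]
    exact Finset.sum_nonneg fun m _ => div_nonneg (by positivity) (hnr0 m).le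
  -- multiplicities
  have hKk : ∀ m : Finset (Pl K), (K₀ : ℝ) ^ (m.card + 1) * (K₀ : ℝ) ^ (m.card + 1) * 2 ^ m.card =
      K₀ ^ 2 * (k : ℝ) ^ m.card := by
    intro m
    rw [hk]
    push_cast
    rw [mul_pow, ← pow_mul]
    ring
  have hKk' : ∀ m : Finset (Pl K), (K₀ : ℝ) ^ (m.card + 1) * (K₀ : ℝ) ^ (m.card + 1) ≤
      K₀ ^ 2 * (k : ℝ) ^ m.card := by
    intro m
    rw [← hKk]
    refine le_mul_of_one_le_right (by positivity) (one_le_pow₀ (by norm_num))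
  -- the points
  have hx : ∀ i ∈ I, T ≤ 2 * Y / nr (n i) ∧ 2 * Y / nr (n i) ≤ 2 * Y := by
    intro i hi
    constructor
    · rw [le_div_iff₀ (hnr0 _), mul_comm]
      exact (hn i hi).2.2
    · exact div_le_self (by linarith) (one_le_nr _)
  -- the trivial bound
  have htriv : ∀ i ∈ I, W i * |inn D T (2 * Y / nr (n i)) (n i ∪ E) (cv (φ i) (h i) Q)| ≤
      (K₀ : ℝ) ^ ((n i).card + 1) * (4 * b * c₁ * Y / nr (n i)) := by
    intro i hi
    have h1 := inn_bd D T (2 * Y / nr (n i)) (n i ∪ E) (cv (φ i) (h i) Q) (2 * b)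
      ((H i hi).cv_bd Q)
    have h2 := hpb (2 * Y / nr (n i)) (hT1.trans (hx i hi).1)
    have h3 : |inn D T (2 * Y / nr (n i)) (n i ∪ E) (cv (φ i) (h i) Q)| ≤
        4 * b * c₁ * Y / nr (n i) := by
      refine h1.trans ((mul_le_mul_of_nonneg_left h2 (by positivity)).trans (le_of_eq ?_))
      ring
    exact mul_le_mul (hW i hi).2 h3 (abs_nonneg _) (by positivity)
  -- the indices with many primes
  obtain ⟨I₁, hI₁⟩ : ∃ I₁ : Finset ι, I₁ = I.filter fun i => N * Real.log L < (n i).card := ⟨_, rfl⟩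
  obtain ⟨I₂, hI₂⟩ : ∃ I₂ : Finset ι, I₂ = I.filter fun i => ¬ N * Real.log L < (n i).card := ⟨_, rfl⟩
  have hI₁s : ∀ i ∈ I₁, i ∈ I ∧ N * Real.log L < (n i).card := by
    intro i hi
    rw [hI₁] at hi
    exact Finset.mem_filter.1 hi
  have hI₂s : ∀ i ∈ I₂, i ∈ I ∧ ((n i).card : ℝ) ≤ N * Real.log L := by
    intro i hi
    rw [hI₂] at hi
    exact ⟨(Finset.mem_filter.1 hi).1, not_lt.1 (Finset.mem_filter.1 hi).2⟩
  have hpart1 : ∑ i ∈ I₁, W i * |inn D T (2 * Y / nr (n i)) (n i ∪ E) (cv (φ i) (h i) Q)| ≤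
      1 / 3 * (Y * L ^ (-(A : ℝ))) := by
    have h1 : ∑ i ∈ I₁, W i * |inn D T (2 * Y / nr (n i)) (n i ∪ E) (cv (φ i) (h i) Q)| ≤
        ∑ i ∈ I₁, (K₀ : ℝ) ^ ((n i).card + 1) * (4 * b * c₁ * Y / nr (n i)) :=
      Finset.sum_le_sum fun i hi => htriv i (hI₁s i hi).1
    have h2 := mult I₁ n U (fun i hi => hnU i (hI₁s i hi).1)
      (fun m => if N * Real.log L < m.card then (K₀ : ℝ) ^ (m.card + 1) else 0) (by
        intro m
        split_ifs with hm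
        · refine le_trans (Nat.cast_le.2 (Finset.card_le_card ?_)) (hI m)
          intro i hi
          rw [Finset.mem_filter] at hi ⊢
          exact ⟨(hI₁s i hi.1).1, hi.2⟩
        · have h5 : (I₁.filter fun i => n i = m) = ∅ := by
            rw [Finset.filter_eq_empty_iff]
            rintro i hi rfl
            exact hm (hI₁s i hi).2
          rw [h5, Finset.card_empty, Nat.cast_zero])
      (fun m => (K₀ : ℝ) ^ (m.card + 1) * (4 * b * c₁ * Y / nr m))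
      (fun m _ => mul_nonneg (by positivity) (div_nonneg (by positivity) (hnr0 m).le))
    have h3 : ∑ m ∈ U, (if N * Real.log L < m.card then (K₀ : ℝ) ^ (m.card + 1) else 0) *
        ((K₀ : ℝ) ^ (m.card + 1) * (4 * b * c₁ * Y / nr m)) ≤
        ∑ m ∈ U, 4 * b * c₁ * Y * K₀ ^ 2 * L ^ (-(N / 2 : ℝ)) * ((k : ℝ) ^ m.card / nr m) := by
      refine Finset.sum_le_sum fun m _ => ?_
      have hm0 := hnr0 m
      split_ifs with hm
      · have h4 : L ^ (N / 2 : ℝ) ≤ 2 ^ m.card := by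
          rw [Real.rpow_def_of_pos hL0, ← Real.exp_log (show (0 : ℝ) < 2 ^ m.card by positivity),
            Real.log_pow]
          refine Real.exp_le_exp.2 ?_
          have h5 := Real.log_two_gt_d9
          have h6 : (m.card : ℝ) * (1 / 2) ≤ m.card * Real.log 2 :=
            mul_le_mul_of_nonneg_left (by linarith) (Nat.cast_nonneg _)
          linarith
        have h5 : (K₀ : ℝ) ^ (m.card + 1) * (K₀ : ℝ) ^ (m.card + 1) ≤
            K₀ ^ 2 * (k : ℝ) ^ m.card * L ^ (-(N / 2 : ℝ)) := by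
          rw [Real.rpow_neg hL0.le, ← div_eq_mul_inv, le_div_iff₀ (Real.rpow_pos_of_pos hL0 _),
            ← hKk]
          exact mul_le_mul_of_nonneg_left h4 (by positivity)
        calc (K₀ : ℝ) ^ (m.card + 1) * ((K₀ : ℝ) ^ (m.card + 1) * (4 * b * c₁ * Y / nr m))
            = (K₀ : ℝ) ^ (m.card + 1) * (K₀ : ℝ) ^ (m.card + 1) * (4 * b * c₁ * Y / nr m) := by ring
          _ ≤ K₀ ^ 2 * (k : ℝ) ^ m.card * L ^ (-(N / 2 : ℝ)) * (4 * b * c₁ * Y / nr m) :=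
              mul_le_mul_of_nonneg_right h5 (by positivity)
          _ = _ := by ring
      · rw [zero_mul]
        have := Real.rpow_nonneg hL0.le (-(N / 2 : ℝ))
        positivity
    rw [← Finset.mul_sum, ← hS] at h3
    have h4 : 4 * b * c₁ * Y * K₀ ^ 2 * L ^ (-(N / 2 : ℝ)) * S ≤
        4 * b * c₁ * Y * K₀ ^ 2 * L ^ (-(N / 2 : ℝ)) * (C₁ * 2 ^ k * L ^ (k : ℝ)) := by
      have := Real.rpow_nonneg hL0.le (-(N / 2 : ℝ))
      exact mul_le_mul_of_nonneg_left hS1 (by positivity)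
    have h5 : L ^ (-(N / 2 : ℝ)) * L ^ (k : ℝ) = L ^ ((k : ℝ) - N / 2) := by
      rw [← Real.rpow_add hL0]
      congr 1
      ring
    calc _ ≤ _ := h1
      _ ≤ _ := h2
      _ ≤ _ := h3
      _ ≤ _ := h4
      _ = 1 / 3 * (Y * (12 * b * c₁ * K₀ ^ 2 * C₁ * 2 ^ k * (L ^ (-(N / 2 : ℝ)) * L ^ (k : ℝ)))) := by
          ring
      _ ≤ 1 / 3 * (Y * L ^ (-(A : ℝ))) := by
          rw [h5]
          exact mul_le_mul_of_nonneg_left (mul_le_mul_of_nonneg_left f1 hY0.le) (by norm_num)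
  have hmul2 : ∀ m, ((I₂.filter fun i => n i = m).card : ℝ) ≤ (K₀ : ℝ) ^ (m.card + 1) := by
    intro m
    refine le_trans ?_ (hI m)
    refine Nat.cast_le.2 (Finset.card_le_card ?_)
    intro i hi
    rw [Finset.mem_filter] at hi ⊢
    exact ⟨(hI₂s i hi.1).1, hi.2⟩
  have hpart2 : ∑ i ∈ I₂, W i * (2 * b * ((PB K (2 * Y / nr (n i))).filter
      fun w => ¬ (nm w).Prime).card) ≤ 1 / 3 * (Y * L ^ (-(A : ℝ))) := by
    obtain ⟨τ, hτ⟩ : ∃ τ : ℝ, τ = T ^ (-(1 / 4) : ℝ) := ⟨_, rfl⟩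
    have hτ0 : 0 < τ := by
      rw [hτ]
      exact Real.rpow_pos_of_pos hT0 _
    have h1 : ∑ i ∈ I₂, W i * (2 * b * ((PB K (2 * Y / nr (n i))).filter
        fun w => ¬ (nm w).Prime).card) ≤
        ∑ i ∈ I₂, (K₀ : ℝ) ^ ((n i).card + 1) * (4 * b * c₂ * Y * τ / nr (n i)) := by
      refine Finset.sum_le_sum fun i hi => ?_
      have hi' := (hI₂s i hi).1
      refine mul_le_mul (hW i hi').2 ?_ (by positivity) (by positivity)
      have h2 := hnp (2 * Y / nr (n i)) (hT1.trans (hx i hi').1)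
      have hx0 : 0 < 2 * Y / nr (n i) := lt_of_lt_of_le hT0 (hx i hi').1
      have h3 : (2 * Y / nr (n i)) ^ (3 / 4 : ℝ) ≤ 2 * Y / nr (n i) * τ := by
        have h4 : (2 * Y / nr (n i)) ^ (3 / 4 : ℝ) =
            2 * Y / nr (n i) * (2 * Y / nr (n i)) ^ (-(1 / 4) : ℝ) := by
          nth_rewrite 2 [← Real.rpow_one (2 * Y / nr (n i))]
          rw [← Real.rpow_add hx0]
          norm_num
        rw [h4, hτ]
        refine mul_le_mul_of_nonneg_left ?_ hx0.le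
        exact Real.rpow_le_rpow_of_nonpos hT0 (hx i hi').1 (by norm_num)
      calc 2 * b * (((PB K (2 * Y / nr (n i))).filter fun w => ¬ (nm w).Prime).card : ℝ)
          ≤ 2 * b * (c₂ * (2 * Y / nr (n i) * τ)) :=
            mul_le_mul_of_nonneg_left (h2.trans (mul_le_mul_of_nonneg_left h3 (by linarith)))
              (by positivity)
        _ = _ := by ring
    have h2 := mult I₂ n U (fun i hi => hnU i (hI₂s i hi).1) (fun m => (K₀ : ℝ) ^ (m.card + 1))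
      hmul2 (fun m => (K₀ : ℝ) ^ (m.card + 1) * (4 * b * c₂ * Y * τ / nr m))
      (fun m _ => mul_nonneg (by positivity) (div_nonneg (by positivity) (hnr0 m).le))
    have h3 : ∑ m ∈ U, (K₀ : ℝ) ^ (m.card + 1) *
        ((K₀ : ℝ) ^ (m.card + 1) * (4 * b * c₂ * Y * τ / nr m)) ≤
        ∑ m ∈ U, 4 * b * c₂ * Y * K₀ ^ 2 * τ * ((k : ℝ) ^ m.card / nr m) := by
      refine Finset.sum_le_sum fun m _ => ?_
      have hm0 := hnr0 m
      calc (K₀ : ℝ) ^ (m.card + 1) * ((K₀ : ℝ) ^ (m.card + 1) * (4 * b * c₂ * Y * τ / nr m))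
          = (K₀ : ℝ) ^ (m.card + 1) * (K₀ : ℝ) ^ (m.card + 1) * (4 * b * c₂ * Y * τ / nr m) := by ring
        _ ≤ K₀ ^ 2 * (k : ℝ) ^ m.card * (4 * b * c₂ * Y * τ / nr m) :=
            mul_le_mul_of_nonneg_right (hKk' m) (by positivity)
        _ = _ := by ring
    rw [← Finset.mul_sum, ← hS] at h3
    have h4 : 4 * b * c₂ * Y * K₀ ^ 2 * τ * S ≤
        4 * b * c₂ * Y * K₀ ^ 2 * τ * (C₁ * 2 ^ k * L ^ (k : ℝ)) :=
      mul_le_mul_of_nonneg_left hS1 (by positivity)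
    have h5 : 12 * b * c₂ * K₀ ^ 2 * C₁ * 2 ^ k * (L ^ (k : ℝ) * τ) ≤ L ^ (-(A : ℝ)) := by
      have h6 : T ^ (1 / 4 : ℝ) = Real.exp (1 / 4 * L ^ ε) := by
        rw [hT, ← Real.exp_mul, mul_comm]
      rw [← h6] at f3
      have h7 : τ = (T ^ (1 / 4 : ℝ))⁻¹ := by
        rw [hτ, ← Real.rpow_neg hT0.le]
      have h8 : 0 < T ^ (1 / 4 : ℝ) := Real.rpow_pos_of_pos hT0 _
      have h9 : 0 < L ^ (A : ℝ) := Real.rpow_pos_of_pos hL0 _
      rw [h7, Real.rpow_neg hL0.le, ← div_eq_mul_inv, ← mul_div_assoc, div_le_iff₀ h8,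
        inv_mul_eq_div, le_div_iff₀ h9]
      refine le_trans (le_of_eq ?_) f3
      rw [Real.rpow_add hL0]
      ring
    calc _ ≤ _ := h1
      _ ≤ _ := h2
      _ ≤ _ := h3
      _ ≤ _ := h4
      _ = 1 / 3 * (Y * (12 * b * c₂ * K₀ ^ 2 * C₁ * 2 ^ k * (L ^ (k : ℝ) * τ))) := by ring
      _ ≤ 1 / 3 * (Y * L ^ (-(A : ℝ))) :=
          mul_le_mul_of_nonneg_left (mul_le_mul_of_nonneg_left h5 hY0.le) (by norm_num)
  have hpart3 : ∑ i ∈ I₂, W i * (‖sg (2 * Y / nr (n i)) (D.S0 ∪ (n i ∪ E))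
      (fun w => (cv (φ i) (h i) Q w : ℂ))‖ + ‖sg T (D.S0 ∪ (n i ∪ E))
      (fun w => (cv (φ i) (h i) Q w : ℂ))‖) ≤ 1 / 3 * (Y * L ^ (-(A : ℝ))) := by
    -- cardinalities
    have hcE : (E.card : ℝ) ≤ 2 * A₁ * Real.log L := by
      have h1 := (two_pow_card E).trans hE
      have h2 := Real.log_le_log (by positivity) h1
      rw [Real.log_pow, Real.log_pow] at h2
      have h3 := Real.log_two_gt_d9
      have h4 : (E.card : ℝ) * (1 / 2) ≤ E.card * Real.log 2 :=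
        mul_le_mul_of_nonneg_left (by linarith) (Nat.cast_nonneg _)
      linarith
    have hpow : ∀ m : ℕ, (m : ℝ) ≤ N * Real.log L →
        (K₀ : ℝ) ^ (m + 1) ≤ L ^ ((N * K₀ + 1 : ℕ) : ℝ) := by
      intro m hm
      have h1 : (K₀ : ℝ) ^ m ≤ L ^ ((N * K₀ : ℕ) : ℝ) := by
        rw [Real.rpow_def_of_pos hL0, ← Real.exp_log (show (0 : ℝ) < (K₀ : ℝ) ^ m by positivity),
          Real.log_pow]
        refine Real.exp_le_exp.2 ?_
        have h2 : Real.log K₀ ≤ K₀ := by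
          have := Real.log_le_sub_one_of_pos (show (0 : ℝ) < K₀ by linarith)
          linarith
        have h3 : 0 ≤ Real.log (K₀ : ℝ) := Real.log_nonneg hK1
        push_cast
        calc (m : ℝ) * Real.log K₀ ≤ N * Real.log L * K₀ :=
              mul_le_mul hm h2 h3 (by positivity)
          _ = _ := by ring
      rw [pow_succ, mul_comm]
      exact (mul_le_mul_of_nonneg_left h1 (by positivity)).trans f5
    have hC'0 : (0 : ℝ) ≤ (C' : ℝ) := Nat.cast_nonneg _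
    -- the hypotheses of `gp`
    have g1 : ∀ i ∈ I₂, nr (n i ∪ E) ≤ Y ^ C' ∧
        (((n i ∪ E).card : ℕ) : ℝ) ≤ C' * Real.log (Real.log Y) := by
      intro i hi
      have hi' := (hI₂s i hi).1
      constructor
      · rw [nr_disj (hn i hi').2.1]
        have h1 : nr (n i) * nr E ≤ 2 * Y := by
          refine le_trans ?_ (hn i hi').2.2
          exact mul_le_mul_of_nonneg_left (hE.trans hLT) (hnr0 _).le
        refine h1.trans ?_
        calc 2 * Y ≤ Y * Y := mul_le_mul_of_nonneg_right (by linarith) hY0.le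
          _ = Y ^ 2 := by ring
          _ ≤ Y ^ C' := pow_le_pow_right₀ (by linarith) (by omega)
      · rw [← hL, hC']
        have h1 : ((n i ∪ E).card : ℝ) ≤ (n i).card + E.card := by
          exact_mod_cast Finset.card_union_le _ _
        have h2 := (hI₂s i hi).2
        push_cast
        have h3 : (0 : ℝ) ≤ (N * K₀ + 1 + 2) * Real.log L := by positivity
        nlinarith
    have g2 : ∀ i ∈ I₂, Real.exp (Real.log Y ^ ε) ≤ 2 * Y / nr (n i) ∧
        2 * Y / nr (n i) ≤ Y ^ C' := by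
      intro i hi
      have hi' := (hI₂s i hi).1
      rw [← hL, ← hT]
      refine ⟨(hx i hi').1, (hx i hi').2.trans ?_⟩
      calc 2 * Y ≤ Y * Y := mul_le_mul_of_nonneg_right (by linarith) hY0.le
        _ = Y ^ 2 := by ring
        _ ≤ Y ^ C' := pow_le_pow_right₀ (by linarith) (by omega)
    have g2' : ∀ i ∈ I₂, Real.exp (Real.log Y ^ ε) ≤ T ∧ T ≤ Y ^ C' := by
      intro i _
      rw [← hL, ← hT]
      refine ⟨le_rfl, hTY.trans ?_⟩
      calc Y = Y ^ 1 := by ring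
        _ ≤ Y ^ C' := pow_le_pow_right₀ (by linarith) (by omega)
    have g3 : ∀ m, ((I₂.filter fun i => n i ∪ E = m).card : ℝ) ≤ Real.log Y ^ C' := by
      intro m
      rw [← hL]
      by_cases hne : (I₂.filter fun i => n i ∪ E = m).Nonempty
      · obtain ⟨j, hj⟩ := hne
        rw [Finset.mem_filter] at hj
        have h1 : (I₂.filter fun i => n i ∪ E = m) ⊆ I₂.filter fun i => n i = n j := by
          intro i hi
          rw [Finset.mem_filter] at hi ⊢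
          refine ⟨hi.1, ?_⟩
          have h2 := (hn i (hI₂s i hi.1).1).2.1
          have h3 := (hn j (hI₂s j hj.1).1).2.1
          have h4 : n i ∪ E = n j ∪ E := hi.2.trans hj.2.symm
          ext v
          have h5 : v ∈ n i ∪ E ↔ v ∈ n j ∪ E := by rw [h4]
          rw [Finset.mem_union, Finset.mem_union] at h5
          constructor
          · intro hv
            exact (h5.1 (Or.inl hv)).resolve_right (Finset.disjoint_left.1 h2 hv)
          · intro hv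
            exact (h5.2 (Or.inl hv)).resolve_right (Finset.disjoint_left.1 h3 hv)
        refine le_trans (Nat.cast_le.2 (Finset.card_le_card h1)) ((hmul2 (n j)).trans ?_)
        refine (hpow _ (hI₂s j hj.1).2).trans ?_
        rw [Real.rpow_natCast]
        exact pow_le_pow_right₀ hL1 (by omega)
      · rw [Finset.not_nonempty_iff_eq_empty.1 hne, Finset.card_empty, Nat.cast_zero]
        positivity
    have g4 : ∀ i ∈ I₂, Fm p b D.S0 (n i ∪ E) (φ i) (fun g => (h i g : ℂ)) :=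
      fun i hi => (H i (hI₂s i hi).1).fm hp
    have G1 := hY₁ Y hYY₁ ι I₂ (fun i => n i ∪ E) (fun i => 2 * Y / nr (n i)) g1 g2 g3 G φ
      (fun i g => (h i g : ℂ)) g4 Q
    have G2 := hY₁ Y hYY₁ ι I₂ (fun i => n i ∪ E) (fun _ => T) g1 g2' g3 G φ
      (fun i g => (h i g : ℂ)) g4 Q
    have hcv : ∀ i ∈ I₂, (fun w => avg (fun g => (h i g : ℂ)) (φ i (fr Q w)) -
        mn (φ i) (fun g => (h i g : ℂ))) = fun w => (cv (φ i) (h i) Q w : ℂ) := by
      intro i hi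
      funext w
      exact ((H i (hI₂s i hi).1).cv_gp Q w).symm
    rw [← hL] at G1 G2
    obtain ⟨M, hM⟩ : ∃ M : ℝ, M = L ^ ((N * K₀ + 1 : ℕ) : ℝ) * (L ^ A₁ * (2 * Y)) := ⟨_, rfl⟩
    have hM0 : 0 ≤ M := by
      rw [hM]
      have := Real.rpow_nonneg hL0.le ((N * K₀ + 1 : ℕ) : ℝ)
      positivity
    -- one summand
    have hone : ∀ i ∈ I₂, ∀ x : ℝ, T ≤ x → nr (n i) * x ≤ 2 * Y →
        W i * ‖sg x (D.S0 ∪ (n i ∪ E)) (fun w => (cv (φ i) (h i) Q w : ℂ))‖ ≤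
        M * ((nr (n i ∪ E))⁻¹ * x⁻¹ * ‖sg x (D.S0 ∪ (n i ∪ E))
          (fun w => avg (fun g => (h i g : ℂ)) (φ i (fr Q w)) -
            mn (φ i) (fun g => (h i g : ℂ)))‖) := by
      intro i hi x hTx hnx
      have hi' := (hI₂s i hi).1
      rw [hcv i hi, nr_disj (hn i hi').2.1]
      obtain ⟨s, hs⟩ : ∃ s : ℝ, s = ‖sg x (D.S0 ∪ (n i ∪ E))
        (fun w => (cv (φ i) (h i) Q w : ℂ))‖ := ⟨_, rfl⟩
      have hs0 : 0 ≤ s := by
        rw [hs]
        exact norm_nonneg _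
      rw [← hs]
      have hx0 : 0 < x := lt_of_lt_of_le hT0 hTx
      have hn0 := hnr0 (n i)
      have hE0 := hnr0 E
      have h1 : 1 ≤ L ^ A₁ * (2 * Y) * ((nr (n i) * nr E)⁻¹ * x⁻¹) := by
        rw [← mul_inv, ← div_eq_mul_inv, one_le_div (by positivity)]
        calc nr (n i) * nr E * x = nr E * (nr (n i) * x) := by ring
          _ ≤ L ^ A₁ * (2 * Y) := mul_le_mul hE hnx (by positivity) (by positivity)
      have h2 : W i ≤ L ^ ((N * K₀ + 1 : ℕ) : ℝ) := (hW i hi').2.trans (hpow _ (hI₂s i hi).2)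
      have h3 : 0 ≤ L ^ ((N * K₀ + 1 : ℕ) : ℝ) := Real.rpow_nonneg hL0.le _
      calc W i * s ≤ L ^ ((N * K₀ + 1 : ℕ) : ℝ) * s := mul_le_mul_of_nonneg_right h2 hs0
        _ = L ^ ((N * K₀ + 1 : ℕ) : ℝ) * s * 1 := (mul_one _).symm
        _ ≤ L ^ ((N * K₀ + 1 : ℕ) : ℝ) * s *
            (L ^ A₁ * (2 * Y) * ((nr (n i) * nr E)⁻¹ * x⁻¹)) :=
              mul_le_mul_of_nonneg_left h1 (by positivity)
        _ = _ := by
            rw [hM]
            ring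
    have hsum : ∑ i ∈ I₂, W i * (‖sg (2 * Y / nr (n i)) (D.S0 ∪ (n i ∪ E))
        (fun w => (cv (φ i) (h i) Q w : ℂ))‖ + ‖sg T (D.S0 ∪ (n i ∪ E))
        (fun w => (cv (φ i) (h i) Q w : ℂ))‖) ≤ M * L ^ (-(A' : ℝ)) + M * L ^ (-(A' : ℝ)) := by
      have h1 : ∀ i, W i * (‖sg (2 * Y / nr (n i)) (D.S0 ∪ (n i ∪ E))
          (fun w => (cv (φ i) (h i) Q w : ℂ))‖ + ‖sg T (D.S0 ∪ (n i ∪ E))
          (fun w => (cv (φ i) (h i) Q w : ℂ))‖) = W i * ‖sg (2 * Y / nr (n i)) (D.S0 ∪ (n i ∪ E))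
          (fun w => (cv (φ i) (h i) Q w : ℂ))‖ + W i * ‖sg T (D.S0 ∪ (n i ∪ E))
          (fun w => (cv (φ i) (h i) Q w : ℂ))‖ := fun i => mul_add _ _ _
      rw [Finset.sum_congr rfl fun i _ => h1 i, Finset.sum_add_distrib]
      refine add_le_add ?_ ?_
      · refine le_trans (Finset.sum_le_sum fun i hi => hone i hi (2 * Y / nr (n i))
          (hx i (hI₂s i hi).1).1 ?_) ?_
        · rw [mul_div_cancel₀ _ (hnr0 (n i)).ne']
        · rw [← Finset.mul_sum]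
          exact mul_le_mul_of_nonneg_left G1 hM0
      · refine le_trans (Finset.sum_le_sum fun i hi => hone i hi T le_rfl
          (hn i (hI₂s i hi).1).2.2) ?_
        rw [← Finset.mul_sum]
        exact mul_le_mul_of_nonneg_left G2 hM0
    refine hsum.trans ?_
    have h1 : M * L ^ (-(A' : ℝ)) + M * L ^ (-(A' : ℝ)) =
        4 * Y * (L ^ ((N * K₀ + 1 : ℕ) : ℝ) * L ^ (A₁ : ℝ) * L ^ (-(A' : ℝ))) := by
      rw [hM, ← Real.rpow_natCast L A₁]
      ring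
    rw [h1, ← Real.rpow_add hL0, ← Real.rpow_add hL0]
    calc 4 * Y * L ^ (((N * K₀ + 1 : ℕ) : ℝ) + (A₁ : ℝ) + -(A' : ℝ))
        = 1 / 3 * (Y * (12 * L ^ (((N * K₀ + 1 : ℕ) : ℝ) + (A₁ : ℝ) + -(A' : ℝ)))) := by ring
      _ ≤ 1 / 3 * (Y * L ^ (-(A : ℝ))) :=
          mul_le_mul_of_nonneg_left (mul_le_mul_of_nonneg_left f2 hY0.le) (by norm_num)
  have hsplit : ∑ i ∈ I, W i * |inn D T (2 * Y / nr (n i)) (n i ∪ E) (cv (φ i) (h i) Q)| =
      ∑ i ∈ I₁, W i * |inn D T (2 * Y / nr (n i)) (n i ∪ E) (cv (φ i) (h i) Q)| +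
      ∑ i ∈ I₂, W i * |inn D T (2 * Y / nr (n i)) (n i ∪ E) (cv (φ i) (h i) Q)| := by
    rw [hI₁, hI₂]
    exact (Finset.sum_filter_add_sum_filter_not _ _ _).symm
  rw [hsplit]
  have hpart4 : ∑ i ∈ I₂, W i * |inn D T (2 * Y / nr (n i)) (n i ∪ E) (cv (φ i) (h i) Q)| ≤
      ∑ i ∈ I₂, W i * (‖sg (2 * Y / nr (n i)) (D.S0 ∪ (n i ∪ E))
      (fun w => (cv (φ i) (h i) Q w : ℂ))‖ + ‖sg T (D.S0 ∪ (n i ∪ E))
      (fun w => (cv (φ i) (h i) Q w : ℂ))‖) +
      ∑ i ∈ I₂, W i * (2 * b * ((PB K (2 * Y / nr (n i))).filter fun w => ¬ (nm w).Prime).card) := by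
    rw [← Finset.sum_add_distrib]
    refine Finset.sum_le_sum fun i hi => ?_
    have hi' := (hI₂s i hi).1
    rw [← mul_add]
    refine mul_le_mul_of_nonneg_left ?_ (hW i hi').1
    exact inn_sg D T (2 * Y / nr (n i)) (n i ∪ E) (cv (φ i) (h i) Q) (2 * b) (by positivity)
      ((H i hi').cv_bd Q) (hx i hi').1
  linarith

end H93.UB
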