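import Pool.Agent.H57.GP.Tel

/-!
# [H93 UB RW] functions on a finite group of exponent `p` are combinations of characters of subgroups

`raw_of`: `f : G → ℂ`, `g ^ p = 1` for all `g : G`, `‖f g‖ ≤ b`, `p * card G ≤ b`: `Raw p b f`.
-/

set_option autoImplicit false

open scoped Classical

noncomputable section

namespace H93.UB

open H63.MA H57.GP

/-- the logarithm to the base `g` -/
def lo {p : ℕ} {G : Type} [Group G] (g y : G) : ZMod p :=
  if h : g ≠ 1 ∧ ∃ k : ZMod p, g ^ k.val = y then h.2.choose else 0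

section lo

variable {p : ℕ} {G : Type} [Group G]

theorem pow_val_add (hp : p.Prime) {g : G} (hg : g ^ p = 1) (a b : ZMod p) :
    g ^ (a + b).val = g ^ a.val * g ^ b.val := by
  have : NeZero p := ⟨hp.ne_zero⟩
  rw [← pow_add, ZMod.val_add, ← pow_mod_orderOf g (a.val + b.val),
    ← pow_mod_orderOf g ((a.val + b.val) % p), Nat.mod_mod_of_dvd _ (orderOf_dvd_of_pow_eq_one hg)]

theorem lo_eq (hp : p.Prime) {g y : G} (hg : g ^ p = 1) (h1 : g ≠ 1) {k : ZMod p}
    (hy : g ^ k.val = y) : (lo g y : ZMod p) = k := by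
  have : NeZero p := ⟨hp.ne_zero⟩
  have : Fact p.Prime := ⟨hp⟩
  have hk : g ≠ 1 ∧ ∃ j : ZMod p, g ^ j.val = y := ⟨h1, k, hy⟩
  unfold lo
  rw [dif_pos hk]
  have h2 : g ^ (hk.2.choose).val = g ^ k.val := hk.2.choose_spec.trans hy.symm
  have ho : orderOf g = p := orderOf_eq_prime hg h1
  have h3 : hk.2.choose.val = k.val :=
    pow_injOn_Iio_orderOf (by rw [Set.mem_Iio, ho]; exact ZMod.val_lt _)
      (by rw [Set.mem_Iio, ho]; exact ZMod.val_lt _) h2
  exact ZMod.val_injective p h3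

theorem mem_zp (hp : p.Prime) {g y : G} (hg : g ^ p = 1) (hy : y ∈ Subgroup.zpowers g) :
    ∃ k : ZMod p, g ^ k.val = y := by
  have : NeZero p := ⟨hp.ne_zero⟩
  obtain ⟨n, rfl⟩ := Subgroup.mem_zpowers_iff.1 hy
  refine ⟨(n : ZMod p), ?_⟩
  have h1 : (((n : ZMod p).val : ℕ) : ℤ) ≡ n [ZMOD p] := by
    rw [← ZMod.intCast_eq_intCast_iff]
    simp
  have h2 : g ^ ((((n : ZMod p).val : ℕ) : ℤ)) = g ^ n := by
    rw [zpow_eq_zpow_iff_modEq]
    exact h1.of_dvd (by exact_mod_cast orderOf_dvd_of_pow_eq_one hg)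
  rw [← h2, zpow_natCast]

theorem lo_add (hp : p.Prime) {g : G} (hg : g ^ p = 1) :
    Lc (Subgroup.zpowers g) (fun y => (lo g y : ZMod p)) := by
  intro a ha b hb
  by_cases h1 : g = 1
  · subst h1
    simp [lo]
  · obtain ⟨k, rfl⟩ := mem_zp hp hg ha
    obtain ⟨l, rfl⟩ := mem_zp hp hg hb
    simp only
    rw [← pow_val_add hp hg, lo_eq hp hg h1 rfl, lo_eq hp hg h1 rfl, lo_eq hp hg h1 rfl]

theorem lo_inj (hp : p.Prime) {g y : G} (hg : g ^ p = 1) (hy : y ∈ Subgroup.zpowers g)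
    (h : (lo g y : ZMod p) = lo g g) : y = g := by
  by_cases h1 : g = 1
  · subst h1
    rwa [Subgroup.zpowers_one_eq_bot, Subgroup.mem_bot] at hy
  · obtain ⟨k, hk⟩ := mem_zp hp hg hy
    obtain ⟨l, hl⟩ := mem_zp hp hg (Subgroup.mem_zpowers g)
    have h2 : (lo g y : ZMod p) = k := lo_eq hp hg h1 hk
    have h3 : (lo g g : ZMod p) = l := lo_eq hp hg h1 hl
    rw [h2, h3] at h
    rw [← hk, h, hl]

end lo

theorem raw_of {p : ℕ} (hp : p.Prime) {G : Type} [Group G] [Fintype G] (hG : ∀ g : G, g ^ p = 1)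
    (f : G → ℂ) (b : ℕ) (hb : ∀ g, ‖f g‖ ≤ b) (hc : p * Fintype.card G ≤ b) : Raw p b f := by
  have : NeZero p := ⟨hp.ne_zero⟩
  have hp0 : (p : ℂ) ≠ 0 := Nat.cast_ne_zero.2 hp.ne_zero
  -- the indicator function of an element
  have hd : ∀ g y : G, (∑ a : ZMod p, (p : ℂ)⁻¹ * ep p (-(a * lo g g)) *
      th (Subgroup.zpowers g) (fun z => a * lo g z) y) = if y = g then 1 else 0 := by
    intro g y
    by_cases hy : y ∈ Subgroup.zpowers g
    · have h1 : ∀ a : ZMod p, (p : ℂ)⁻¹ * ep p (-(a * lo g g)) *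
          th (Subgroup.zpowers g) (fun z => a * lo g z) y =
          (p : ℂ)⁻¹ * ep p (a * (lo g y - lo g g)) := by
        intro a
        unfold th
        rw [if_pos hy, mul_assoc, ← ep_add hp]
        congr 2
        ring
      rw [Finset.sum_congr rfl fun a _ => h1 a, ← Finset.mul_sum, ep_sum hp]
      by_cases h2 : y = g
      · subst h2
        rw [sub_self, if_pos rfl, if_pos rfl, inv_mul_cancel₀ hp0]
      · rw [if_neg h2, if_neg, mul_zero]
        intro h3
        exact h2 (lo_inj hp (hG g) hy (sub_eq_zero.1 h3))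
    · have h2 : ¬ y = g := by
        rintro rfl
        exact hy (Subgroup.mem_zpowers y)
      rw [if_neg h2]
      refine Finset.sum_eq_zero fun a _ => ?_
      unfold th
      rw [if_neg hy, mul_zero]
  have hcard : Fintype.card ((ZMod p × G) ⊕ Fin (b - p * Fintype.card G)) = b := by
    rw [Fintype.card_sum, Fintype.card_prod, ZMod.card, Fintype.card_fin]
    omega
  let e : (ZMod p × G) ⊕ Fin (b - p * Fintype.card G) ≃ Fin b := Fintype.equivFinOfCardEq hcard
  let c : (ZMod p × G) ⊕ Fin (b - p * Fintype.card G) → ℂ :=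
    Sum.elim (fun q => f q.2 * ((p : ℂ)⁻¹ * ep p (-(q.1 * lo q.2 q.2)))) fun _ => 0
  let H : (ZMod p × G) ⊕ Fin (b - p * Fintype.card G) → Subgroup G :=
    Sum.elim (fun q => Subgroup.zpowers q.2) fun _ => ⊥
  let ψ : (ZMod p × G) ⊕ Fin (b - p * Fintype.card G) → G → ZMod p :=
    Sum.elim (fun q z => q.1 * lo q.2 z) fun _ _ => 0
  have h1 : ∀ q, ‖c q‖ ≤ b := by
    rintro (q | q)
    · show ‖f q.2 * ((p : ℂ)⁻¹ * ep p (-(q.1 * lo q.2 q.2)))‖ ≤ b
      rw [norm_mul, norm_mul, ep_norm, mul_one, norm_inv, Complex.norm_natCast]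
      have h2 : (p : ℝ)⁻¹ ≤ 1 := inv_le_one_of_one_le₀ (by exact_mod_cast hp.one_lt.le)
      have h3 := mul_le_mul (hb q.2) h2 (by positivity) (Nat.cast_nonneg b)
      linarith
    · show ‖(0 : ℂ)‖ ≤ b
      rw [norm_zero]
      exact Nat.cast_nonneg b
  have h2 : ∀ q, Lc (H q) (ψ q) := by
    rintro (q | q)
    · intro a ha d hd
      have h3 : (lo q.2 (a * d) : ZMod p) = lo q.2 a + lo q.2 d := lo_add hp (hG _) a ha d hd
      show q.1 * lo q.2 (a * d) = q.1 * lo q.2 a + q.1 * lo q.2 d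
      rw [h3, mul_add]
    · intro a _ d _
      show (0 : ZMod p) = 0 + 0
      rw [add_zero]
  have h3 : ∀ y, f y = ∑ q, c q * th (H q) (ψ q) y := by
    intro y
    rw [Fintype.sum_sum_type]
    have h4 : ∑ q : Fin (b - p * Fintype.card G), c (Sum.inr q) * th (H (Sum.inr q))
        (ψ (Sum.inr q)) y = 0 := Finset.sum_eq_zero fun q _ => zero_mul _
    rw [h4, add_zero, Fintype.sum_prod_type_right]
    have h5 : ∀ g : G, (∑ a : ZMod p, c (Sum.inl (a, g)) *
        th (H (Sum.inl (a, g))) (ψ (Sum.inl (a, g))) y) = if y = g then f g else 0 := by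
      intro g
      have h6 := congrArg (fun t => f g * t) (hd g y)
      simp only [Finset.mul_sum, mul_ite, mul_one, mul_zero] at h6
      rw [← h6]
      refine Finset.sum_congr rfl fun a _ => ?_
      show f g * ((p : ℂ)⁻¹ * ep p (-(a * lo g g))) *
        th (Subgroup.zpowers g) (fun z => a * lo g z) y = _
      ring
    rw [Finset.sum_congr rfl fun g _ => h5 g, Finset.sum_ite_eq, if_pos (Finset.mem_univ _)]
  refine ⟨fun i => c (e.symm i), fun i => H (e.symm i), fun i => ψ (e.symm i),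
    fun i => h1 _, fun i => h2 _, fun y => ?_⟩
  rw [h3 y]
  exact Fintype.sum_equiv e _ _ fun q => by simp only [Equiv.symm_apply_apply]

end H93.UB
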