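import Pool.Agent.H93.UB.Mr
import Pool.Agent.H93.UB.Rw
import Pool.Agent.H57.GP.Gp
import Pool.Agent.H57.LI.Exc

/-!
# [H93 UB LZA] auxiliary lemmas for level zero

* `mult`: sums over families of finite sets with multiplicities.
* `card_pb`, `card_np`: the number of primes of norm `≤ x`, of those whose norm is not a prime number.
* `ev_log`, `ev_exp`: numerical estimates for large `Y`.
* `av_cl`, `mn_cl`: class functions, surjective homomorphisms.
-/

set_option autoImplicit false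

open scoped NumberField Classical
open IsDedekindDomain H63.MA H38.BB NumberField H36.QA H57.LI H57.LC H67.SX H38.ML H57.SL H57.AN
open H57.GP Filter

noncomputable section

namespace H93.UB

theorem mult {ι α : Type} [DecidableEq α] (I : Finset ι) (n : ι → α) (A : Finset α) (hA : ∀ i ∈ I, n i ∈ A)
    (c : α → ℝ) (hc : ∀ m, ((I.filter fun i => n i = m).card : ℝ) ≤ c m) (F : α → ℝ)
    (hF : ∀ m ∈ A, 0 ≤ F m) : ∑ i ∈ I, F (n i) ≤ ∑ m ∈ A, c m * F m := by
  rw [← Finset.sum_fiberwise_of_maps_to hA]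
  refine Finset.sum_le_sum fun m hm => ?_
  have h1 : ∑ i ∈ I.filter (fun i => n i = m), F (n i) =
      ((I.filter fun i => n i = m).card : ℝ) * F m := by
    rw [← nsmul_eq_mul, ← Finset.sum_const]
    refine Finset.sum_congr rfl fun i hi => ?_
    rw [(Finset.mem_filter.1 hi).2]
  rw [h1]
  exact mul_le_mul_of_nonneg_right (hc m) (hF m hm)

theorem card_pb (K : Type) [Field K] [NumberField K] : ∃ C : ℝ, 1 ≤ C ∧ ∀ x : ℝ, 1 ≤ x →
    ((PB K x).card : ℝ) ≤ C * x := by
  refine ⟨2 * (prK K).n + 1, by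
    have : (0 : ℝ) ≤ 2 * (prK K).n := by positivity
    linarith, fun x hx => ?_⟩
  have h1 := exc_card (prK K) x hx
  have h2 : (PB K x) = (prK K).P x := by
    ext w
    rw [mem_PB, Pr.mem_P, prK_N]
  rw [h2]
  nlinarith

theorem card_np (K : Type) [Field K] [NumberField K] : ∃ C : ℝ, 1 ≤ C ∧ ∀ x : ℝ, 1 ≤ x →
    (((PB K x).filter fun w => ¬ (nm w).Prime).card : ℝ) ≤ C * x ^ (3 / 4 : ℝ) := by
  obtain ⟨C₀, h⟩ := thn K
  refine ⟨max C₀ 1, le_max_right _ _, fun x hx => ?_⟩
  have h1 := h ((PB K x).filter fun w => ¬ (nm w).Prime) fun i hi => (Finset.mem_filter.1 hi).2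
  have hx0 : 0 < x := by linarith
  have h2 : (((PB K x).filter fun w => ¬ (nm w).Prime).card : ℝ) * x ^ (-(3 / 4 : ℝ)) ≤ C₀ := by
    refine le_trans ?_ h1
    rw [← nsmul_eq_mul, ← Finset.sum_const]
    refine Finset.sum_le_sum fun w hw => ?_
    have h3 : (nm w : ℝ) ≤ x := mem_PB.1 (Finset.mem_filter.1 hw).1
    have h4 : (0 : ℝ) < nm w := by
      have := one_lt_nm w
      exact_mod_cast (by omega : 0 < nm w)
    rw [prK_N]
    rw [show (-(3 / 4) : ℝ) = -(3 / 4 : ℝ) by ring]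
    rw [Real.rpow_neg hx0.le, Real.rpow_neg h4.le]
    exact inv_anti₀ (Real.rpow_pos_of_pos h4 _) (Real.rpow_le_rpow h4.le h3 (by norm_num))
  rw [Real.rpow_neg hx0.le] at h2
  have h5 : 0 < x ^ (3 / 4 : ℝ) := Real.rpow_pos_of_pos hx0 _
  rw [← div_eq_mul_inv, div_le_iff₀ h5] at h2
  exact h2.trans (mul_le_mul_of_nonneg_right (le_max_left _ _) h5.le)

theorem ev_log (c a b : ℝ) (h : a < b) : ∀ᶠ Y : ℝ in atTop, c * Real.log Y ^ a ≤ Real.log Y ^ b := by
  have h1 : ∀ᶠ L : ℝ in atTop, c * L ^ a ≤ L ^ b := by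
    have h2 : Tendsto (fun L : ℝ => L ^ (b - a)) atTop atTop := tendsto_rpow_atTop (by linarith)
    filter_upwards [h2.eventually_ge_atTop c, eventually_gt_atTop 0] with L h3 h4
    have h5 : L ^ b = L ^ (b - a) * L ^ a := by
      rw [← Real.rpow_add h4]
      congr 1
      ring
    rw [h5]
    exact mul_le_mul_of_nonneg_right h3 (Real.rpow_nonneg h4.le _)
  exact Real.tendsto_log_atTop.eventually h1

theorem ev_exp (c a ε δ : ℝ) (hε : 0 < ε) (hδ : 0 < δ) :
    ∀ᶠ Y : ℝ in atTop, c * Real.log Y ^ a ≤ Real.exp (δ * Real.log Y ^ ε) := by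
  have h1 : ∀ᶠ L : ℝ in atTop, c * L ^ a ≤ Real.exp (δ * L ^ ε) := by
    have h2 : Tendsto (fun L : ℝ => L ^ ε) atTop atTop := tendsto_rpow_atTop hε
    have h3 := (isLittleO_rpow_exp_pos_mul_atTop (a / ε) hδ).comp_tendsto h2
    have h4 := h3.def (show (0 : ℝ) < 1 / (|c| + 1) by positivity)
    filter_upwards [h4, eventually_gt_atTop 0] with L h5 h6
    simp only [Function.comp_apply] at h5
    rw [Real.norm_of_nonneg (Real.rpow_nonneg (Real.rpow_nonneg h6.le _) _),
      Real.norm_of_nonneg (Real.exp_pos _).le, ← Real.rpow_mul h6.le,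
      mul_div_cancel₀ a hε.ne', one_div, inv_mul_eq_div, le_div_iff₀ (by positivity)] at h5
    have h7 : c ≤ |c| + 1 := by
      have := le_abs_self c
      linarith
    calc c * L ^ a ≤ (|c| + 1) * L ^ a :=
          mul_le_mul_of_nonneg_right h7 (Real.rpow_nonneg h6.le _)
      _ = L ^ a * (|c| + 1) := mul_comm _ _
      _ ≤ _ := h5
  exact Real.tendsto_log_atTop.eventually h1

section cl

variable {G : Type} [Group G] [Fintype G]

theorem av_cl (f : G → ℂ) (hf : ∀ g y, f (g⁻¹ * y * g) = f y) (y : G) : avg f y = f y := by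
  unfold avg
  rw [Finset.sum_congr rfl fun g _ => hf g y, Finset.sum_const, Finset.card_univ, nsmul_eq_mul,
    ← mul_assoc, inv_mul_cancel₀ (Nat.cast_ne_zero.2 Fintype.card_ne_zero), one_mul]

theorem mn_cl {K : IntermediateField ℚ QBar} [NumberField K] (φ : Gal(QBar/K) →* G)
    (hφ : Function.Surjective φ) (f : G → ℂ) (hf : ∀ g y, f (g⁻¹ * y * g) = f y) :
    mn φ f = (Fintype.card G : ℂ)⁻¹ * ∑ g : G, f g := by
  unfold mn
  have h1 : (Finset.univ.filter fun y : G => y ∈ φ.range) = Finset.univ := by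
    rw [Finset.filter_eq_self]
    intro y _
    obtain ⟨σ, hσ⟩ := hφ y
    exact ⟨σ, hσ⟩
  rw [h1, Finset.card_univ]
  congr 1
  exact Finset.sum_congr rfl fun y _ => av_cl f hf y

end cl

end H93.UB
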