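import Pool.Agent.H38.BB.CMer
import Pool.Agent.H63.MA.LBd

/-!
# [H93 UB MR] sums over sets of good primes

* `mr`: `∑ 1 / nm v ≤ log log Y + C` over the good primes of norm `≤ Y` (`Y ≥ 3`).
* `hrk`: `∑_{n ∈ GF D Y} k ^ #n ≤ C Y (1 + log Y) ^ (k - 1)` for all `Y ≥ 0`, every `k : ℕ`.
* `rkn`: `∑ k ^ #n / nr n ≤ C (log Y) ^ k` over the finite sets of good primes of norm `≤ Y` (`Y ≥ 3`).
* `pkb`: `∑ q ^ #n / nr n ≤ (1 + q (log log Y + C)) ^ B` over those with at most `B` elements.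
-/

set_option autoImplicit false

open scoped NumberField
open IsDedekindDomain
open scoped Classical

noncomputable section

namespace H93.UB

open H63.MA H38.BB

/-- Mertens' bound -/
theorem mr (K : Type) [Field K] [NumberField K] : ∃ C : ℝ, 0 < C ∧ ∀ (p : ℕ) (ζ : K)
    (D : RD0 K p ζ) (Y : ℝ), 3 ≤ Y →
      ∑ v ∈ gdY D Y, 1 / (nm v : ℝ) ≤ Real.log (Real.log Y) + C := by
  obtain ⟨C₂, hC₂, hmer⟩ := mer K 1 zero_le_one
  obtain ⟨Cp, hCp⟩ := pz_all K
  refine ⟨|Cp| + C₂, by positivity, fun p ζ D Y hY => ?_⟩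
  have hY0 : 0 < Y := by linarith
  have hL1 : 1 ≤ Real.log Y := by
    rw [Real.le_log_iff_exp_le hY0]
    linarith [Real.exp_one_lt_d9]
  have hL0 : 0 < Real.log Y := by linarith
  obtain ⟨s, hs⟩ : ∃ s : ℝ, s = 1 + 1 / Real.log Y := ⟨_, rfl⟩
  have hs1 : 1 < s := by
    rw [hs]
    have : 0 < 1 / Real.log Y := by positivity
    linarith
  have hs2 : s ≤ 2 := by
    rw [hs]
    have : 1 / Real.log Y ≤ 1 := by
      rw [div_le_one hL0]
      exact hL1
    linarith
  have h1 := hmer p ζ D (fun _ => 1) (fun _ => ⟨zero_le_one, le_rfl⟩) Y hY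
  rw [← hs] at h1
  have h2 : (∑' v : Pl K, if D.Gd v then (1 : ℝ) * (nm v : ℝ) ^ (-s) else 0) ≤
      PZ (Set.univ : Set (Pl K)) s := by
    unfold PZ
    have h0 : ∀ v : Pl K, 0 ≤ (nm v : ℝ) ^ (-s) := fun v => Real.rpow_nonneg (Nat.cast_nonneg _) _
    refine Summable.tsum_le_tsum (fun v => ?_) ?_ ((pz_summable K hs1).indicator _)
    · rw [Set.indicator_univ]
      split_ifs
      · rw [one_mul]
      · exact h0 v
    · refine Summable.of_nonneg_of_le (fun v => ?_) (fun v => ?_) (pz_summable K hs1)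
      · split_ifs
        · rw [one_mul]
          exact h0 v
        · exact le_rfl
      · split_ifs
        · rw [one_mul]
        · exact h0 v
  have hlog : Real.log (1 / (s - 1)) = Real.log (Real.log Y) := by
    rw [hs]
    congr 1
    rw [add_sub_cancel_left, one_div_one_div]
  have h3 := (abs_le.1 (hCp s hs1 hs2)).2
  rw [hlog] at h3
  have h4 := le_abs_self Cp
  linarith

theorem gf_mono {K : Type} [Field K] [NumberField K] {p : ℕ} {ζ : K} (D : RD0 K p ζ) {X Y : ℝ}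
    (h : X ≤ Y) : GF D X ⊆ GF D Y := by
  intro n hn
  rw [chr_mem_GF] at hn ⊢
  exact ⟨hn.1.trans h, hn.2⟩

theorem gf_lt_one {K : Type} [Field K] [NumberField K] {p : ℕ} {ζ : K} (D : RD0 K p ζ) {X : ℝ}
    (h : X < 1) : GF D X = ∅ := by
  rw [Finset.eq_empty_iff_forall_notMem]
  intro n hn
  rw [chr_mem_GF] at hn
  linarith [one_le_nr n]

/-- the upper bound for sums of `k ^ #n` -/
theorem hrk (K : Type) [Field K] [NumberField K] (k : ℕ) : ∃ C : ℝ, 0 < C ∧ ∀ (p : ℕ) (ζ : K)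
    (D : RD0 K p ζ) (X Y : ℝ), 0 ≤ X → X ≤ Y → 1 ≤ Y →
      ∑ n ∈ GF D X, (k : ℝ) ^ n.card ≤ C * X * (1 + Real.log Y) ^ (k - 1) := by
  rcases Nat.eq_zero_or_pos k with hk | hk
  · subst hk
    refine ⟨1, one_pos, fun p ζ D Y _ hY _ _ => ?_⟩
    rcases lt_or_ge Y 1 with h1 | h1
    · rw [gf_lt_one D h1, Finset.sum_empty]
      simp only [Nat.zero_sub, pow_zero]
      linarith
    · have h2 : ∑ n ∈ GF D Y, ((0 : ℕ) : ℝ) ^ n.card ≤ ∑ n ∈ {(∅ : Finset (Pl K))}, 1 := by
        rw [← Finset.sum_filter_add_sum_filter_not (GF D Y) (fun n => n = ∅)]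
        have h3 : ∑ n ∈ (GF D Y).filter (fun n => ¬ n = ∅), ((0 : ℕ) : ℝ) ^ n.card = 0 := by
          refine Finset.sum_eq_zero fun n hn => ?_
          have h4 := (Finset.mem_filter.1 hn).2
          rw [Nat.cast_zero, zero_pow (Finset.card_ne_zero.2 (Finset.nonempty_iff_ne_empty.2 h4))]
        rw [h3, add_zero]
        have h5 : ∀ n ∈ (GF D Y).filter (fun n => n = ∅), ((0 : ℕ) : ℝ) ^ n.card ≤ 1 := by
          intro n hn
          have h4 := (Finset.mem_filter.1 hn).2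
          rw [h4]
          simp
        refine (Finset.sum_le_sum h5).trans ?_
        refine Finset.sum_le_sum_of_subset_of_nonneg ?_ fun _ _ _ => zero_le_one
        intro n hn
        rw [Finset.mem_singleton]
        exact (Finset.mem_filter.1 hn).2
      rw [Finset.sum_singleton] at h2
      simp only [Nat.zero_sub, pow_zero]
      linarith
  obtain ⟨C₁, hC₁, h1⟩ := hr K (k : ℝ) (Nat.cast_nonneg k)
  obtain ⟨C₂, hC₂, h2⟩ := mr K
  refine ⟨3 * C₁ * Real.exp (k * C₂) * 2 ^ (k - 1), by positivity, fun p ζ D X Y hX hXY hY => ?_⟩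
  -- `X ≥ 3`
  have key : ∀ Z : ℝ, 3 ≤ Z → ∑ n ∈ GF D Z, (k : ℝ) ^ n.card ≤
      C₁ * Real.exp (k * C₂) * Z * Real.log Z ^ (k - 1) := by
    intro Z hZ
    have hZ0 : 0 < Z := by linarith
    have hL1 : 1 ≤ Real.log Z := by
      rw [Real.le_log_iff_exp_le hZ0]
      linarith [Real.exp_one_lt_d9]
    have hL0 : 0 < Real.log Z := by linarith
    have h3 := h1 p ζ D (fun _ => (k : ℝ)) (fun _ => ⟨Nat.cast_nonneg k, le_rfl⟩) Z (by linarith)
    have h4 : ∑ n ∈ GF D Z, ∏ v ∈ n, (k : ℝ) = ∑ n ∈ GF D Z, (k : ℝ) ^ n.card :=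
      Finset.sum_congr rfl fun n _ => by rw [Finset.prod_const]
    rw [h4] at h3
    refine h3.trans ?_
    have h5 : ∑ v ∈ gdY D Z, (k : ℝ) / nm v ≤ k * Real.log (Real.log Z) + k * C₂ := by
      have h6 : ∑ v ∈ gdY D Z, (k : ℝ) / nm v = k * ∑ v ∈ gdY D Z, 1 / (nm v : ℝ) := by
        rw [Finset.mul_sum]
        refine Finset.sum_congr rfl fun v _ => ?_
        rw [mul_one_div]
      rw [h6, ← mul_add]
      exact mul_le_mul_of_nonneg_left (h2 p ζ D Z hZ) (Nat.cast_nonneg k)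
    have h7 : Real.exp (∑ v ∈ gdY D Z, (k : ℝ) / nm v) ≤ Real.log Z ^ k * Real.exp (k * C₂) := by
      refine (Real.exp_le_exp.2 h5).trans ?_
      rw [Real.exp_add, Real.exp_nat_mul, Real.exp_log hL0]
    calc C₁ * (Z / Real.log Z) * Real.exp (∑ v ∈ gdY D Z, (k : ℝ) / nm v)
        ≤ C₁ * (Z / Real.log Z) * (Real.log Z ^ k * Real.exp (k * C₂)) :=
          mul_le_mul_of_nonneg_left h7 (by positivity)
      _ = C₁ * Real.exp (k * C₂) * Z * (Real.log Z ^ k / Real.log Z) := by ring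
      _ = C₁ * Real.exp (k * C₂) * Z * Real.log Z ^ (k - 1) := by
          congr 1
          obtain ⟨j, rfl⟩ : ∃ j, k = j + 1 := ⟨k - 1, by omega⟩
          rw [Nat.add_sub_cancel, pow_succ, mul_div_assoc, div_self hL0.ne', mul_one]
  have hlY : 0 ≤ Real.log Y := Real.log_nonneg hY
  rcases lt_or_ge X 1 with h1' | h1'
  · rw [gf_lt_one D h1', Finset.sum_empty]
    positivity
  have h7 : (1 : ℝ) ≤ (1 + Real.log Y) ^ (k - 1) := one_le_pow₀ (by linarith)
  rcases lt_or_ge X 3 with h3 | h3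
  · have h4 := key 3 le_rfl
    refine (Finset.sum_le_sum_of_subset_of_nonneg (gf_mono D h3.le)
      fun n _ _ => by positivity).trans (h4.trans ?_)
    have h5 : Real.log 3 ≤ 2 := by
      rw [Real.log_le_iff_le_exp (by norm_num)]
      have := Real.add_one_le_exp (2 : ℝ)
      linarith
    have h6 : Real.log 3 ^ (k - 1) ≤ 2 ^ (k - 1) :=
      pow_le_pow_left₀ (Real.log_nonneg (by norm_num)) h5 _
    calc C₁ * Real.exp (k * C₂) * 3 * Real.log 3 ^ (k - 1)
        ≤ C₁ * Real.exp (k * C₂) * 3 * 2 ^ (k - 1) :=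
          mul_le_mul_of_nonneg_left h6 (by positivity)
      _ = 3 * C₁ * Real.exp (k * C₂) * 2 ^ (k - 1) * 1 * 1 := by ring
      _ ≤ 3 * C₁ * Real.exp (k * C₂) * 2 ^ (k - 1) * X * (1 + Real.log Y) ^ (k - 1) := by
          gcongr
  · refine (key X h3).trans ?_
    have hX0 : 0 < X := by linarith
    have h8 : Real.log X ^ (k - 1) ≤ (1 + Real.log Y) ^ (k - 1) :=
      pow_le_pow_left₀ (Real.log_nonneg (by linarith))
        (by linarith [Real.log_le_log hX0 hXY]) _
    have h9 : (1 : ℝ) ≤ 3 * 2 ^ (k - 1) := by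
      have : (1 : ℝ) ≤ 2 ^ (k - 1) := one_le_pow₀ (by norm_num)
      linarith
    calc C₁ * Real.exp (k * C₂) * X * Real.log X ^ (k - 1)
        ≤ C₁ * Real.exp (k * C₂) * X * (1 + Real.log Y) ^ (k - 1) :=
          mul_le_mul_of_nonneg_left h8 (by positivity)
      _ = C₁ * Real.exp (k * C₂) * X * (1 + Real.log Y) ^ (k - 1) * 1 := by ring
      _ ≤ C₁ * Real.exp (k * C₂) * X * (1 + Real.log Y) ^ (k - 1) * (3 * 2 ^ (k - 1)) := by
          gcongr
      _ = _ := by ring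

/-- sums of `k ^ #n / nr n` over all sets of good primes of norm at most `T` -/
theorem rkn (K : Type) [Field K] [NumberField K] (k : ℕ) : ∃ C : ℝ, 0 < C ∧ ∀ (p : ℕ) (ζ : K)
    (D : RD0 K p ζ) (T : ℝ), 3 ≤ T →
      ∑ n ∈ (gdY D T).powerset, (k : ℝ) ^ n.card / nr n ≤ C * Real.log T ^ k := by
  obtain ⟨C₂, hC₂, h2⟩ := mr K
  refine ⟨Real.exp (k * C₂), Real.exp_pos _, fun p ζ D T hT => ?_⟩
  have hT0 : 0 < T := by linarith
  have hL1 : 1 ≤ Real.log T := by
    rw [Real.le_log_iff_exp_le hT0]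
    linarith [Real.exp_one_lt_d9]
  have hL0 : 0 < Real.log T := by linarith
  have h0 : ∀ v : Pl K, 0 ≤ (k : ℝ) / (nm v : ℝ) := fun v => by positivity
  have h5 : ∑ v ∈ gdY D T, (k : ℝ) / nm v ≤ k * Real.log (Real.log T) + k * C₂ := by
    have h6 : ∑ v ∈ gdY D T, (k : ℝ) / nm v = k * ∑ v ∈ gdY D T, 1 / (nm v : ℝ) := by
      rw [Finset.mul_sum]
      refine Finset.sum_congr rfl fun v _ => ?_
      rw [mul_one_div]
    rw [h6, ← mul_add]
    exact mul_le_mul_of_nonneg_left (h2 p ζ D T hT) (Nat.cast_nonneg k)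
  calc ∑ n ∈ (gdY D T).powerset, (k : ℝ) ^ n.card / nr n
      = ∑ n ∈ (gdY D T).powerset, ∏ v ∈ n, (k : ℝ) / (nm v : ℝ) := by
        refine Finset.sum_congr rfl fun n _ => ?_
        unfold nr
        rw [Finset.prod_div_distrib, Finset.prod_const]
    _ = ∏ v ∈ gdY D T, (1 + (k : ℝ) / (nm v : ℝ)) := (Finset.prod_one_add _).symm
    _ ≤ ∏ v ∈ gdY D T, Real.exp ((k : ℝ) / (nm v : ℝ)) := by
        refine Finset.prod_le_prod (fun v _ => by have := h0 v; linarith) fun v _ => ?_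
        have := Real.add_one_le_exp ((k : ℝ) / (nm v : ℝ))
        linarith
    _ = Real.exp (∑ v ∈ gdY D T, (k : ℝ) / nm v) := (Real.exp_sum _ _).symm
    _ ≤ Real.exp (k * Real.log (Real.log T) + k * C₂) := Real.exp_le_exp.2 h5
    _ = Real.exp (k * C₂) * Real.log T ^ k := by
        rw [Real.exp_add, Real.exp_nat_mul, Real.exp_log hL0, mul_comm]

/-- sums over the subsets with at most `B` elements -/
theorem sum_card_le {α : Type} (a : α → ℝ) (ha : ∀ v, 0 ≤ a v) (A : Finset α) : ∀ B : ℕ,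
    ∑ n ∈ A.powerset, (if n.card ≤ B then ∏ v ∈ n, a v else 0) ≤ (1 + ∑ v ∈ A, a v) ^ B := by
  induction A using Finset.induction_on with
  | empty =>
    intro B
    rw [Finset.powerset_empty, Finset.sum_singleton]
    simp
  | insert w A hw ih =>
    intro B
    obtain ⟨S, hS⟩ : ∃ S : ℝ, S = ∑ v ∈ A, a v := ⟨_, rfl⟩
    have hS0 : 0 ≤ S := by
      rw [hS]
      exact Finset.sum_nonneg fun v _ => ha v
    have haw := ha w
    rw [Finset.sum_powerset_insert hw, Finset.sum_insert hw, ← hS]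
    rw [← hS] at ih
    have hcard : ∀ n ∈ A.powerset, (insert w n).card = n.card + 1 := by
      intro n hn
      exact Finset.card_insert_of_notMem fun h => hw (Finset.mem_powerset.1 hn h)
    have hprod : ∀ n ∈ A.powerset, ∏ v ∈ insert w n, a v = a w * ∏ v ∈ n, a v := by
      intro n hn
      exact Finset.prod_insert fun h => hw (Finset.mem_powerset.1 hn h)
    rcases Nat.eq_zero_or_pos B with hB | hB
    · subst hB
      have h1 : ∑ n ∈ A.powerset, (if (insert w n).card ≤ 0 then ∏ v ∈ insert w n, a v else 0) =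
          0 := by
        refine Finset.sum_eq_zero fun n hn => ?_
        rw [hcard n hn, if_neg (by omega)]
      have h2 := ih 0
      rw [h1, add_zero, pow_zero]
      rwa [pow_zero] at h2
    · obtain ⟨B', rfl⟩ : ∃ B', B = B' + 1 := ⟨B - 1, by omega⟩
      have h1 : ∑ n ∈ A.powerset, (if (insert w n).card ≤ B' + 1 then ∏ v ∈ insert w n, a v
          else 0) = a w * ∑ n ∈ A.powerset, (if n.card ≤ B' then ∏ v ∈ n, a v else 0) := by
        rw [Finset.mul_sum]
        refine Finset.sum_congr rfl fun n hn => ?_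
        rw [hcard n hn, hprod n hn]
        by_cases h : n.card ≤ B'
        · rw [if_pos h, if_pos (by omega)]
        · rw [if_neg h, if_neg (by omega), mul_zero]
      rw [h1]
      have h2 := ih (B' + 1)
      have h3 := mul_le_mul_of_nonneg_left (ih B') haw
      have h4 : (1 + S) ^ B' ≤ (1 + (a w + S)) ^ B' :=
        pow_le_pow_left₀ (by linarith) (by linarith) _
      calc _ ≤ (1 + S) ^ (B' + 1) + a w * (1 + S) ^ B' := add_le_add h2 h3
        _ = (1 + (a w + S)) * (1 + S) ^ B' := by ring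
        _ ≤ (1 + (a w + S)) * (1 + (a w + S)) ^ B' :=
            mul_le_mul_of_nonneg_left h4 (by linarith)
        _ = _ := by ring

/-- sums of `q ^ #n / nr n` over the sets of at most `B` good primes of norm at most `Y` -/
theorem pkb (K : Type) [Field K] [NumberField K] : ∃ C : ℝ, 0 < C ∧ ∀ (p : ℕ) (ζ : K)
    (D : RD0 K p ζ) (q B : ℕ) (Y : ℝ), 3 ≤ Y →
      ∑ n ∈ (gdY D Y).powerset, (if n.card ≤ B then (q : ℝ) ^ n.card / nr n else 0) ≤
        (1 + q * (Real.log (Real.log Y) + C)) ^ B := by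
  obtain ⟨C₂, hC₂, h2⟩ := mr K
  refine ⟨C₂, hC₂, fun p ζ D q B Y hY => ?_⟩
  have h1 := sum_card_le (fun v : Pl K => (q : ℝ) / (nm v : ℝ)) (fun v => by positivity) (gdY D Y) B
  have h3 : ∑ n ∈ (gdY D Y).powerset, (if n.card ≤ B then (q : ℝ) ^ n.card / nr n else 0) =
      ∑ n ∈ (gdY D Y).powerset, (if n.card ≤ B then ∏ v ∈ n, (q : ℝ) / (nm v : ℝ) else 0) := by
    refine Finset.sum_congr rfl fun n _ => ?_
    unfold nr
    rw [Finset.prod_div_distrib, Finset.prod_const]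
  rw [h3]
  refine h1.trans ?_
  have h6 : ∑ v ∈ gdY D Y, (q : ℝ) / nm v = q * ∑ v ∈ gdY D Y, 1 / (nm v : ℝ) := by
    rw [Finset.mul_sum]
    refine Finset.sum_congr rfl fun v _ => ?_
    rw [mul_one_div]
  rw [h6]
  have h7 := mul_le_mul_of_nonneg_left (h2 p ζ D Y hY) (Nat.cast_nonneg (α := ℝ) q)
  have h8 : 0 ≤ ∑ v ∈ gdY D Y, 1 / (nm v : ℝ) := Finset.sum_nonneg fun v _ => by positivity
  exact pow_le_pow_left₀ (by positivity) (by linarith) _

end H93.UB
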